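import Pool.Agent.HEnd.End
import Pool.Agent.HFin.Ends

/-!
# End point values for the orders 3, 4, 5 and all numbers of pairs
-/

set_option autoImplicit false

namespace Pool.Agent.HSmall

open Polynomial Set Complex ComplexConjugate Pool.Agent.HHalf Pool.Agent.HStar Pool.Agent.HEnd
  Pool.Agent.HFin

theorem chr (m k : ℕ) :
    ((m.choose (k + 1) : ℕ) : ℝ) * (k + 1) = (m.choose k : ℝ) * (m - k) := by
  rcases le_or_gt k m with h | h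
  · have h1 := Nat.choose_succ_right_eq m k
    have h2 : ((m.choose (k + 1) * (k + 1) : ℕ) : ℝ) = ((m.choose k * (m - k) : ℕ) : ℝ) := by
      rw [h1]
    push_cast [Nat.cast_sub h] at h2
    exact h2
  · rw [Nat.choose_eq_zero_of_lt h, Nat.choose_eq_zero_of_lt (by omega : m < k + 1)]
    simp

theorem c1 (m : ℕ) : (m.choose 1 : ℝ) = m := by simp

theorem c2 (m : ℕ) : (m.choose 2 : ℝ) = m * (m - 1) / 2 := by
  have h := chr m 1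
  rw [c1] at h
  norm_num at h
  linarith

theorem c3 (m : ℕ) : (m.choose 3 : ℝ) = m * (m - 1) * (m - 2) / 6 := by
  have h := chr m 2
  rw [c2] at h
  norm_num at h
  linarith

theorem c4 (m : ℕ) : (m.choose 4 : ℝ) = m * (m - 1) * (m - 2) * (m - 3) / 24 := by
  have h := chr m 3
  rw [c3] at h
  norm_num at h
  linarith

theorem c5 (m : ℕ) : (m.choose 5 : ℝ) = m * (m - 1) * (m - 2) * (m - 3) * (m - 4) / 120 := by
  have h := chr m 4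
  rw [c4] at h
  norm_num at h
  linarith

theorem yyv (e k i : ℕ) (hi : i ≤ k) :
    yy (e + k) (e + i) = 2 ^ e * (2 ^ i * ((e + k).choose (k - i) : ℝ)) := by
  unfold yy
  rw [← Nat.choose_symm_of_eq_add (show e + k = (e + i) + (k - i) by omega), pow_add]
  ring

theorem yyz (e k i : ℕ) (hi : k < i) : yy (e + k) (e + i) = 0 := by
  unfold yy
  rw [Nat.choose_eq_zero_of_lt (by omega)]
  simp

/-- From the crossed form to the normal form. -/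
theorem from_cross {A0 Al D0 Nl P H Hk : ℝ} (hP : 0 < P) (hA0 : 0 < A0) (hHk : 0 ≤ Hk)
    (h : H * (P * A0) ≤ (P * Al) * Hk) (hc : Al * D0 ≤ Nl * A0) (hD0 : 0 ≤ D0) :
    D0 * H ≤ Nl * Hk := by
  have h1 : P * (H * A0) ≤ P * (Al * Hk) := by linarith
  have h2 := le_of_mul_le_mul_left h1 hP
  have h3 : A0 * (D0 * H) ≤ A0 * (Nl * Hk) := by
    have e1 := mul_le_mul_of_nonneg_left h2 hD0
    have e2 := mul_le_mul_of_nonneg_right hc hHk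
    linarith
  exact le_of_mul_le_mul_left h3 hA0

theorem ends3 {N : ℕ} {L : Fin N → ℂ} (hL : ∀ a, ‖L a‖ ≤ 1) (hN : 4 ≤ N) {a0 : Fin N} {s : ℝ}
    (hs0 : 0 ≤ s) (hs : 2 * (1 - (L a0).re) ≤ s) :
    (12 + 25 * s) * hv L 1 1 ≤ (16 * s) * hv L 3 1 ∧
      (12 + 25 * s) * hv L 0 1 ≤ (4 * s) * hv L 3 1 ∧
      (s ≤ 7 / 20 → hv L 2 1 ≤ 13 / 20 * hv L 3 1) := by
  have hH := hv_one_nonneg hL 3
  have h2 := end_one_ge_two hL hs (k := 3) (by norm_num) (by omega) (l := 2) (by norm_num) (by norm_num)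
  have h3 := end_one_ge_two hL hs (k := 3) (by norm_num) (by omega) (l := 3) (by norm_num) (by norm_num)
  have h1 := fun hG1 hG2 => end_one_one hL hs (k := 3) (by norm_num) (by omega) (G := 13 / 20) (by norm_num) hG1 hG2
  obtain ⟨q, rfl⟩ : ∃ q, N = q + 4 := ⟨N - 4, by omega⟩
  obtain ⟨e, he⟩ : ∃ e, e = 2 * q + 3 := ⟨_, rfl⟩
  rw [show 2 * (q + 4) - 2 = e + 3 by omega, show 2 * (q + 4) - 3 - 1 = e + 1 by omega,
    show 2 * (q + 4) - 3 - 2 = e + 0 by omega, show 2 * (q + 4) - 3 = e + 2 by omega] at h1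
  rw [show 2 * (q + 4) - 2 = e + 3 by omega, show 2 * (q + 4) - 3 = e + 2 by omega] at h2 h3
  have hq : (0:ℝ) ≤ q := Nat.cast_nonneg q
  have hm : ((e + 3 : ℕ) : ℝ) = (2 * (q:ℝ) + 6) := by rw [he]; push_cast; ring
  have n0 : nn (e + 3) (e + 2) 0 s = 2 ^ e *
      (4 * ((2 * (q:ℝ) + 6)) + 2 * s * ((2 * (q:ℝ) + 6) * ((2 * (q:ℝ) + 6) - 1) / 2) + 1 * s * ((2 * (q:ℝ) + 6) * ((2 * (q:ℝ) + 6) - 1) * ((2 * (q:ℝ) + 6) - 2) / 6)) := by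
    unfold nn
    rw [show e + 2 + 0 - 1 = e + 1 by omega,
      show e + 2 + 0 - 2 = e + 0 by omega,
      show e + 2 + 0 = e + 2 by omega,
      yyv e 3 2 (by norm_num),
      yyv e 3 1 (by norm_num),
      yyv e 3 0 (by norm_num)]
    norm_num only
    rw [c1, c2, c3, hm]
    push_cast
    ring
  have n1 : nn (e + 3) (e + 2) 1 s = 2 ^ e *
      (8 * 1 + 4 * s * ((2 * (q:ℝ) + 6)) + 2 * s * ((2 * (q:ℝ) + 6) * ((2 * (q:ℝ) + 6) - 1) / 2)) := by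
    unfold nn
    rw [show e + 2 + 1 - 1 = e + 2 by omega,
      show e + 2 + 1 - 2 = e + 1 by omega,
      show e + 2 + 1 = e + 3 by omega,
      yyv e 3 3 (by norm_num),
      yyv e 3 2 (by norm_num),
      yyv e 3 1 (by norm_num)]
    norm_num only
    rw [Nat.choose_zero_right, c1, c2, hm]
    push_cast
    ring
  have n2 : nn (e + 3) (e + 2) 2 s = 2 ^ e *
      (8 * s * 1 + 4 * s * ((2 * (q:ℝ) + 6))) := by
    unfold nn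
    rw [show e + 2 + 2 - 1 = e + 3 by omega,
      show e + 2 + 2 - 2 = e + 2 by omega,
      show e + 2 + 2 = e + 4 by omega,
      yyz e 3 4 (by norm_num),
      yyv e 3 3 (by norm_num),
      yyv e 3 2 (by norm_num)]
    norm_num only
    rw [Nat.choose_zero_right, c1, hm]
    push_cast
    ring
  have n3 : nn (e + 3) (e + 2) 3 s = 2 ^ e *
      (8 * s * 1) := by
    unfold nn
    rw [show e + 2 + 3 - 1 = e + 4 by omega,
      show e + 2 + 3 - 2 = e + 3 by omega,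
      show e + 2 + 3 = e + 5 by omega,
      yyz e 3 5 (by norm_num),
      yyz e 3 4 (by norm_num),
      yyv e 3 3 (by norm_num)]
    norm_num only
    rw [Nat.choose_zero_right]
    push_cast
    ring
  rw [n0, n2] at h2
  rw [n0, n3] at h3
  have hP : (0:ℝ) < 2 ^ e := by positivity
  have hpos : 0 < (4 * ((2 * (q:ℝ) + 6)) + 2 * s * ((2 * (q:ℝ) + 6) * ((2 * (q:ℝ) + 6) - 1) / 2) + 1 * s * ((2 * (q:ℝ) + 6) * ((2 * (q:ℝ) + 6) - 1) * ((2 * (q:ℝ) + 6) - 2) / 6)) := by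
    have e1 : ((2 * (q:ℝ) + 6) - 1) = 2 * q + 5 := by ring
    have e2 : ((2 * (q:ℝ) + 6) - 2) = 2 * q + 4 := by ring
    rw [e1, e2]
    positivity
  refine ⟨from_cross hP hpos hH h2 ?_ (by positivity),
    from_cross hP hpos hH h3 ?_ (by positivity), ?_⟩
  · rw [← sub_nonneg]
    have e1 : (16 * s) * (4 * ((2 * (q:ℝ) + 6)) + 2 * s * ((2 * (q:ℝ) + 6) * ((2 * (q:ℝ) + 6) - 1) / 2) + 1 * s * ((2 * (q:ℝ) + 6) * ((2 * (q:ℝ) + 6) - 1) * ((2 * (q:ℝ) + 6) - 2) / 6)) -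
        (8 * s * 1 + 4 * s * ((2 * (q:ℝ) + 6))) * (12 + 25 * s) =
        32 * q * s + (1640 / 3) * q * s ^ 2 + 224 * q ^ 2 * s ^ 2 + (64 / 3) * q ^ 3 * s ^ 2 := by
      ring
    rw [e1]
    positivity
  · rw [← sub_nonneg]
    have e1 : (4 * s) * (4 * ((2 * (q:ℝ) + 6)) + 2 * s * ((2 * (q:ℝ) + 6) * ((2 * (q:ℝ) + 6) - 1) / 2) + 1 * s * ((2 * (q:ℝ) + 6) * ((2 * (q:ℝ) + 6) - 1) * ((2 * (q:ℝ) + 6) - 2) / 6)) -
        (8 * s * 1) * (12 + 25 * s) =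
        32 * q * s + (560 / 3) * q * s ^ 2 + 56 * q ^ 2 * s ^ 2 + (16 / 3) * q ^ 3 * s ^ 2 := by
      ring
    rw [e1]
    positivity
  · intro hs7
    refine h1 ?_ ?_
    · rw [n0, n1, ← sub_nonneg]
      have e1 : 13 / 20 * (2 ^ e * (4 * ((2 * (q:ℝ) + 6)) + 2 * s * ((2 * (q:ℝ) + 6) * ((2 * (q:ℝ) + 6) - 1) / 2) + 1 * s * ((2 * (q:ℝ) + 6) * ((2 * (q:ℝ) + 6) - 1) * ((2 * (q:ℝ) + 6) - 2) / 6))) -
          2 ^ e * (8 * 1 + 4 * s * ((2 * (q:ℝ) + 6)) + 2 * s * ((2 * (q:ℝ) + 6) * ((2 * (q:ℝ) + 6) - 1) / 2)) =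
          2 ^ e * (38 / 5 - 43 / 2 * s + 26 / 5 * q + (1 / 3) * q * s + (51 / 10) * q ^ 2 * s + (13 / 15) * q ^ 3 * s) := by
        ring
      rw [e1]
      have e2 : 0 ≤ 38 / 5 - 43 / 2 * s := by linarith
      have e3 : 0 ≤ 26 / 5 * (q:ℝ) + (1 / 3) * q * s + (51 / 10) * q ^ 2 * s + (13 / 15) * q ^ 3 * s := by positivity
      refine mul_nonneg hP.le ?_
      linarith
    · rw [yyv e 3 1 (by norm_num), yyv e 3 0 (by norm_num)]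
      norm_num only
      rw [c2, c3, hm, ← sub_nonneg]
      have e1 : 13 / 20 * (2 ^ e * (2 * ((2 * (q:ℝ) + 6) * ((2 * (q:ℝ) + 6) - 1) / 2)) + 2 ^ e * (1 * ((2 * (q:ℝ) + 6) * ((2 * (q:ℝ) + 6) - 1) * ((2 * (q:ℝ) + 6) - 2) / 6))) -
          2 ^ e * (2 * ((2 * (q:ℝ) + 6) * ((2 * (q:ℝ) + 6) - 1) / 2)) =
          2 ^ e * ((5 / 2) + (25 / 3) * q + (51 / 10) * q ^ 2 + (13 / 15) * q ^ 3) := by
        ring
      rw [e1]
      positivity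

theorem ends4 {N : ℕ} {L : Fin N → ℂ} (hL : ∀ a, ‖L a‖ ≤ 1) (hN : 5 ≤ N) {a0 : Fin N} {s : ℝ}
    (hs0 : 0 ≤ s) (hs : 2 * (1 - (L a0).re) ≤ s) :
    (56 + 91 * s) * hv L 2 1 ≤ (8 + 88 * s) * hv L 4 1 ∧
      (56 + 91 * s) * hv L 1 1 ≤ (40 * s) * hv L 4 1 ∧
      (56 + 91 * s) * hv L 0 1 ≤ (8 * s) * hv L 4 1 := by
  have hH := hv_one_nonneg hL 4
  have h2 := end_one_ge_two hL hs (k := 4) (by norm_num) (by omega) (l := 2) (by norm_num) (by norm_num)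
  have h3 := end_one_ge_two hL hs (k := 4) (by norm_num) (by omega) (l := 3) (by norm_num) (by norm_num)
  have h4 := end_one_ge_two hL hs (k := 4) (by norm_num) (by omega) (l := 4) (by norm_num) (by norm_num)
  obtain ⟨q, rfl⟩ : ∃ q, N = q + 5 := ⟨N - 5, by omega⟩
  obtain ⟨e, he⟩ : ∃ e, e = 2 * q + 4 := ⟨_, rfl⟩
  rw [show 2 * (q + 5) - 2 = e + 4 by omega, show 2 * (q + 5) - 4 = e + 2 by omega] at h2 h3 h4
  have hq : (0:ℝ) ≤ q := Nat.cast_nonneg q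
  have hm : ((e + 4 : ℕ) : ℝ) = (2 * (q:ℝ) + 8) := by rw [he]; push_cast; ring
  have n0 : nn (e + 4) (e + 2) 0 s = 2 ^ e *
      (4 * ((2 * (q:ℝ) + 8) * ((2 * (q:ℝ) + 8) - 1) / 2) + 2 * s * ((2 * (q:ℝ) + 8) * ((2 * (q:ℝ) + 8) - 1) * ((2 * (q:ℝ) + 8) - 2) / 6) + 1 * s * ((2 * (q:ℝ) + 8) * ((2 * (q:ℝ) + 8) - 1) * ((2 * (q:ℝ) + 8) - 2) * ((2 * (q:ℝ) + 8) - 3) / 24)) := by
    unfold nn
    rw [show e + 2 + 0 - 1 = e + 1 by omega,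
      show e + 2 + 0 - 2 = e + 0 by omega,
      show e + 2 + 0 = e + 2 by omega,
      yyv e 4 2 (by norm_num),
      yyv e 4 1 (by norm_num),
      yyv e 4 0 (by norm_num)]
    norm_num only
    rw [c2, c3, c4, hm]
    push_cast
    ring
  have n2 : nn (e + 4) (e + 2) 2 s = 2 ^ e *
      (16 * 1 + 8 * s * ((2 * (q:ℝ) + 8)) + 4 * s * ((2 * (q:ℝ) + 8) * ((2 * (q:ℝ) + 8) - 1) / 2)) := by
    unfold nn
    rw [show e + 2 + 2 - 1 = e + 3 by omega,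
      show e + 2 + 2 - 2 = e + 2 by omega,
      show e + 2 + 2 = e + 4 by omega,
      yyv e 4 4 (by norm_num),
      yyv e 4 3 (by norm_num),
      yyv e 4 2 (by norm_num)]
    norm_num only
    rw [Nat.choose_zero_right, c1, c2, hm]
    push_cast
    ring
  have n3 : nn (e + 4) (e + 2) 3 s = 2 ^ e *
      (16 * s * 1 + 8 * s * ((2 * (q:ℝ) + 8))) := by
    unfold nn
    rw [show e + 2 + 3 - 1 = e + 4 by omega,
      show e + 2 + 3 - 2 = e + 3 by omega,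
      show e + 2 + 3 = e + 5 by omega,
      yyz e 4 5 (by norm_num),
      yyv e 4 4 (by norm_num),
      yyv e 4 3 (by norm_num)]
    norm_num only
    rw [Nat.choose_zero_right, c1, hm]
    push_cast
    ring
  have n4 : nn (e + 4) (e + 2) 4 s = 2 ^ e *
      (16 * s * 1) := by
    unfold nn
    rw [show e + 2 + 4 - 1 = e + 5 by omega,
      show e + 2 + 4 - 2 = e + 4 by omega,
      show e + 2 + 4 = e + 6 by omega,
      yyz e 4 6 (by norm_num),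
      yyz e 4 5 (by norm_num),
      yyv e 4 4 (by norm_num)]
    norm_num only
    rw [Nat.choose_zero_right]
    push_cast
    ring
  rw [n0, n2] at h2
  rw [n0, n3] at h3
  rw [n0, n4] at h4
  have hP : (0:ℝ) < 2 ^ e := by positivity
  have hpos : 0 < (4 * ((2 * (q:ℝ) + 8) * ((2 * (q:ℝ) + 8) - 1) / 2) + 2 * s * ((2 * (q:ℝ) + 8) * ((2 * (q:ℝ) + 8) - 1) * ((2 * (q:ℝ) + 8) - 2) / 6) + 1 * s * ((2 * (q:ℝ) + 8) * ((2 * (q:ℝ) + 8) - 1) * ((2 * (q:ℝ) + 8) - 2) * ((2 * (q:ℝ) + 8) - 3) / 24)) := by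
    have e1 : ((2 * (q:ℝ) + 8) - 1) = 2 * q + 7 := by ring
    have e2 : ((2 * (q:ℝ) + 8) - 2) = 2 * q + 6 := by ring
    have e3 : ((2 * (q:ℝ) + 8) - 3) = 2 * q + 5 := by ring
    rw [e1, e2, e3]
    positivity
  refine ⟨from_cross hP hpos hH h2 ?_ (by positivity),
    from_cross hP hpos hH h3 ?_ (by positivity),
    from_cross hP hpos hH h4 ?_ (by positivity)⟩
  · rw [← sub_nonneg]
    have e1 : (8 + 88 * s) * (4 * ((2 * (q:ℝ) + 8) * ((2 * (q:ℝ) + 8) - 1) / 2) + 2 * s * ((2 * (q:ℝ) + 8) * ((2 * (q:ℝ) + 8) - 1) * ((2 * (q:ℝ) + 8) - 2) / 6) + 1 * s * ((2 * (q:ℝ) + 8) * ((2 * (q:ℝ) + 8) - 1) * ((2 * (q:ℝ) + 8) - 2) * ((2 * (q:ℝ) + 8) - 3) / 24)) -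
        (16 * 1 + 8 * s * ((2 * (q:ℝ) + 8)) + 4 * s * ((2 * (q:ℝ) + 8) * ((2 * (q:ℝ) + 8) - 1) / 2)) * (56 + 91 * s) =
        480 * q + 64 * q ^ 2 + (7540 / 3) * q * s + (2444 / 3) * q ^ 2 * s + (272 / 3) * q ^ 3 * s + (16 / 3) * q ^ 4 * s + (28400 / 3) * q * s ^ 2 + (16252 / 3) * q ^ 2 * s ^ 2 + (2992 / 3) * q ^ 3 * s ^ 2 + (176 / 3) * q ^ 4 * s ^ 2 := by
      ring
    rw [e1]
    positivity
  · rw [← sub_nonneg]
    have e1 : (40 * s) * (4 * ((2 * (q:ℝ) + 8) * ((2 * (q:ℝ) + 8) - 1) / 2) + 2 * s * ((2 * (q:ℝ) + 8) * ((2 * (q:ℝ) + 8) - 1) * ((2 * (q:ℝ) + 8) - 2) / 6) + 1 * s * ((2 * (q:ℝ) + 8) * ((2 * (q:ℝ) + 8) - 1) * ((2 * (q:ℝ) + 8) - 2) * ((2 * (q:ℝ) + 8) - 3) / 24)) -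
        (16 * s * 1 + 8 * s * ((2 * (q:ℝ) + 8))) * (56 + 91 * s) =
        1504 * q * s + 320 * q ^ 2 * s + (17972 / 3) * q * s ^ 2 + (8380 / 3) * q ^ 2 * s ^ 2 + (1360 / 3) * q ^ 3 * s ^ 2 + (80 / 3) * q ^ 4 * s ^ 2 := by
      ring
    rw [e1]
    positivity
  · rw [← sub_nonneg]
    have e1 : (8 * s) * (4 * ((2 * (q:ℝ) + 8) * ((2 * (q:ℝ) + 8) - 1) / 2) + 2 * s * ((2 * (q:ℝ) + 8) * ((2 * (q:ℝ) + 8) - 1) * ((2 * (q:ℝ) + 8) - 2) / 6) + 1 * s * ((2 * (q:ℝ) + 8) * ((2 * (q:ℝ) + 8) - 1) * ((2 * (q:ℝ) + 8) - 2) * ((2 * (q:ℝ) + 8) - 3) / 24)) -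
        (16 * s * 1) * (56 + 91 * s) =
        480 * q * s + 64 * q ^ 2 * s + (4468 / 3) * q * s ^ 2 + (1676 / 3) * q ^ 2 * s ^ 2 + (272 / 3) * q ^ 3 * s ^ 2 + (16 / 3) * q ^ 4 * s ^ 2 := by
      ring
    rw [e1]
    positivity

theorem ends5 {N : ℕ} {L : Fin N → ℂ} (hL : ∀ a, ‖L a‖ ≤ 1) (hN : 6 ≤ N) {a0 : Fin N} {s : ℝ}
    (hs0 : 0 ≤ s) (hs : 2 * (1 - (L a0).re) ≤ s) :
    (30 + 42 * s) * hv L 3 1 ≤ (10 + 105 / 2 * s) * hv L 5 1 ∧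
      (30 + 42 * s) * hv L 2 1 ≤ (2 + 65 / 2 * s) * hv L 5 1 ∧
      (30 + 42 * s) * hv L 1 1 ≤ (12 * s) * hv L 5 1 ∧
      (30 + 42 * s) * hv L 0 1 ≤ (2 * s) * hv L 5 1 := by
  have hH := hv_one_nonneg hL 5
  have h2 := end_one_ge_two hL hs (k := 5) (by norm_num) (by omega) (l := 2) (by norm_num) (by norm_num)
  have h3 := end_one_ge_two hL hs (k := 5) (by norm_num) (by omega) (l := 3) (by norm_num) (by norm_num)
  have h4 := end_one_ge_two hL hs (k := 5) (by norm_num) (by omega) (l := 4) (by norm_num) (by norm_num)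
  have h5 := end_one_ge_two hL hs (k := 5) (by norm_num) (by omega) (l := 5) (by norm_num) (by norm_num)
  obtain ⟨q, rfl⟩ : ∃ q, N = q + 6 := ⟨N - 6, by omega⟩
  obtain ⟨e, he⟩ : ∃ e, e = 2 * q + 5 := ⟨_, rfl⟩
  rw [show 2 * (q + 6) - 2 = e + 5 by omega, show 2 * (q + 6) - 5 = e + 2 by omega] at h2 h3 h4 h5
  have hq : (0:ℝ) ≤ q := Nat.cast_nonneg q
  have hm : ((e + 5 : ℕ) : ℝ) = (2 * (q:ℝ) + 10) := by rw [he]; push_cast; ring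
  have n0 : nn (e + 5) (e + 2) 0 s = 2 ^ e *
      (4 * ((2 * (q:ℝ) + 10) * ((2 * (q:ℝ) + 10) - 1) * ((2 * (q:ℝ) + 10) - 2) / 6) + 2 * s * ((2 * (q:ℝ) + 10) * ((2 * (q:ℝ) + 10) - 1) * ((2 * (q:ℝ) + 10) - 2) * ((2 * (q:ℝ) + 10) - 3) / 24) + 1 * s * ((2 * (q:ℝ) + 10) * ((2 * (q:ℝ) + 10) - 1) * ((2 * (q:ℝ) + 10) - 2) * ((2 * (q:ℝ) + 10) - 3) * ((2 * (q:ℝ) + 10) - 4) / 120)) := by
    unfold nn
    rw [show e + 2 + 0 - 1 = e + 1 by omega,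
      show e + 2 + 0 - 2 = e + 0 by omega,
      show e + 2 + 0 = e + 2 by omega,
      yyv e 5 2 (by norm_num),
      yyv e 5 1 (by norm_num),
      yyv e 5 0 (by norm_num)]
    norm_num only
    rw [c3, c4, c5, hm]
    push_cast
    ring
  have n2 : nn (e + 5) (e + 2) 2 s = 2 ^ e *
      (16 * ((2 * (q:ℝ) + 10)) + 8 * s * ((2 * (q:ℝ) + 10) * ((2 * (q:ℝ) + 10) - 1) / 2) + 4 * s * ((2 * (q:ℝ) + 10) * ((2 * (q:ℝ) + 10) - 1) * ((2 * (q:ℝ) + 10) - 2) / 6)) := by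
    unfold nn
    rw [show e + 2 + 2 - 1 = e + 3 by omega,
      show e + 2 + 2 - 2 = e + 2 by omega,
      show e + 2 + 2 = e + 4 by omega,
      yyv e 5 4 (by norm_num),
      yyv e 5 3 (by norm_num),
      yyv e 5 2 (by norm_num)]
    norm_num only
    rw [c1, c2, c3, hm]
    push_cast
    ring
  have n3 : nn (e + 5) (e + 2) 3 s = 2 ^ e *
      (32 * 1 + 16 * s * ((2 * (q:ℝ) + 10)) + 8 * s * ((2 * (q:ℝ) + 10) * ((2 * (q:ℝ) + 10) - 1) / 2)) := by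
    unfold nn
    rw [show e + 2 + 3 - 1 = e + 4 by omega,
      show e + 2 + 3 - 2 = e + 3 by omega,
      show e + 2 + 3 = e + 5 by omega,
      yyv e 5 5 (by norm_num),
      yyv e 5 4 (by norm_num),
      yyv e 5 3 (by norm_num)]
    norm_num only
    rw [Nat.choose_zero_right, c1, c2, hm]
    push_cast
    ring
  have n4 : nn (e + 5) (e + 2) 4 s = 2 ^ e *
      (32 * s * 1 + 16 * s * ((2 * (q:ℝ) + 10))) := by
    unfold nn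
    rw [show e + 2 + 4 - 1 = e + 5 by omega,
      show e + 2 + 4 - 2 = e + 4 by omega,
      show e + 2 + 4 = e + 6 by omega,
      yyz e 5 6 (by norm_num),
      yyv e 5 5 (by norm_num),
      yyv e 5 4 (by norm_num)]
    norm_num only
    rw [Nat.choose_zero_right, c1, hm]
    push_cast
    ring
  have n5 : nn (e + 5) (e + 2) 5 s = 2 ^ e *
      (32 * s * 1) := by
    unfold nn
    rw [show e + 2 + 5 - 1 = e + 6 by omega,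
      show e + 2 + 5 - 2 = e + 5 by omega,
      show e + 2 + 5 = e + 7 by omega,
      yyz e 5 7 (by norm_num),
      yyz e 5 6 (by norm_num),
      yyv e 5 5 (by norm_num)]
    norm_num only
    rw [Nat.choose_zero_right]
    push_cast
    ring
  rw [n0, n2] at h2
  rw [n0, n3] at h3
  rw [n0, n4] at h4
  rw [n0, n5] at h5
  have hP : (0:ℝ) < 2 ^ e := by positivity
  have hpos : 0 < (4 * ((2 * (q:ℝ) + 10) * ((2 * (q:ℝ) + 10) - 1) * ((2 * (q:ℝ) + 10) - 2) / 6) + 2 * s * ((2 * (q:ℝ) + 10) * ((2 * (q:ℝ) + 10) - 1) * ((2 * (q:ℝ) + 10) - 2) * ((2 * (q:ℝ) + 10) - 3) / 24) + 1 * s * ((2 * (q:ℝ) + 10) * ((2 * (q:ℝ) + 10) - 1) * ((2 * (q:ℝ) + 10) - 2) * ((2 * (q:ℝ) + 10) - 3) * ((2 * (q:ℝ) + 10) - 4) / 120)) := by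
    have e1 : ((2 * (q:ℝ) + 10) - 1) = 2 * q + 9 := by ring
    have e2 : ((2 * (q:ℝ) + 10) - 2) = 2 * q + 8 := by ring
    have e3 : ((2 * (q:ℝ) + 10) - 3) = 2 * q + 7 := by ring
    have e4 : ((2 * (q:ℝ) + 10) - 4) = 2 * q + 6 := by ring
    rw [e1, e2, e3, e4]
    positivity
  refine ⟨from_cross hP hpos hH h2 ?_ (by positivity),
    from_cross hP hpos hH h3 ?_ (by positivity),
    from_cross hP hpos hH h4 ?_ (by positivity),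
    from_cross hP hpos hH h5 ?_ (by positivity)⟩
  · rw [← sub_nonneg]
    have e1 : (10 + 105 / 2 * s) * (4 * ((2 * (q:ℝ) + 10) * ((2 * (q:ℝ) + 10) - 1) * ((2 * (q:ℝ) + 10) - 2) / 6) + 2 * s * ((2 * (q:ℝ) + 10) * ((2 * (q:ℝ) + 10) - 1) * ((2 * (q:ℝ) + 10) - 2) * ((2 * (q:ℝ) + 10) - 3) / 24) + 1 * s * ((2 * (q:ℝ) + 10) * ((2 * (q:ℝ) + 10) - 1) * ((2 * (q:ℝ) + 10) - 2) * ((2 * (q:ℝ) + 10) - 3) * ((2 * (q:ℝ) + 10) - 4) / 120)) -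
        (16 * ((2 * (q:ℝ) + 10)) + 8 * s * ((2 * (q:ℝ) + 10) * ((2 * (q:ℝ) + 10) - 1) / 2) + 4 * s * ((2 * (q:ℝ) + 10) * ((2 * (q:ℝ) + 10) - 1) * ((2 * (q:ℝ) + 10) - 2) / 6)) * (30 + 42 * s) =
        (6800 / 3) * q + 720 * q ^ 2 + (160 / 3) * q ^ 3 + (25900 / 3) * q * s + (12730 / 3) * q ^ 2 * s + 770 * q ^ 3 * s + (200 / 3) * q ^ 4 * s + (8 / 3) * q ^ 5 * s + 18270 * q * s ^ 2 + (25193 / 2) * q ^ 2 * s ^ 2 + (6377 / 2) * q ^ 3 * s ^ 2 + 350 * q ^ 4 * s ^ 2 + 14 * q ^ 5 * s ^ 2 := by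
      ring
    rw [e1]
    positivity
  · rw [← sub_nonneg]
    have e1 : (2 + 65 / 2 * s) * (4 * ((2 * (q:ℝ) + 10) * ((2 * (q:ℝ) + 10) - 1) * ((2 * (q:ℝ) + 10) - 2) / 6) + 2 * s * ((2 * (q:ℝ) + 10) * ((2 * (q:ℝ) + 10) - 1) * ((2 * (q:ℝ) + 10) - 2) * ((2 * (q:ℝ) + 10) - 3) / 24) + 1 * s * ((2 * (q:ℝ) + 10) * ((2 * (q:ℝ) + 10) - 1) * ((2 * (q:ℝ) + 10) - 2) * ((2 * (q:ℝ) + 10) - 3) * ((2 * (q:ℝ) + 10) - 4) / 120)) -
        (32 * 1 + 16 * s * ((2 * (q:ℝ) + 10)) + 8 * s * ((2 * (q:ℝ) + 10) * ((2 * (q:ℝ) + 10) - 1) / 2)) * (30 + 42 * s) =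
        (1936 / 3) * q + 144 * q ^ 2 + (32 / 3) * q ^ 3 + (96332 / 15) * q * s + (7442 / 3) * q ^ 2 * s + (910 / 3) * q ^ 3 * s + (40 / 3) * q ^ 4 * s + (8 / 15) * q ^ 5 * s + (47770 / 3) * q * s ^ 2 + (56483 / 6) * q ^ 2 * s ^ 2 + (4225 / 2) * q ^ 3 * s ^ 2 + (650 / 3) * q ^ 4 * s ^ 2 + (26 / 3) * q ^ 5 * s ^ 2 := by
      ring
    rw [e1]
    positivity
  · rw [← sub_nonneg]
    have e1 : (12 * s) * (4 * ((2 * (q:ℝ) + 10) * ((2 * (q:ℝ) + 10) - 1) * ((2 * (q:ℝ) + 10) - 2) / 6) + 2 * s * ((2 * (q:ℝ) + 10) * ((2 * (q:ℝ) + 10) - 1) * ((2 * (q:ℝ) + 10) - 2) * ((2 * (q:ℝ) + 10) - 3) / 24) + 1 * s * ((2 * (q:ℝ) + 10) * ((2 * (q:ℝ) + 10) - 1) * ((2 * (q:ℝ) + 10) - 2) * ((2 * (q:ℝ) + 10) - 3) * ((2 * (q:ℝ) + 10) - 4) / 120)) -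
        (32 * s * 1 + 16 * s * ((2 * (q:ℝ) + 10))) * (30 + 42 * s) =
        2912 * q * s + 864 * q ^ 2 * s + 64 * q ^ 3 * s + (36944 / 5) * q * s ^ 2 + 3724 * q ^ 2 * s ^ 2 + 780 * q ^ 3 * s ^ 2 + 80 * q ^ 4 * s ^ 2 + (16 / 5) * q ^ 5 * s ^ 2 := by
      ring
    rw [e1]
    positivity
  · rw [← sub_nonneg]
    have e1 : (2 * s) * (4 * ((2 * (q:ℝ) + 10) * ((2 * (q:ℝ) + 10) - 1) * ((2 * (q:ℝ) + 10) - 2) / 6) + 2 * s * ((2 * (q:ℝ) + 10) * ((2 * (q:ℝ) + 10) - 1) * ((2 * (q:ℝ) + 10) - 2) * ((2 * (q:ℝ) + 10) - 3) / 24) + 1 * s * ((2 * (q:ℝ) + 10) * ((2 * (q:ℝ) + 10) - 1) * ((2 * (q:ℝ) + 10) - 2) * ((2 * (q:ℝ) + 10) - 3) * ((2 * (q:ℝ) + 10) - 4) / 120)) -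
        (32 * s * 1) * (30 + 42 * s) =
        (1936 / 3) * q * s + 144 * q ^ 2 * s + (32 / 3) * q ^ 3 * s + (21832 / 15) * q * s ^ 2 + (1862 / 3) * q ^ 2 * s ^ 2 + 130 * q ^ 3 * s ^ 2 + (40 / 3) * q ^ 4 * s ^ 2 + (8 / 15) * q ^ 5 * s ^ 2 := by
      ring
    rw [e1]
    positivity

section negend

variable {N : ℕ} {L : Fin N → ℂ}

theorem neg_zero {k N0 : ℕ} (hL : ∀ a, ‖L a‖ ≤ 1) (hN : N0 ≤ N) (hk : k ≤ 2 * N0) {M : ℝ}
    (hM : IsM L k M) : ((2 * N0).choose k : ℝ) * |hv L 0 (-1)| ≤ 2 ^ k * M := by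
  have h := hv_end hL (i := 0) (k := k) (Nat.zero_le _) (by omega) (t := -1) (by norm_num)
  have h1 : ((2 * N0).choose k : ℝ) ≤ ((2 * N).choose k : ℝ) := by
    exact_mod_cast Nat.choose_le_choose k (by omega)
  have h2 := mul_le_mul_of_nonneg_right h1 (abs_nonneg (hv L 0 (-1)))
  have h3 : |hv L k (-1)| ≤ M := hM (-1) ⟨le_rfl, by norm_num⟩
  have h4 := mul_le_mul_of_nonneg_left h3 (by positivity : (0:ℝ) ≤ 2 ^ k)
  rw [Nat.sub_zero, Nat.choose_zero_right] at h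
  push_cast at h
  linarith

theorem neg_one' {k N0 : ℕ} (hL : ∀ a, ‖L a‖ ≤ 1) (hN : N0 ≤ N) (hN0 : 1 ≤ N0)
    (hk : k + 1 ≤ 2 * N0) {M : ℝ} (hM : IsM L (k + 1) M) :
    ((2 * N0 - 1).choose k : ℝ) * |hv L 1 (-1)| ≤ (k + 1) * 2 ^ k * M := by
  have h := hv_end hL (i := 1) (k := k + 1) (by omega) (by omega) (t := -1) (by norm_num)
  have h1 : ((2 * N0 - 1).choose k : ℝ) ≤ ((2 * N - 1).choose k : ℝ) := by
    exact_mod_cast Nat.choose_le_choose k (by omega)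
  have h2 := mul_le_mul_of_nonneg_right h1 (abs_nonneg (hv L 1 (-1)))
  have h3 : |hv L (k + 1) (-1)| ≤ M := hM (-1) ⟨le_rfl, by norm_num⟩
  have h4 := mul_le_mul_of_nonneg_left h3 (by positivity : (0:ℝ) ≤ ((k:ℝ) + 1) * 2 ^ k)
  have h5 := Nat.add_one_mul_choose_eq (2 * N - 1) k
  rw [show 2 * N - 1 + 1 = 2 * N by omega] at h5
  have h6 : (2 * (N:ℝ)) * ((2 * N - 1).choose k : ℝ) = ((2 * N).choose (k + 1) : ℝ) * (k + 1) := by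
    exact_mod_cast h5
  rw [Nat.add_sub_cancel, Nat.choose_one_right] at h
  push_cast at h
  have hNr : (0:ℝ) < 2 * N := by
    have : 1 ≤ N := by omega
    have : (1:ℝ) ≤ N := by exact_mod_cast this
    linarith
  have h7 : (2 * (N:ℝ)) * (((2 * N - 1).choose k : ℝ) * |hv L 1 (-1)|) ≤
      (2 * (N:ℝ)) * ((k + 1) * 2 ^ k * |hv L (k + 1) (-1)|) := by
    rw [← mul_assoc, h6]
    have := mul_le_mul_of_nonneg_left h (by positivity : (0:ℝ) ≤ (k:ℝ) + 1)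
    linarith
  have h8 := le_of_mul_le_mul_left h7 hNr
  linarith

end negend

end Pool.Agent.HSmall
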