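import Pool.Agent.HStar.Chain
import Pool.Agent.HFin.Mom
import Pool.Agent.HFin.Ends

/-!
# Wrappers of the `L`-free chain for the orders 3, 4, 5
-/

set_option autoImplicit false

namespace Pool.Agent.HSmall

open Polynomial Set Complex Pool.Agent.HHalf Pool.Agent.HStar Pool.Agent.HFin

theorem abs_comb {v E m e M : ℝ} (h : |v - E| ≤ m * M) (h1 : E ≤ e * M) (h2 : -E ≤ e * M) :
    |v| ≤ (m + e) * M := by
  obtain ⟨a, b⟩ := abs_le.1 h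
  refine abs_le.2 ⟨?_, ?_⟩ <;> linarith

theorem abs_comb0 {v E m e M : ℝ} (h : |v - E| ≤ m * M) (hv : 0 ≤ v) (h1 : E ≤ e * M) :
    |v| ≤ (m + e) * M := by
  obtain ⟨a, b⟩ := abs_le.1 h
  rw [abs_of_nonneg hv]
  linarith

theorem ub {D e E M : ℝ} (hD : 0 < D) (h : 0 ≤ D * (e * M - E)) : E ≤ e * M := by
  have := nonneg_of_mul_nonneg_right h hD
  linarith

theorem hv_zero_nonneg {N : ℕ} (L : Fin N → ℂ) (x : ℝ) : 0 ≤ hv L 0 x := by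
  unfold hv
  rw [hasseDeriv_zero', omR, eval_prod]
  refine Finset.prod_nonneg fun a _ => ?_
  simp only [eval_add, eval_pow, eval_sub, eval_X, eval_C]
  positivity

/-- The general form: the bound `E` is uniform in the number of pairs. -/
theorem pw_gen {N k : ℕ} (hN : 1 ≤ N) (hk : 1 ≤ k) {L : Fin N → ℂ} (hL : ∀ a, ‖L a‖ ≤ 1)
    {x : ℝ} (hx0 : 0 ≤ x) (hx1 : x < 1) {tp tm u0 : ℝ} (htp : tp ≤ ∑ a, (1 - (L a).re))
    (htm : tm ≤ ∑ a, (1 + (L a).re)) (hu : 1 ≤ u0 * (2 * (N:ℝ))) (hq2 : 2 ≤ 2 * tp - 2 * x)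
    (hp2 : 2 ≤ 2 * tm + 2 * x) {b lam : ℕ → ℝ}
    (hb : ∀ M, IsM L k M → ∀ j, 1 ≤ j → j ≤ k → |hv L (k - j) x| ≤ b j * M)
    (hb0 : ∀ j, 0 ≤ b j) (hlam : ∀ j, 0 ≤ lam j) (hlam1 : lam 1 = 0)
    (h1 : 2 * (b 1 + 2 * lam 2) ≤ 2 * (2 * tp - 2 * x) - 2 - 2 * x -
      u0 * ((2 * tp - 2 * x) ^ 2 - 2 * (2 * tp - 2 * x)) - u0 ^ 2 * (2 * tp - 2 * x) ^ 2 / 2)
    (h2 : 2 * (b 1 + 2 * lam 2) ≤ 2 * (2 * tm + 2 * x) - 2 * x - u0 * (2 * tm + 2 * x) ^ 2 -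
      u0 ^ 2 * (2 * tm + 2 * x) ^ 2 / 2)
    (h3 : 2 * (b 1 + 2 * lam 2) ≤ 2 * (2 * tp - 2 * x) + 2 * x - u0 * (2 * tp - 2 * x) ^ 2 -
      u0 ^ 2 * (2 * tp - 2 * x) ^ 2 / 2)
    (h4 : 2 * (b 1 + 2 * lam 2) ≤ 2 * (2 * tm + 2 * x) - 2 + 2 * x -
      u0 * ((2 * tm + 2 * x) ^ 2 - 2 * (2 * tm + 2 * x)) - u0 ^ 2 * (2 * tm + 2 * x) ^ 2 / 2)
    (hbp : ∀ j : ℕ, 2 ≤ j → j ≤ k → b j + (j + 1) * lam (j + 1) ≤
      lam j * (2 * tp - 1 - (2 * j + 1) * x) + j * (1 - x ^ 2) * lam (j - 1))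
    (hbm : ∀ j : ℕ, 2 ≤ j → j ≤ k → b j + (j + 1) * lam (j + 1) ≤
      lam j * (2 * tm - 1 + (j + 1) * x) + j * (1 - x ^ 2) * lam (j - 1)) : PW L k x := by
  have hNr : (0:ℝ) < N := by exact_mod_cast hN
  have hsum : ∑ a, (1 - (L a).re) + ∑ a, (1 + (L a).re) = 2 * N := by
    rw [← Finset.sum_add_distrib]
    have : ∀ a ∈ (Finset.univ : Finset (Fin N)), (1 - (L a).re) + (1 + (L a).re) = 2 := by
      intro a _
      ring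
    rw [Finset.sum_congr rfl this]
    simp
    ring
  have htt : tp + tm ≤ 2 * N := by linarith
  have h2N : (0:ℝ) < 2 * N := by linarith
  refine pw_lam hN hk hL hx0 hx1 htp htm (E := b 1 + 2 * lam 2) hb hb0 hlam hlam1 ?_ ?_ le_rfl
    hbp fun j hj hjk => (hbm j hj hjk).trans ?_
  · unfold FE
    refine E_low (S := 2 * tm - 2 * N) (q0 := 2 * tp - 2 * x) (p0 := 2 * tm + 2 * x) h2N hu ?_ ?_ ?_
      hq2 hp2 h1 h2 h3 h4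
    · field_simp
      ring
    · linarith
    · linarith
  · unfold FE
    refine E_low (S := 2 * N - 2 * tp) (q0 := 2 * tp - 2 * x) (p0 := 2 * tm + 2 * x) h2N hu ?_ ?_ ?_
      hq2 hp2 h1 h2 h3 h4
    · field_simp
      ring
    · linarith
    · linarith
  · have := mul_le_mul_of_nonneg_left (Dm_ge tm hx0 hx1.le j) (hlam j)
    linarith

theorem pw3 {N : ℕ} (hN : 4 ≤ N) {L : Fin N → ℂ} (hL : ∀ a, ‖L a‖ ≤ 1) {x : ℝ} (hx0 : 0 ≤ x)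
    (hx1 : x < 1) (htp : 71 / 20 ≤ ∑ a, (1 - (L a).re)) (htm : 3 ≤ ∑ a, (1 + (L a).re))
    {b1 b2 b3 l2 : ℝ} (p1 : 0 ≤ b1) (p2 : 0 ≤ b2) (p3 : 0 ≤ b3) (q2 : 0 ≤ l2)
    (hb : ∀ M, IsM L 3 M → |hv L 2 x| ≤ b1 * M ∧ |hv L 1 x| ≤ b2 * M ∧ |hv L 0 x| ≤ b3 * M)
    (h1 : 2 * (b1 + 2 * l2) ≤ 2 * (71 / 10 - 2 * x) - 2 - 2 * x -
      1 / 8 * ((71 / 10 - 2 * x) ^ 2 - 2 * (71 / 10 - 2 * x)) - 1 / 64 * (71 / 10 - 2 * x) ^ 2 / 2)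
    (h2 : 2 * (b1 + 2 * l2) ≤ 2 * (6 + 2 * x) - 2 * x - 1 / 8 * (6 + 2 * x) ^ 2 -
      1 / 64 * (6 + 2 * x) ^ 2 / 2)
    (h3 : 2 * (b1 + 2 * l2) ≤ 2 * (71 / 10 - 2 * x) + 2 * x - 1 / 8 * (71 / 10 - 2 * x) ^ 2 -
      1 / 64 * (71 / 10 - 2 * x) ^ 2 / 2)
    (h4 : 2 * (b1 + 2 * l2) ≤ 2 * (6 + 2 * x) - 2 + 2 * x -
      1 / 8 * ((6 + 2 * x) ^ 2 - 2 * (6 + 2 * x)) - 1 / 64 * (6 + 2 * x) ^ 2 / 2)
    (c2p : b2 ≤ l2 * (61 / 10 - 5 * x))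
    (c2m : b2 ≤ l2 * (5 + 3 * x))
    (c3 : b3 ≤ 3 * (1 - x ^ 2) * l2) : PW L 3 x := by
  have hNr : (4:ℝ) ≤ N := by exact_mod_cast hN
  refine pw_gen (by omega) (by norm_num) hL hx0 hx1 (u0 := 1 / 8)
    (b := fun j => if j = 1 then b1 else if j = 2 then b2 else if j = 3 then b3 else 0)
    (lam := fun j => if j = 2 then l2 else 0) htp htm (by linarith) (by linarith)
    (by linarith) ?_ ?_ ?_ ?_ ?_ ?_ ?_ ?_ ?_ ?_
  · intro M hM j hj hj3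
    obtain ⟨a1, a2, a3⟩ := hb M hM
    interval_cases j
    · simpa using a1
    · simpa using a2
    · simpa using a3
  · intro j
    split_ifs <;> first | assumption | exact le_rfl
  · intro j
    split_ifs <;> first | assumption | exact le_rfl
  · norm_num
  · norm_num at h1 ⊢
    linarith
  · norm_num at h2 ⊢
    linarith
  · norm_num at h3 ⊢
    linarith
  · norm_num at h4 ⊢
    linarith
  · intro j hj hj3
    interval_cases j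
    · norm_num at c2p ⊢
      linarith
    · norm_num at c3 ⊢
      linarith
  · intro j hj hj3
    interval_cases j
    · norm_num at c2m ⊢
      linarith
    · norm_num at c3 ⊢
      linarith

theorem pw4 {N : ℕ} (hN : 5 ≤ N) {L : Fin N → ℂ} (hL : ∀ a, ‖L a‖ ≤ 1) {x : ℝ} (hx0 : 0 ≤ x)
    (hx1 : x < 1) (htp : 89 / 20 ≤ ∑ a, (1 - (L a).re)) (htm : 3 ≤ ∑ a, (1 + (L a).re))
    {b1 b2 b3 b4 l2 l3 : ℝ} (p1 : 0 ≤ b1) (p2 : 0 ≤ b2) (p3 : 0 ≤ b3) (p4 : 0 ≤ b4) (q2 : 0 ≤ l2) (q3 : 0 ≤ l3)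
    (hb : ∀ M, IsM L 4 M → |hv L 3 x| ≤ b1 * M ∧ |hv L 2 x| ≤ b2 * M ∧ |hv L 1 x| ≤ b3 * M ∧ |hv L 0 x| ≤ b4 * M)
    (h1 : 2 * (b1 + 2 * l2) ≤ 2 * (89 / 10 - 2 * x) - 2 - 2 * x -
      1 / 10 * ((89 / 10 - 2 * x) ^ 2 - 2 * (89 / 10 - 2 * x)) - 1 / 100 * (89 / 10 - 2 * x) ^ 2 / 2)
    (h2 : 2 * (b1 + 2 * l2) ≤ 2 * (6 + 2 * x) - 2 * x - 1 / 10 * (6 + 2 * x) ^ 2 -
      1 / 100 * (6 + 2 * x) ^ 2 / 2)
    (h3 : 2 * (b1 + 2 * l2) ≤ 2 * (89 / 10 - 2 * x) + 2 * x - 1 / 10 * (89 / 10 - 2 * x) ^ 2 -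
      1 / 100 * (89 / 10 - 2 * x) ^ 2 / 2)
    (h4 : 2 * (b1 + 2 * l2) ≤ 2 * (6 + 2 * x) - 2 + 2 * x -
      1 / 10 * ((6 + 2 * x) ^ 2 - 2 * (6 + 2 * x)) - 1 / 100 * (6 + 2 * x) ^ 2 / 2)
    (c2p : b2 + 3 * l3 ≤ l2 * (79 / 10 - 5 * x))
    (c2m : b2 + 3 * l3 ≤ l2 * (5 + 3 * x))
    (c3p : b3 ≤ l3 * (79 / 10 - 7 * x) + 3 * (1 - x ^ 2) * l2)
    (c3m : b3 ≤ l3 * (5 + 4 * x) + 3 * (1 - x ^ 2) * l2)
    (c4 : b4 ≤ 4 * (1 - x ^ 2) * l3) : PW L 4 x := by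
  have hNr : (5:ℝ) ≤ N := by exact_mod_cast hN
  refine pw_gen (by omega) (by norm_num) hL hx0 hx1 (u0 := 1 / 10)
    (b := fun j => if j = 1 then b1 else if j = 2 then b2 else if j = 3 then b3 else if j = 4 then b4 else 0)
    (lam := fun j => if j = 2 then l2 else if j = 3 then l3 else 0) htp htm (by linarith) (by linarith)
    (by linarith) ?_ ?_ ?_ ?_ ?_ ?_ ?_ ?_ ?_ ?_
  · intro M hM j hj hj3
    obtain ⟨a1, a2, a3, a4⟩ := hb M hM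
    interval_cases j
    · simpa using a1
    · simpa using a2
    · simpa using a3
    · simpa using a4
  · intro j
    split_ifs <;> first | assumption | exact le_rfl
  · intro j
    split_ifs <;> first | assumption | exact le_rfl
  · norm_num
  · norm_num at h1 ⊢
    linarith
  · norm_num at h2 ⊢
    linarith
  · norm_num at h3 ⊢
    linarith
  · norm_num at h4 ⊢
    linarith
  · intro j hj hj3
    interval_cases j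
    · norm_num at c2p ⊢
      linarith
    · norm_num at c3p ⊢
      linarith
    · norm_num at c4 ⊢
      linarith
  · intro j hj hj3
    interval_cases j
    · norm_num at c2m ⊢
      linarith
    · norm_num at c3m ⊢
      linarith
    · norm_num at c4 ⊢
      linarith

theorem pw5 {N : ℕ} (hN : 6 ≤ N) {L : Fin N → ℂ} (hL : ∀ a, ‖L a‖ ≤ 1) {x : ℝ} (hx0 : 0 ≤ x)
    (hx1 : x < 1) (htp : 21 / 4 ≤ ∑ a, (1 - (L a).re)) (htm : 3 ≤ ∑ a, (1 + (L a).re))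
    {b1 b2 b3 b4 b5 l2 l3 l4 : ℝ} (p1 : 0 ≤ b1) (p2 : 0 ≤ b2) (p3 : 0 ≤ b3) (p4 : 0 ≤ b4) (p5 : 0 ≤ b5) (q2 : 0 ≤ l2) (q3 : 0 ≤ l3) (q4 : 0 ≤ l4)
    (hb : ∀ M, IsM L 5 M → |hv L 4 x| ≤ b1 * M ∧ |hv L 3 x| ≤ b2 * M ∧ |hv L 2 x| ≤ b3 * M ∧ |hv L 1 x| ≤ b4 * M ∧ |hv L 0 x| ≤ b5 * M)
    (h1 : 2 * (b1 + 2 * l2) ≤ 2 * (21 / 2 - 2 * x) - 2 - 2 * x -
      1 / 12 * ((21 / 2 - 2 * x) ^ 2 - 2 * (21 / 2 - 2 * x)) - 1 / 144 * (21 / 2 - 2 * x) ^ 2 / 2)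
    (h2 : 2 * (b1 + 2 * l2) ≤ 2 * (6 + 2 * x) - 2 * x - 1 / 12 * (6 + 2 * x) ^ 2 -
      1 / 144 * (6 + 2 * x) ^ 2 / 2)
    (h3 : 2 * (b1 + 2 * l2) ≤ 2 * (21 / 2 - 2 * x) + 2 * x - 1 / 12 * (21 / 2 - 2 * x) ^ 2 -
      1 / 144 * (21 / 2 - 2 * x) ^ 2 / 2)
    (h4 : 2 * (b1 + 2 * l2) ≤ 2 * (6 + 2 * x) - 2 + 2 * x -
      1 / 12 * ((6 + 2 * x) ^ 2 - 2 * (6 + 2 * x)) - 1 / 144 * (6 + 2 * x) ^ 2 / 2)
    (c2p : b2 + 3 * l3 ≤ l2 * (19 / 2 - 5 * x))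
    (c2m : b2 + 3 * l3 ≤ l2 * (5 + 3 * x))
    (c3p : b3 + 4 * l4 ≤ l3 * (19 / 2 - 7 * x) + 3 * (1 - x ^ 2) * l2)
    (c3m : b3 + 4 * l4 ≤ l3 * (5 + 4 * x) + 3 * (1 - x ^ 2) * l2)
    (c4p : b4 ≤ l4 * (19 / 2 - 9 * x) + 4 * (1 - x ^ 2) * l3)
    (c4m : b4 ≤ l4 * (5 + 5 * x) + 4 * (1 - x ^ 2) * l3)
    (c5 : b5 ≤ 5 * (1 - x ^ 2) * l4) : PW L 5 x := by
  have hNr : (6:ℝ) ≤ N := by exact_mod_cast hN
  refine pw_gen (by omega) (by norm_num) hL hx0 hx1 (u0 := 1 / 12)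
    (b := fun j => if j = 1 then b1 else if j = 2 then b2 else if j = 3 then b3 else if j = 4 then b4 else if j = 5 then b5 else 0)
    (lam := fun j => if j = 2 then l2 else if j = 3 then l3 else if j = 4 then l4 else 0) htp htm (by linarith) (by linarith)
    (by linarith) ?_ ?_ ?_ ?_ ?_ ?_ ?_ ?_ ?_ ?_
  · intro M hM j hj hj3
    obtain ⟨a1, a2, a3, a4, a5⟩ := hb M hM
    interval_cases j
    · simpa using a1
    · simpa using a2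
    · simpa using a3
    · simpa using a4
    · simpa using a5
  · intro j
    split_ifs <;> first | assumption | exact le_rfl
  · intro j
    split_ifs <;> first | assumption | exact le_rfl
  · norm_num
  · norm_num at h1 ⊢
    linarith
  · norm_num at h2 ⊢
    linarith
  · norm_num at h3 ⊢
    linarith
  · norm_num at h4 ⊢
    linarith
  · intro j hj hj3
    interval_cases j
    · norm_num at c2p ⊢
      linarith
    · norm_num at c3p ⊢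
      linarith
    · norm_num at c4p ⊢
      linarith
    · norm_num at c5 ⊢
      linarith
  · intro j hj hj3
    interval_cases j
    · norm_num at c2m ⊢
      linarith
    · norm_num at c3m ⊢
      linarith
    · norm_num at c4m ⊢
      linarith
    · norm_num at c5 ⊢
      linarith

end Pool.Agent.HSmall
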