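import Pool.Agent.HSmall.K3T
import Pool.Agent.HSmall.EndS
import Pool.Agent.HSmall.Wrap

/-!
# The pointwise inequality of order 3, `x ∈ [13/20, 1]`
-/

set_option autoImplicit false

namespace Pool.Agent.HSmall

open Polynomial Set Complex Pool.Agent.HHalf Pool.Agent.HStar Pool.Agent.HFin

theorem zone3B {N : ℕ} {L : Fin N → ℂ} (hL : ∀ a, ‖L a‖ ≤ 1) (hN : 4 ≤ N) {a0 : Fin N} {x : ℝ}
    (hx0 : 13 / 20 ≤ x) (hx1 : x < 1) (hR : (1 + x) / 2 ≤ (L a0).re)
    (htp : 71 / 20 ≤ ∑ a, (1 - (L a).re)) (htm : 3 ≤ ∑ a, (1 + (L a).re)) : PW L 3 x := by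
  have hu : 0 ≤ x - 13 / 20 := by linarith
  have hw : 0 ≤ 1 - x := by linarith
  have hx0' : 0 ≤ x := by linarith
  have hx1' : x < 1 := by linarith
  have hE := ends3 hL hN (s := 1 - x) (by linarith) (by linarith : 2 * (1 - (L a0).re) ≤ 1 - x)
  refine pw3 hN hL hx0' hx1' htp htm
    (b1 := (3 + (-3) * x) + ((13 / 20)))
    (b2 := (3 + (-6) * x + 3 * x ^ 2) + ((4 / 3) + (-4 / 3) * x))
    (b3 := (1 + (-3) * x + 3 * x ^ 2 + (-1) * x ^ 3) + ((59 / 60) + (-49 / 30) * x + (13 / 20) * x ^ 2))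
    (l2 := (2 / 5))
    (by
      have e2 : (0:ℝ) ≤ (34 / 7) * (1 - x) + (13 / 7) * (x - 13 / 20) := by positivity
      exact e2.trans_eq (by ring))
    (by
      have e2 : (0:ℝ) ≤ (143 / 21) * (1 - x) ^ 2 + (80 / 21) * (x - 13 / 20) * (1 - x) := by positivity
      exact e2.trans_eq (by ring))
    (by
      have e2 : (0:ℝ) ≤ (820 / 147) * (1 - x) ^ 3 + (1073 / 147) * (x - 13 / 20) * (1 - x) ^ 2 + (400 / 147) * (x - 13 / 20) ^ 2 * (1 - x) := by positivity
      exact e2.trans_eq (by ring))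
    (by
      have e2 : (0:ℝ) ≤ (2 / 5) := by positivity
      exact e2.trans_eq (by ring))
    ?_ ?_ ?_ ?_ ?_ ?_ ?_ ?_
  · intro M hM
    have hM0 : 0 ≤ M := (abs_nonneg _).trans (hM 0 ⟨by norm_num, by norm_num⟩)
    have hk1 : hv L 3 1 ≤ M := (le_abs_self _).trans (hM 1 ⟨by norm_num, le_rfl⟩)
    have hD : (0:ℝ) < (12 + 25 * (1 - x)) := by linarith
    have P2 : (12 + 25 * (1 - x)) * hv L 1 1 ≤ (16 * (1 - x)) * M :=
      hE.1.trans (mul_le_mul_of_nonneg_left hk1 (by linarith))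
    have R2 : 0 ≤ hv L 1 1 := hv_one_nonneg hL 1
    have P3 : (12 + 25 * (1 - x)) * hv L 0 1 ≤ (4 * (1 - x)) * M :=
      hE.2.1.trans (mul_le_mul_of_nonneg_left hk1 (by linarith))
    have R3 : 0 ≤ hv L 0 1 := hv_one_nonneg hL 0
    have P1 : (12 + 25 * (1 - x)) * hv L 2 1 ≤ ((12 + 25 * (1 - x)) * (13 / 20)) * M := by
      have h5 := mul_le_mul_of_nonneg_left (hE.2.2 (by linarith)) hD.le
      have h6 := mul_le_mul_of_nonneg_left hk1 hD.le
      linarith
    have R1 : 0 ≤ hv L 2 1 := hv_one_nonneg hL 2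
    obtain ⟨k1, k2, k3⟩ := ker33 (h := hv L) (hseq_hv L) hM hx0' hx1.le
    refine ⟨abs_comb k1 (ub hD ?_) (ub hD ?_),
      abs_comb k2 (ub hD ?_) (ub hD ?_),
      abs_comb0 k3 (hv_zero_nonneg L x) (ub hD ?_)⟩
    · have t0 : 0 ≤ (0) * M := mul_nonneg (by
        have e2 : (0:ℝ) ≤ 0 := by positivity
        exact e2.trans_eq (by ring)) hM0
      have t1 : 0 ≤ (1) * (((12 + 25 * (1 - x)) * (13 / 20)) * M - (12 + 25 * (1 - x)) * hv L 2 1) :=
        mul_nonneg (by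
          have e2 : (0:ℝ) ≤ 1 := by positivity
          exact e2.trans_eq (by ring)) (sub_nonneg.2 P1)
      refine (add_nonneg t0 t1).trans_eq ?_
      ring
    · have t0 : 0 ≤ ((481 / 20) + (-65 / 4) * x) * M := mul_nonneg (by
        have e2 : (0:ℝ) ≤ (1079 / 28) * (1 - x) + (156 / 7) * (x - 13 / 20) := by positivity
        exact e2.trans_eq (by ring)) hM0
      have t1 : 0 ≤ (1) * ((12 + 25 * (1 - x)) * hv L 2 1) :=
        mul_nonneg (by
          have e2 : (0:ℝ) ≤ 1 := by positivity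
          exact e2.trans_eq (by ring)) (mul_nonneg hD.le R1)
      refine (add_nonneg t0 t1).trans_eq ?_
      ring
    · have t0 : 0 ≤ ((100 / 3) + (-200 / 3) * x + (100 / 3) * x ^ 2) * M := mul_nonneg (by
        have e2 : (0:ℝ) ≤ (100 / 3) * (1 - x) ^ 2 := by positivity
        exact e2.trans_eq (by ring)) hM0
      have t1 : 0 ≤ (1) * ((16 * (1 - x)) * M - (12 + 25 * (1 - x)) * hv L 1 1) :=
        mul_nonneg (by
          have e2 : (0:ℝ) ≤ 1 := by positivity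
          exact e2.trans_eq (by ring)) (sub_nonneg.2 P2)
      have t2 : 0 ≤ (2 + (-2) * x) * ((12 + 25 * (1 - x)) * hv L 2 1) :=
        mul_nonneg (by
          have e2 : (0:ℝ) ≤ 2 * (1 - x) := by positivity
          exact e2.trans_eq (by ring)) (mul_nonneg hD.le R1)
      refine (add_nonneg (add_nonneg t0 t1) t2).trans_eq ?_
      ring
    · have t0 : 0 ≤ ((37 / 30) + (-31 / 15) * x + (5 / 6) * x ^ 2) * M := mul_nonneg (by
        have e2 : (0:ℝ) ≤ (83 / 42) * (1 - x) ^ 2 + (8 / 7) * (x - 13 / 20) * (1 - x) := by positivity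
        exact e2.trans_eq (by ring)) hM0
      have t1 : 0 ≤ (1) * ((12 + 25 * (1 - x)) * hv L 1 1) :=
        mul_nonneg (by
          have e2 : (0:ℝ) ≤ 1 := by positivity
          exact e2.trans_eq (by ring)) (mul_nonneg hD.le R2)
      have t2 : 0 ≤ (2 + (-2) * x) * (((12 + 25 * (1 - x)) * (13 / 20)) * M - (12 + 25 * (1 - x)) * hv L 2 1) :=
        mul_nonneg (by
          have e2 : (0:ℝ) ≤ 2 * (1 - x) := by positivity
          exact e2.trans_eq (by ring)) (sub_nonneg.2 P1)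
      refine (add_nonneg (add_nonneg t0 t1) t2).trans_eq ?_
      ring
    · have t0 : 0 ≤ ((25 / 3) + (-50 / 3) * x + (25 / 3) * x ^ 2) * M := mul_nonneg (by
        have e2 : (0:ℝ) ≤ (25 / 3) * (1 - x) ^ 2 := by positivity
        exact e2.trans_eq (by ring)) hM0
      have t1 : 0 ≤ (1) * ((4 * (1 - x)) * M - (12 + 25 * (1 - x)) * hv L 0 1) :=
        mul_nonneg (by
          have e2 : (0:ℝ) ≤ 1 := by positivity
          exact e2.trans_eq (by ring)) (sub_nonneg.2 P3)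
      have t2 : 0 ≤ (1 + (-1) * x) * ((12 + 25 * (1 - x)) * hv L 1 1) :=
        mul_nonneg (by
          have e2 : (0:ℝ) ≤ 1 * (1 - x) := by positivity
          exact e2.trans_eq (by ring)) (mul_nonneg hD.le R2)
      have t3 : 0 ≤ (1 + (-2) * x + 1 * x ^ 2) * (((12 + 25 * (1 - x)) * (13 / 20)) * M - (12 + 25 * (1 - x)) * hv L 2 1) :=
        mul_nonneg (by
          have e2 : (0:ℝ) ≤ 1 * (1 - x) ^ 2 := by positivity
          exact e2.trans_eq (by ring)) (sub_nonneg.2 P1)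
      refine (add_nonneg (add_nonneg (add_nonneg t0 t1) t2) t3).trans_eq ?_
      ring
  · have e2 : (0:ℝ) ≤ (129 / 56) * (1 - x) ^ 2 + (671 / 56) * (x - 13 / 20) * (1 - x) + (2049 / 224) * (x - 13 / 20) ^ 2 := by positivity
    exact sub_nonneg.1 (e2.trans_eq (by ring))
  · have e2 : (0:ℝ) ≤ (15647 / 1568) * (1 - x) ^ 2 + (1555 / 49) * (x - 13 / 20) * (1 - x) + (1040 / 49) * (x - 13 / 20) ^ 2 := by positivity
    exact sub_nonneg.1 (e2.trans_eq (by ring))
  · have e2 : (0:ℝ) ≤ (1569 / 56) * (1 - x) ^ 2 + (4271 / 56) * (x - 13 / 20) * (1 - x) + (1527 / 32) * (x - 13 / 20) ^ 2 := by positivity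
    exact sub_nonneg.1 (e2.trans_eq (by ring))
  · have e2 : (0:ℝ) ≤ (46687 / 1568) * (1 - x) ^ 2 + (4125 / 49) * (x - 13 / 20) * (1 - x) + (2640 / 49) * (x - 13 / 20) ^ 2 := by positivity
    exact sub_nonneg.1 (e2.trans_eq (by ring))
  · have e2 : (0:ℝ) ≤ (367 / 147) * (1 - x) ^ 2 + (1336 / 147) * (x - 13 / 20) * (1 - x) + (176 / 49) * (x - 13 / 20) ^ 2 := by positivity
    exact sub_nonneg.1 (e2.trans_eq (by ring))
  · have e2 : (0:ℝ) ≤ (2335 / 147) * (1 - x) ^ 2 + (6616 / 147) * (x - 13 / 20) * (1 - x) + (1280 / 49) * (x - 13 / 20) ^ 2 := by positivity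
    exact sub_nonneg.1 (e2.trans_eq (by ring))
  · have e2 : (0:ℝ) ≤ (1556 / 147) * (1 - x) ^ 3 + (4183 / 147) * (x - 13 / 20) * (1 - x) ^ 2 + (2480 / 147) * (x - 13 / 20) ^ 2 * (1 - x) := by positivity
    exact sub_nonneg.1 (e2.trans_eq (by ring))

end Pool.Agent.HSmall
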