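import Pool.Agent.HSmall.K4
import Pool.Agent.HSmall.EndS
import Pool.Agent.HSmall.Wrap

/-!
# The pointwise inequality of order 4, `x ∈ [0, 1/3]`
-/

set_option autoImplicit false

namespace Pool.Agent.HSmall

open Polynomial Set Complex Pool.Agent.HHalf Pool.Agent.HStar Pool.Agent.HFin

theorem zone4A {N : ℕ} {L : Fin N → ℂ} (hL : ∀ a, ‖L a‖ ≤ 1) (hN : 5 ≤ N) {a0 : Fin N} {x : ℝ}
    (hx0 : 0 ≤ x) (hx1 : x ≤ 1 / 3) (hR : (1 + x) / 2 ≤ (L a0).re)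
    (htp : 89 / 20 ≤ ∑ a, (1 - (L a).re)) (htm : 3 ≤ ∑ a, (1 + (L a).re)) : PW L 4 x := by
  have hw : 0 ≤ 1 / 3 - x := by linarith
  have hs : 0 ≤ 1 - x := by linarith
  have hx0' : 0 ≤ x := by linarith
  have hx1' : x < 1 := by linarith
  have hE := ends4 hL hN (s := 1 - x) (by linarith) (by linarith : 2 * (1 - (L a0).re) ≤ 1 - x)
  refine pw4 hN hL hx0' hx1' htp htm
    (b1 := ((3 / 2) + 3 * x ^ 2 + (-1 / 2) * x ^ 4) + ((1 / 5)))
    (b2 := (2 + (-6) * x ^ 2) + ((29 / 100)))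
    (b3 := (2 + 3 * x ^ 2 + (-8) * x ^ 4 + 3 * x ^ 6) + ((6 / 25)))
    (b4 := ((3 / 2) + (-7 / 2) * x ^ 2 + (5 / 2) * x ^ 4 + (-1 / 2) * x ^ 6) + ((11 / 100)))
    (l2 := (9 / 10))
    (l3 := (9 / 20))
    (by
      have e2 : (0:ℝ) ≤ (1377 / 10) * (1 / 3 - x) ^ 4 + (2754 / 5) * x * (1 / 3 - x) ^ 3 + (4266 / 5) * x ^ 2 * (1 / 3 - x) ^ 2 + (3024 / 5) * x ^ 3 * (1 / 3 - x) + (821 / 5) * x ^ 4 := by positivity
      exact e2.trans_eq (by ring))
    (by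
      have e2 : (0:ℝ) ≤ (2061 / 100) * (1 / 3 - x) ^ 2 + (2061 / 50) * x * (1 / 3 - x) + (1461 / 100) * x ^ 2 := by positivity
      exact e2.trans_eq (by ring))
    (by
      have e2 : (0:ℝ) ≤ (40824 / 25) * (1 / 3 - x) ^ 6 + (244944 / 25) * x * (1 / 3 - x) ^ 5 + (123687 / 5) * x ^ 2 * (1 / 3 - x) ^ 4 + (168156 / 5) * x ^ 3 * (1 / 3 - x) ^ 3 + (129402 / 5) * x ^ 4 * (1 / 3 - x) ^ 2 + (265644 / 25) * x ^ 5 * (1 / 3 - x) + (45174 / 25) * x ^ 6 := by positivity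
      exact e2.trans_eq (by ring))
    (by
      have e2 : (0:ℝ) ≤ (117369 / 100) * (1 / 3 - x) ^ 6 + (352107 / 50) * x * (1 / 3 - x) ^ 5 + (346437 / 20) * x ^ 2 * (1 / 3 - x) ^ 4 + (111699 / 5) * x ^ 3 * (1 / 3 - x) ^ 3 + (318537 / 20) * x ^ 4 * (1 / 3 - x) ^ 2 + (297657 / 50) * x ^ 5 * (1 / 3 - x) + (91219 / 100) * x ^ 6 := by positivity
      exact e2.trans_eq (by ring))
    (by
      have e2 : (0:ℝ) ≤ (9 / 10) := by positivity
      exact e2.trans_eq (by ring))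
    (by
      have e2 : (0:ℝ) ≤ (9 / 20) := by positivity
      exact e2.trans_eq (by ring))
    ?_ ?_ ?_ ?_ ?_ ?_ ?_ ?_ ?_ ?_
  · intro M hM
    have hM0 : 0 ≤ M := (abs_nonneg _).trans (hM 0 ⟨by norm_num, by norm_num⟩)
    have hk1 : hv L 4 1 ≤ M := (le_abs_self _).trans (hM 1 ⟨by norm_num, le_rfl⟩)
    have hD : (0:ℝ) < (56 + 91 * (1 - x)) := by linarith
    have P3 : (56 + 91 * (1 - x)) * hv L 1 1 ≤ (40 * (1 - x)) * M :=
      hE.2.1.trans (mul_le_mul_of_nonneg_left hk1 (by linarith))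
    have R3 : 0 ≤ hv L 1 1 := hv_one_nonneg hL 1
    have P4 : (56 + 91 * (1 - x)) * hv L 0 1 ≤ (8 * (1 - x)) * M :=
      hE.2.2.trans (mul_le_mul_of_nonneg_left hk1 (by linarith))
    have R4 : 0 ≤ hv L 0 1 := hv_one_nonneg hL 0
    have S3 : 0 ≤ -hv L 1 (-1) := by simpa using hv_neg_one_nonneg hL 1
    have T3 : -hv L 1 (-1) ≤ (8 / 21) * M := by
      have h5 := neg_one' (k := 3) (N0 := 5) hL hN (by norm_num) (by norm_num) hM
      rw [show Nat.choose (2 * 5 - 1) 3 = 84 by decide, abs_of_nonpos (by linarith)] at h5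
      norm_num at h5
      linarith
    have S4 : 0 ≤ hv L 0 (-1) := by simpa using hv_neg_one_nonneg hL 0
    have T4 : hv L 0 (-1) ≤ (8 / 105) * M := by
      have h5 := neg_zero (k := 4) (N0 := 5) hL hN (by norm_num) hM
      rw [show Nat.choose (2 * 5) 4 = 210 by decide, abs_of_nonneg S4] at h5
      norm_num at h5
      linarith
    obtain ⟨k1, k2, k3, k4⟩ := ker42 (h := hv L) (hseq_hv L) hM hx0 hx1
    refine ⟨abs_comb k1 (ub hD ?_) (ub hD ?_),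
      abs_comb k2 (ub hD ?_) (ub hD ?_),
      abs_comb k3 (ub hD ?_) (ub hD ?_),
      abs_comb0 k4 (hv_zero_nonneg L x) (ub hD ?_)⟩
    · have t0 : 0 ≤ ((83 / 5) + (-97 / 15) * x) * M := mul_nonneg (by
        have e2 : (0:ℝ) ≤ (249 / 5) * (1 / 3 - x) + (130 / 3) * x := by positivity
        exact e2.trans_eq (by ring)) hM0
      have t1 : 0 ≤ ((1 / 4)) * ((56 + 91 * (1 - x)) * hv L 0 1) :=
        mul_nonneg (by
          have e2 : (0:ℝ) ≤ (1 / 4) := by positivity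
          exact e2.trans_eq (by ring)) (mul_nonneg hD.le R4)
      have t2 : 0 ≤ ((1 / 4)) * ((40 * (1 - x)) * M - (56 + 91 * (1 - x)) * hv L 1 1) :=
        mul_nonneg (by
          have e2 : (0:ℝ) ≤ (1 / 4) := by positivity
          exact e2.trans_eq (by ring)) (sub_nonneg.2 P3)
      have t3 : 0 ≤ ((1 / 4)) * ((56 + 91 * (1 - x)) * ((8 / 105) * M - hv L 0 (-1))) :=
        mul_nonneg (by
          have e2 : (0:ℝ) ≤ (1 / 4) := by positivity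
          exact e2.trans_eq (by ring)) (mul_nonneg hD.le (sub_nonneg.2 T4))
      have t4 : 0 ≤ ((1 / 4)) * ((56 + 91 * (1 - x)) * (-hv L 1 (-1))) :=
        mul_nonneg (by
          have e2 : (0:ℝ) ≤ (1 / 4) := by positivity
          exact e2.trans_eq (by ring)) (mul_nonneg hD.le S3)
      refine (add_nonneg (add_nonneg (add_nonneg (add_nonneg t0 t1) t2) t3) t4).trans_eq ?_
      ring
    · have t0 : 0 ≤ ((67 / 5) + (-113 / 15) * x) * M := mul_nonneg (by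
        have e2 : (0:ℝ) ≤ (201 / 5) * (1 / 3 - x) + (98 / 3) * x := by positivity
        exact e2.trans_eq (by ring)) hM0
      have t1 : 0 ≤ ((1 / 4)) * ((8 * (1 - x)) * M - (56 + 91 * (1 - x)) * hv L 0 1) :=
        mul_nonneg (by
          have e2 : (0:ℝ) ≤ (1 / 4) := by positivity
          exact e2.trans_eq (by ring)) (sub_nonneg.2 P4)
      have t2 : 0 ≤ ((1 / 4)) * ((56 + 91 * (1 - x)) * hv L 1 1) :=
        mul_nonneg (by
          have e2 : (0:ℝ) ≤ (1 / 4) := by positivity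
          exact e2.trans_eq (by ring)) (mul_nonneg hD.le R3)
      have t3 : 0 ≤ ((1 / 4)) * ((56 + 91 * (1 - x)) * hv L 0 (-1)) :=
        mul_nonneg (by
          have e2 : (0:ℝ) ≤ (1 / 4) := by positivity
          exact e2.trans_eq (by ring)) (mul_nonneg hD.le S4)
      have t4 : 0 ≤ ((1 / 4)) * ((56 + 91 * (1 - x)) * ((8 / 21) * M - (-hv L 1 (-1)))) :=
        mul_nonneg (by
          have e2 : (0:ℝ) ≤ (1 / 4) := by positivity
          exact e2.trans_eq (by ring)) (mul_nonneg hD.le (sub_nonneg.2 T3))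
      refine (add_nonneg (add_nonneg (add_nonneg (add_nonneg t0 t1) t2) t3) t4).trans_eq ?_
      ring
    · have t0 : 0 ≤ ((1863 / 100) + (-1237 / 300) * x + (46 / 5) * x ^ 2) * M := mul_nonneg (by
        have e2 : (0:ℝ) ≤ (16767 / 100) * (1 / 3 - x) ^ 2 + (32297 / 100) * x * (1 / 3 - x) + (329 / 2) * x ^ 2 := by positivity
        exact e2.trans_eq (by ring)) hM0
      have t1 : 0 ≤ ((3 / 4) * x) * ((56 + 91 * (1 - x)) * hv L 0 1) :=
        mul_nonneg (by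
          have e2 : (0:ℝ) ≤ (3 / 4) * x := by positivity
          exact e2.trans_eq (by ring)) (mul_nonneg hD.le R4)
      have t2 : 0 ≤ ((1 / 4) + (3 / 4) * x) * ((40 * (1 - x)) * M - (56 + 91 * (1 - x)) * hv L 1 1) :=
        mul_nonneg (by
          have e2 : (0:ℝ) ≤ (3 / 4) * (1 / 3 - x) + (3 / 2) * x := by positivity
          exact e2.trans_eq (by ring)) (sub_nonneg.2 P3)
      have t3 : 0 ≤ ((3 / 4) * x) * ((56 + 91 * (1 - x)) * ((8 / 105) * M - hv L 0 (-1))) :=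
        mul_nonneg (by
          have e2 : (0:ℝ) ≤ (3 / 4) * x := by positivity
          exact e2.trans_eq (by ring)) (mul_nonneg hD.le (sub_nonneg.2 T4))
      have t4 : 0 ≤ ((1 / 4) + (-3 / 4) * x) * ((56 + 91 * (1 - x)) * ((8 / 21) * M - (-hv L 1 (-1)))) :=
        mul_nonneg (by
          have e2 : (0:ℝ) ≤ (3 / 4) * (1 / 3 - x) := by positivity
          exact e2.trans_eq (by ring)) (mul_nonneg hD.le (sub_nonneg.2 T3))
      refine (add_nonneg (add_nonneg (add_nonneg (add_nonneg t0 t1) t2) t3) t4).trans_eq ?_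
      ring
    · have t0 : 0 ≤ ((4263 / 100) + (-3239 / 100) * x + 6 * x ^ 2) * M := mul_nonneg (by
        have e2 : (0:ℝ) ≤ (38367 / 100) * (1 / 3 - x) ^ 2 + (67017 / 100) * x * (1 / 3 - x) + (585 / 2) * x ^ 2 := by positivity
        exact e2.trans_eq (by ring)) hM0
      have t1 : 0 ≤ ((3 / 4) * x) * ((8 * (1 - x)) * M - (56 + 91 * (1 - x)) * hv L 0 1) :=
        mul_nonneg (by
          have e2 : (0:ℝ) ≤ (3 / 4) * x := by positivity
          exact e2.trans_eq (by ring)) (sub_nonneg.2 P4)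
      have t2 : 0 ≤ ((1 / 4) + (3 / 4) * x) * ((56 + 91 * (1 - x)) * hv L 1 1) :=
        mul_nonneg (by
          have e2 : (0:ℝ) ≤ (3 / 4) * (1 / 3 - x) + (3 / 2) * x := by positivity
          exact e2.trans_eq (by ring)) (mul_nonneg hD.le R3)
      have t3 : 0 ≤ ((3 / 4) * x) * ((56 + 91 * (1 - x)) * hv L 0 (-1)) :=
        mul_nonneg (by
          have e2 : (0:ℝ) ≤ (3 / 4) * x := by positivity
          exact e2.trans_eq (by ring)) (mul_nonneg hD.le S4)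
      have t4 : 0 ≤ ((1 / 4) + (-3 / 4) * x) * ((56 + 91 * (1 - x)) * (-hv L 1 (-1))) :=
        mul_nonneg (by
          have e2 : (0:ℝ) ≤ (3 / 4) * (1 / 3 - x) := by positivity
          exact e2.trans_eq (by ring)) (mul_nonneg hD.le S3)
      refine (add_nonneg (add_nonneg (add_nonneg (add_nonneg t0 t1) t2) t3) t4).trans_eq ?_
      ring
    · have t0 : 0 ≤ ((382 / 25) + (-2638 / 75) * x + (196 / 3) * x ^ 2 + (-32) * x ^ 3) * M := mul_nonneg (by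
        have e2 : (0:ℝ) ≤ (10314 / 25) * (1 / 3 - x) ^ 3 + (23028 / 25) * x * (1 / 3 - x) ^ 2 + (20014 / 25) * x ^ 2 * (1 / 3 - x) + 260 * x ^ 3 := by positivity
        exact e2.trans_eq (by ring)) hM0
      have t1 : 0 ≤ ((3 / 4) + (-3 / 4) * x ^ 2) * ((8 * (1 - x)) * M - (56 + 91 * (1 - x)) * hv L 0 1) :=
        mul_nonneg (by
          have e2 : (0:ℝ) ≤ (27 / 4) * (1 / 3 - x) ^ 2 + (27 / 2) * x * (1 / 3 - x) + 6 * x ^ 2 := by positivity
          exact e2.trans_eq (by ring)) (sub_nonneg.2 P4)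
      have t2 : 0 ≤ ((1 / 4) + (-1 / 2) * x + (-3 / 4) * x ^ 2) * ((56 + 91 * (1 - x)) * hv L 1 1) :=
        mul_nonneg (by
          have e2 : (0:ℝ) ≤ (9 / 4) * (1 / 3 - x) ^ 2 + 3 * x * (1 / 3 - x) := by positivity
          exact e2.trans_eq (by ring)) (mul_nonneg hD.le R3)
      have t3 : 0 ≤ ((3 / 4) + (-3 / 4) * x ^ 2) * ((56 + 91 * (1 - x)) * hv L 0 (-1)) :=
        mul_nonneg (by
          have e2 : (0:ℝ) ≤ (27 / 4) * (1 / 3 - x) ^ 2 + (27 / 2) * x * (1 / 3 - x) + 6 * x ^ 2 := by positivity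
          exact e2.trans_eq (by ring)) (mul_nonneg hD.le S4)
      have t4 : 0 ≤ ((1 / 4) + (1 / 2) * x + (-3 / 4) * x ^ 2) * ((56 + 91 * (1 - x)) * ((8 / 21) * M - (-hv L 1 (-1)))) :=
        mul_nonneg (by
          have e2 : (0:ℝ) ≤ (9 / 4) * (1 / 3 - x) ^ 2 + 6 * x * (1 / 3 - x) + 3 * x ^ 2 := by positivity
          exact e2.trans_eq (by ring)) (mul_nonneg hD.le (sub_nonneg.2 T3))
      refine (add_nonneg (add_nonneg (add_nonneg (add_nonneg t0 t1) t2) t3) t4).trans_eq ?_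
      ring
    · have t0 : 0 ≤ ((422 / 25) + (334 / 25) * x + (92 / 5) * x ^ 2 + (-176 / 5) * x ^ 3) * M := mul_nonneg (by
        have e2 : (0:ℝ) ≤ (11394 / 25) * (1 / 3 - x) ^ 3 + (37188 / 25) * x * (1 / 3 - x) ^ 2 + (41574 / 25) * x ^ 2 * (1 / 3 - x) + 596 * x ^ 3 := by positivity
        exact e2.trans_eq (by ring)) hM0
      have t1 : 0 ≤ ((3 / 4) + (-3 / 4) * x ^ 2) * ((56 + 91 * (1 - x)) * hv L 0 1) :=
        mul_nonneg (by
          have e2 : (0:ℝ) ≤ (27 / 4) * (1 / 3 - x) ^ 2 + (27 / 2) * x * (1 / 3 - x) + 6 * x ^ 2 := by positivity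
          exact e2.trans_eq (by ring)) (mul_nonneg hD.le R4)
      have t2 : 0 ≤ ((1 / 4) + (-1 / 2) * x + (-3 / 4) * x ^ 2) * ((40 * (1 - x)) * M - (56 + 91 * (1 - x)) * hv L 1 1) :=
        mul_nonneg (by
          have e2 : (0:ℝ) ≤ (9 / 4) * (1 / 3 - x) ^ 2 + 3 * x * (1 / 3 - x) := by positivity
          exact e2.trans_eq (by ring)) (sub_nonneg.2 P3)
      have t3 : 0 ≤ ((3 / 4) + (-3 / 4) * x ^ 2) * ((56 + 91 * (1 - x)) * ((8 / 105) * M - hv L 0 (-1))) :=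
        mul_nonneg (by
          have e2 : (0:ℝ) ≤ (27 / 4) * (1 / 3 - x) ^ 2 + (27 / 2) * x * (1 / 3 - x) + 6 * x ^ 2 := by positivity
          exact e2.trans_eq (by ring)) (mul_nonneg hD.le (sub_nonneg.2 T4))
      have t4 : 0 ≤ ((1 / 4) + (1 / 2) * x + (-3 / 4) * x ^ 2) * ((56 + 91 * (1 - x)) * (-hv L 1 (-1))) :=
        mul_nonneg (by
          have e2 : (0:ℝ) ≤ (9 / 4) * (1 / 3 - x) ^ 2 + 6 * x * (1 / 3 - x) + 3 * x ^ 2 := by positivity
          exact e2.trans_eq (by ring)) (mul_nonneg hD.le S3)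
      refine (add_nonneg (add_nonneg (add_nonneg (add_nonneg t0 t1) t2) t3) t4).trans_eq ?_
      ring
    · have t0 : 0 ≤ ((657 / 100) + (-43 / 300) * x + (4 / 5) * x ^ 2 + (-4 / 5) * x ^ 3 + (-4 / 15) * x ^ 4) * M := mul_nonneg (by
        have e2 : (0:ℝ) ≤ (53217 / 100) * (1 / 3 - x) ^ 4 + (212481 / 100) * x * (1 / 3 - x) ^ 3 + (318861 / 100) * x ^ 2 * (1 / 3 - x) ^ 2 + (212907 / 100) * x ^ 3 * (1 / 3 - x) + (3197 / 6) * x ^ 4 := by positivity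
        exact e2.trans_eq (by ring)) hM0
      have t1 : 0 ≤ ((1 / 2) + (3 / 4) * x + (-1 / 4) * x ^ 3) * ((8 * (1 - x)) * M - (56 + 91 * (1 - x)) * hv L 0 1) :=
        mul_nonneg (by
          have e2 : (0:ℝ) ≤ (27 / 2) * (1 / 3 - x) ^ 3 + (189 / 4) * x * (1 / 3 - x) ^ 2 + 54 * x ^ 2 * (1 / 3 - x) + 20 * x ^ 3 := by positivity
          exact e2.trans_eq (by ring)) (sub_nonneg.2 P4)
      have t2 : 0 ≤ ((1 / 4) + (1 / 4) * x + (-1 / 4) * x ^ 2 + (-1 / 4) * x ^ 3) * ((56 + 91 * (1 - x)) * hv L 1 1) :=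
        mul_nonneg (by
          have e2 : (0:ℝ) ≤ (27 / 4) * (1 / 3 - x) ^ 3 + (45 / 2) * x * (1 / 3 - x) ^ 2 + 24 * x ^ 2 * (1 / 3 - x) + 8 * x ^ 3 := by positivity
          exact e2.trans_eq (by ring)) (mul_nonneg hD.le R3)
      have t3 : 0 ≤ ((1 / 2) + (-3 / 4) * x + (1 / 4) * x ^ 3) * ((56 + 91 * (1 - x)) * ((8 / 105) * M - hv L 0 (-1))) :=
        mul_nonneg (by
          have e2 : (0:ℝ) ≤ (27 / 2) * (1 / 3 - x) ^ 3 + (135 / 4) * x * (1 / 3 - x) ^ 2 + 27 * x ^ 2 * (1 / 3 - x) + 7 * x ^ 3 := by positivity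
          exact e2.trans_eq (by ring)) (mul_nonneg hD.le (sub_nonneg.2 T4))
      have t4 : 0 ≤ ((1 / 4) + (-1 / 4) * x + (-1 / 4) * x ^ 2 + (1 / 4) * x ^ 3) * ((56 + 91 * (1 - x)) * (-hv L 1 (-1))) :=
        mul_nonneg (by
          have e2 : (0:ℝ) ≤ (27 / 4) * (1 / 3 - x) ^ 3 + 18 * x * (1 / 3 - x) ^ 2 + 15 * x ^ 2 * (1 / 3 - x) + 4 * x ^ 3 := by positivity
          exact e2.trans_eq (by ring)) (mul_nonneg hD.le S3)
      refine (add_nonneg (add_nonneg (add_nonneg (add_nonneg t0 t1) t2) t3) t4).trans_eq ?_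
      ring
  · have e2 : (0:ℝ) ≤ (3665979 / 20000) * (1 / 3 - x) ^ 4 + (3306609 / 5000) * x * (1 / 3 - x) ^ 3 + (8263917 / 10000) * x ^ 2 * (1 / 3 - x) ^ 2 + (2010069 / 5000) * x ^ 3 * (1 / 3 - x) + (1092899 / 20000) * x ^ 4 := by positivity
    exact sub_nonneg.1 (e2.trans_eq (by ring))
  · have e2 : (0:ℝ) ≤ (4941 / 50) * (1 / 3 - x) ^ 4 + (9531 / 25) * x * (1 / 3 - x) ^ 3 + (24651 / 50) * x ^ 2 * (1 / 3 - x) ^ 2 + (1188 / 5) * x ^ 3 * (1 / 3 - x) + 28 * x ^ 4 := by positivity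
    exact sub_nonneg.1 (e2.trans_eq (by ring))
  · have e2 : (0:ℝ) ≤ (4022379 / 20000) * (1 / 3 - x) ^ 4 + (4257009 / 5000) * x * (1 / 3 - x) ^ 3 + (12897117 / 10000) * x ^ 2 * (1 / 3 - x) ^ 2 + (4148469 / 5000) * x ^ 3 * (1 / 3 - x) + (3825299 / 20000) * x ^ 4 := by positivity
    exact sub_nonneg.1 (e2.trans_eq (by ring))
  · have e2 : (0:ℝ) ≤ (1701 / 50) * (1 / 3 - x) ^ 4 + (6021 / 25) * x * (1 / 3 - x) ^ 3 + (23031 / 50) * x ^ 2 * (1 / 3 - x) ^ 2 + (1674 / 5) * x ^ 3 * (1 / 3 - x) + 82 * x ^ 4 := by positivity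
    exact sub_nonneg.1 (e2.trans_eq (by ring))
  · have e2 : (0:ℝ) ≤ (3123 / 100) * (1 / 3 - x) ^ 2 + (1224 / 25) * x * (1 / 3 - x) + (2373 / 100) * x ^ 2 := by positivity
    exact sub_nonneg.1 (e2.trans_eq (by ring))
  · have e2 : (0:ℝ) ≤ (387 / 50) * (1 / 3 - x) ^ 2 + (1179 / 50) * x * (1 / 3 - x) + (546 / 25) * x ^ 2 := by positivity
    exact sub_nonneg.1 (e2.trans_eq (by ring))
  · have e2 : (0:ℝ) ≤ (585387 / 200) * (1 / 3 - x) ^ 6 + (419904 / 25) * x * (1 / 3 - x) ^ 5 + (1584603 / 40) * x ^ 2 * (1 / 3 - x) ^ 4 + (245187 / 5) * x ^ 3 * (1 / 3 - x) ^ 3 + (1342053 / 40) * x ^ 4 * (1 / 3 - x) ^ 2 + (300789 / 25) * x ^ 5 * (1 / 3 - x) + (353757 / 200) * x ^ 6 := by positivity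
    exact sub_nonneg.1 (e2.trans_eq (by ring))
  · have e2 : (0:ℝ) ≤ (197559 / 100) * (1 / 3 - x) ^ 6 + (614547 / 50) * x * (1 / 3 - x) ^ 5 + (627183 / 20) * x ^ 2 * (1 / 3 - x) ^ 4 + 42039 * x ^ 3 * (1 / 3 - x) ^ 3 + (626193 / 20) * x ^ 4 * (1 / 3 - x) ^ 2 + (616887 / 50) * x ^ 5 * (1 / 3 - x) + (202029 / 100) * x ^ 6 := by positivity
    exact sub_nonneg.1 (e2.trans_eq (by ring))
  · have e2 : (0:ℝ) ≤ (13851 / 100) * (1 / 3 - x) ^ 6 + (41553 / 50) * x * (1 / 3 - x) ^ 5 + (44307 / 20) * x ^ 2 * (1 / 3 - x) ^ 4 + 3321 * x ^ 3 * (1 / 3 - x) ^ 3 + (57627 / 20) * x ^ 4 * (1 / 3 - x) ^ 2 + (66843 / 50) * x ^ 5 * (1 / 3 - x) + (25421 / 100) * x ^ 6 := by positivity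
    exact sub_nonneg.1 (e2.trans_eq (by ring))

end Pool.Agent.HSmall
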