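import Pool.Agent.HSmall.K4
import Pool.Agent.HSmall.EndS
import Pool.Agent.HSmall.Wrap

/-!
# The pointwise inequality of order 4, `x ∈ [1/3, 1]`
-/

set_option autoImplicit false

namespace Pool.Agent.HSmall

open Polynomial Set Complex Pool.Agent.HHalf Pool.Agent.HStar Pool.Agent.HFin

theorem zone4B {N : ℕ} {L : Fin N → ℂ} (hL : ∀ a, ‖L a‖ ≤ 1) (hN : 5 ≤ N) {a0 : Fin N} {x : ℝ}
    (hx0 : 1 / 3 ≤ x) (hx1 : x < 1) (hR : (1 + x) / 2 ≤ (L a0).re)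
    (htp : 89 / 20 ≤ ∑ a, (1 - (L a).re)) (htm : 3 ≤ ∑ a, (1 + (L a).re)) : PW L 4 x := by
  have hu : 0 ≤ x - 1 / 3 := by linarith
  have hw : 0 ≤ 1 - x := by linarith
  have hx0' : 0 ≤ x := by linarith
  have hx1' : x < 1 := by linarith
  have hE := ends4 hL hN (s := 1 - x) (by linarith) (by linarith : 2 * (1 - (L a0).re) ≤ 1 - x)
  refine pw4 hN hL hx0' hx1' htp htm
    (b1 := ((9 / 4) + (-3) * x + (3 / 2) * x ^ 2 + 1 * x ^ 3 + (1 / 4) * x ^ 4) + ((17 / 40) + (-3 / 10) * x))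
    (b2 := (6 * x + (-6) * x ^ 2) + ((29 / 100)))
    (b3 := ((3 / 2) + 4 * x + (-21 / 2) * x ^ 2 + (13 / 2) * x ^ 4 + (-3 / 2) * x ^ 6) + ((18 / 25) + (-18 / 25) * x))
    (b4 := ((9 / 4) + (-15 / 4) * x + (-11 / 4) * x ^ 2 + (25 / 4) * x ^ 3 + (3 / 4) * x ^ 4 + (-13 / 4) * x ^ 5 + (-1 / 4) * x ^ 6 + (3 / 4) * x ^ 7) + ((197 / 350) + (-172 / 175) * x + (21 / 50) * x ^ 2))
    (l2 := (27 / 20) + (-9 / 10) * x)
    (l3 := (1 / 2) + (-9 / 20) * x)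
    (by
      have e2 : (0:ℝ) ≤ (5773 / 640) * (1 - x) ^ 4 + (4731 / 160) * (x - 1 / 3) * (1 - x) ^ 3 + (12987 / 320) * (x - 1 / 3) ^ 2 * (1 - x) ^ 2 + (4887 / 160) * (x - 1 / 3) ^ 3 * (1 - x) + (1377 / 128) * (x - 1 / 3) ^ 4 := by positivity
      exact e2.trans_eq (by ring))
    (by
      have e2 : (0:ℝ) ≤ (1461 / 400) * (1 - x) ^ 2 + (2061 / 200) * (x - 1 / 3) * (1 - x) + (261 / 400) * (x - 1 / 3) ^ 2 := by positivity
      exact e2.trans_eq (by ring))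
    (by
      have e2 : (0:ℝ) ≤ (10137 / 400) * (1 - x) ^ 6 + (10467 / 80) * (x - 1 / 3) * (1 - x) ^ 5 + (9657 / 40) * (x - 1 / 3) ^ 2 * (1 - x) ^ 4 + (7587 / 40) * (x - 1 / 3) ^ 3 * (1 - x) ^ 3 + (4617 / 80) * (x - 1 / 3) ^ 4 * (1 - x) ^ 2 + (2187 / 400) * (x - 1 / 3) ^ 5 * (1 - x) := by positivity
      exact e2.trans_eq (by ring))
    (by
      have e2 : (0:ℝ) ≤ (115173 / 5600) * (1 - x) ^ 7 + (212991 / 2240) * (x - 1 / 3) * (1 - x) ^ 6 + (365517 / 2240) * (x - 1 / 3) ^ 2 * (1 - x) ^ 5 + (143991 / 1120) * (x - 1 / 3) ^ 3 * (1 - x) ^ 4 + (28269 / 560) * (x - 1 / 3) ^ 4 * (1 - x) ^ 3 + (145071 / 11200) * (x - 1 / 3) ^ 5 * (1 - x) ^ 2 + (729 / 448) * (x - 1 / 3) ^ 6 * (1 - x) := by positivity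
      exact e2.trans_eq (by ring))
    (by
      have e2 : (0:ℝ) ≤ (63 / 40) * (1 - x) + (27 / 40) * (x - 1 / 3) := by positivity
      exact e2.trans_eq (by ring))
    (by
      have e2 : (0:ℝ) ≤ (21 / 40) * (1 - x) + (3 / 40) * (x - 1 / 3) := by positivity
      exact e2.trans_eq (by ring))
    ?_ ?_ ?_ ?_ ?_ ?_ ?_ ?_ ?_ ?_
  · intro M hM
    have hM0 : 0 ≤ M := (abs_nonneg _).trans (hM 0 ⟨by norm_num, by norm_num⟩)
    have hk1 : hv L 4 1 ≤ M := (le_abs_self _).trans (hM 1 ⟨by norm_num, le_rfl⟩)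
    have hD : (0:ℝ) < (56 + 91 * (1 - x)) := by linarith
    have P2 : (56 + 91 * (1 - x)) * hv L 2 1 ≤ (8 + 88 * (1 - x)) * M :=
      hE.1.trans (mul_le_mul_of_nonneg_left hk1 (by linarith))
    have R2 : 0 ≤ hv L 2 1 := hv_one_nonneg hL 2
    have P3 : (56 + 91 * (1 - x)) * hv L 1 1 ≤ (40 * (1 - x)) * M :=
      hE.2.1.trans (mul_le_mul_of_nonneg_left hk1 (by linarith))
    have R3 : 0 ≤ hv L 1 1 := hv_one_nonneg hL 1
    have P4 : (56 + 91 * (1 - x)) * hv L 0 1 ≤ (8 * (1 - x)) * M :=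
      hE.2.2.trans (mul_le_mul_of_nonneg_left hk1 (by linarith))
    have R4 : 0 ≤ hv L 0 1 := hv_one_nonneg hL 0
    have S4 : 0 ≤ hv L 0 (-1) := by simpa using hv_neg_one_nonneg hL 0
    have T4 : hv L 0 (-1) ≤ (8 / 105) * M := by
      have h5 := neg_zero (k := 4) (N0 := 5) hL hN (by norm_num) hM
      rw [show Nat.choose (2 * 5) 4 = 210 by decide, abs_of_nonneg S4] at h5
      norm_num at h5
      linarith
    obtain ⟨k1, k2, k3, k4⟩ := ker43 (h := hv L) (hseq_hv L) hM hx0 hx1.le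
    refine ⟨abs_comb k1 (ub hD ?_) (ub hD ?_),
      abs_comb k2 (ub hD ?_) (ub hD ?_),
      abs_comb k3 (ub hD ?_) (ub hD ?_),
      abs_comb0 k4 (hv_zero_nonneg L x) (ub hD ?_)⟩
    · have t0 : 0 ≤ ((539 / 40) + (-1511 / 40) * x + (273 / 10) * x ^ 2) * M := mul_nonneg (by
        have e2 : (0:ℝ) ≤ (308367 / 2048) * (1 - x) ^ 9 + (2184813 / 2560) * (x - 1 / 3) * (1 - x) ^ 8 + (4796091 / 2560) * (x - 1 / 3) ^ 2 * (1 - x) ^ 7 + (597051 / 320) * (x - 1 / 3) ^ 3 * (1 - x) ^ 6 + (688905 / 1024) * (x - 1 / 3) ^ 4 * (1 - x) ^ 5 + (45927 / 256) * (x - 1 / 3) ^ 5 * (1 - x) ^ 4 + (2250423 / 2560) * (x - 1 / 3) ^ 6 * (1 - x) ^ 3 + (373977 / 320) * (x - 1 / 3) ^ 7 * (1 - x) ^ 2 + (6213267 / 10240) * (x - 1 / 3) ^ 8 * (1 - x) + (59049 / 512) * (x - 1 / 3) ^ 9 := by positivity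
        exact e2.trans_eq (by ring)) hM0
      have t1 : 0 ≤ ((1 / 8)) * ((8 * (1 - x)) * M - (56 + 91 * (1 - x)) * hv L 0 1) :=
        mul_nonneg (by
          have e2 : (0:ℝ) ≤ (1 / 8) := by positivity
          exact e2.trans_eq (by ring)) (sub_nonneg.2 P4)
      have t2 : 0 ≤ ((1 / 4)) * ((56 + 91 * (1 - x)) * hv L 1 1) :=
        mul_nonneg (by
          have e2 : (0:ℝ) ≤ (1 / 4) := by positivity
          exact e2.trans_eq (by ring)) (mul_nonneg hD.le R3)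
      have t3 : 0 ≤ ((1 / 2)) * ((8 + 88 * (1 - x)) * M - (56 + 91 * (1 - x)) * hv L 2 1) :=
        mul_nonneg (by
          have e2 : (0:ℝ) ≤ (1 / 2) := by positivity
          exact e2.trans_eq (by ring)) (sub_nonneg.2 P2)
      have t4 : 0 ≤ ((1 / 8)) * ((56 + 91 * (1 - x)) * hv L 0 (-1)) :=
        mul_nonneg (by
          have e2 : (0:ℝ) ≤ (1 / 8) := by positivity
          exact e2.trans_eq (by ring)) (mul_nonneg hD.le S4)
      refine (add_nonneg (add_nonneg (add_nonneg (add_nonneg t0 t1) t2) t3) t4).trans_eq ?_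
      ring
    · have t0 : 0 ≤ ((2043 / 40) + (-8629 / 120) * x + (273 / 10) * x ^ 2) * M := mul_nonneg (by
        have e2 : (0:ℝ) ≤ (1085 / 16) * (1 - x) ^ 2 + (881 / 16) * (x - 1 / 3) * (1 - x) + (291 / 20) * (x - 1 / 3) ^ 2 := by positivity
        exact e2.trans_eq (by ring)) hM0
      have t1 : 0 ≤ ((1 / 8)) * ((56 + 91 * (1 - x)) * hv L 0 1) :=
        mul_nonneg (by
          have e2 : (0:ℝ) ≤ (1 / 8) := by positivity
          exact e2.trans_eq (by ring)) (mul_nonneg hD.le R4)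
      have t2 : 0 ≤ ((1 / 4)) * ((40 * (1 - x)) * M - (56 + 91 * (1 - x)) * hv L 1 1) :=
        mul_nonneg (by
          have e2 : (0:ℝ) ≤ (1 / 4) := by positivity
          exact e2.trans_eq (by ring)) (sub_nonneg.2 P3)
      have t3 : 0 ≤ ((1 / 2)) * ((56 + 91 * (1 - x)) * hv L 2 1) :=
        mul_nonneg (by
          have e2 : (0:ℝ) ≤ (1 / 2) := by positivity
          exact e2.trans_eq (by ring)) (mul_nonneg hD.le R2)
      have t4 : 0 ≤ ((1 / 8)) * ((56 + 91 * (1 - x)) * ((8 / 105) * M - hv L 0 (-1))) :=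
        mul_nonneg (by
          have e2 : (0:ℝ) ≤ (1 / 8) := by positivity
          exact e2.trans_eq (by ring)) (mul_nonneg hD.le (sub_nonneg.2 T4))
      refine (add_nonneg (add_nonneg (add_nonneg (add_nonneg t0 t1) t2) t3) t4).trans_eq ?_
      ring
    · have t0 : 0 ≤ ((5643 / 100) + (-14759 / 100) * x + (497 / 5) * x ^ 2) * M := mul_nonneg (by
        have e2 : (0:ℝ) ≤ (239841 / 512) * (1 - x) ^ 8 + (30182787 / 12800) * (x - 1 / 3) * (1 - x) ^ 7 + (57883329 / 12800) * (x - 1 / 3) ^ 2 * (1 - x) ^ 6 + (49238847 / 12800) * (x - 1 / 3) ^ 3 * (1 - x) ^ 5 + (2924019 / 2560) * (x - 1 / 3) ^ 4 * (1 - x) ^ 4 + (627669 / 2560) * (x - 1 / 3) ^ 5 * (1 - x) ^ 3 + (11782827 / 12800) * (x - 1 / 3) ^ 6 * (1 - x) ^ 2 + (10425429 / 12800) * (x - 1 / 3) ^ 7 * (1 - x) + (675783 / 3200) * (x - 1 / 3) ^ 8 := by positivity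
        exact e2.trans_eq (by ring)) hM0
      have t1 : 0 ≤ ((3 / 8) + (-3 / 8) * x) * ((56 + 91 * (1 - x)) * hv L 0 1) :=
        mul_nonneg (by
          have e2 : (0:ℝ) ≤ (3 / 8) * (1 - x) := by positivity
          exact e2.trans_eq (by ring)) (mul_nonneg hD.le R4)
      have t2 : 0 ≤ ((3 / 4) + (-3 / 4) * x) * ((40 * (1 - x)) * M - (56 + 91 * (1 - x)) * hv L 1 1) :=
        mul_nonneg (by
          have e2 : (0:ℝ) ≤ (3 / 4) * (1 - x) := by positivity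
          exact e2.trans_eq (by ring)) (sub_nonneg.2 P3)
      have t3 : 0 ≤ ((-1 / 2) + (3 / 2) * x) * ((8 + 88 * (1 - x)) * M - (56 + 91 * (1 - x)) * hv L 2 1) :=
        mul_nonneg (by
          have e2 : (0:ℝ) ≤ (3 / 2) * (x - 1 / 3) := by positivity
          exact e2.trans_eq (by ring)) (sub_nonneg.2 P2)
      have t4 : 0 ≤ ((3 / 8) + (-3 / 8) * x) * ((56 + 91 * (1 - x)) * ((8 / 105) * M - hv L 0 (-1))) :=
        mul_nonneg (by
          have e2 : (0:ℝ) ≤ (3 / 8) * (1 - x) := by positivity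
          exact e2.trans_eq (by ring)) (mul_nonneg hD.le (sub_nonneg.2 T4))
      refine (add_nonneg (add_nonneg (add_nonneg (add_nonneg t0 t1) t2) t3) t4).trans_eq ?_
      ring
    · have t0 : 0 ≤ ((3963 / 100) + (-2039 / 100) * x + (-3) * x ^ 2) * M := mul_nonneg (by
        have e2 : (0:ℝ) ≤ (585 / 8) * (1 - x) ^ 2 + (22533 / 200) * (x - 1 / 3) * (1 - x) + (1827 / 50) * (x - 1 / 3) ^ 2 := by positivity
        exact e2.trans_eq (by ring)) hM0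
      have t1 : 0 ≤ ((3 / 8) + (-3 / 8) * x) * ((8 * (1 - x)) * M - (56 + 91 * (1 - x)) * hv L 0 1) :=
        mul_nonneg (by
          have e2 : (0:ℝ) ≤ (3 / 8) * (1 - x) := by positivity
          exact e2.trans_eq (by ring)) (sub_nonneg.2 P4)
      have t2 : 0 ≤ ((3 / 4) + (-3 / 4) * x) * ((56 + 91 * (1 - x)) * hv L 1 1) :=
        mul_nonneg (by
          have e2 : (0:ℝ) ≤ (3 / 4) * (1 - x) := by positivity
          exact e2.trans_eq (by ring)) (mul_nonneg hD.le R3)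
      have t3 : 0 ≤ ((-1 / 2) + (3 / 2) * x) * ((56 + 91 * (1 - x)) * hv L 2 1) :=
        mul_nonneg (by
          have e2 : (0:ℝ) ≤ (3 / 2) * (x - 1 / 3) := by positivity
          exact e2.trans_eq (by ring)) (mul_nonneg hD.le R2)
      have t4 : 0 ≤ ((3 / 8) + (-3 / 8) * x) * ((56 + 91 * (1 - x)) * hv L 0 (-1)) :=
        mul_nonneg (by
          have e2 : (0:ℝ) ≤ (3 / 8) * (1 - x) := by positivity
          exact e2.trans_eq (by ring)) (mul_nonneg hD.le S4)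
      refine (add_nonneg (add_nonneg (add_nonneg (add_nonneg t0 t1) t2) t3) t4).trans_eq ?_
      ring
    · have t0 : 0 ≤ ((2321 / 25) + (-5309 / 25) * x + (3663 / 25) * x ^ 2 + (-27) * x ^ 3) * M := mul_nonneg (by
        have e2 : (0:ℝ) ≤ 126 * (1 - x) ^ 3 + (2493 / 25) * (x - 1 / 3) * (1 - x) ^ 2 + (18 / 25) * (x - 1 / 3) ^ 2 * (1 - x) := by positivity
        exact e2.trans_eq (by ring)) hM0
      have t1 : 0 ≤ ((3 / 8) + (-3 / 4) * x + (3 / 8) * x ^ 2) * ((8 * (1 - x)) * M - (56 + 91 * (1 - x)) * hv L 0 1) :=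
        mul_nonneg (by
          have e2 : (0:ℝ) ≤ (3 / 8) * (1 - x) ^ 2 := by positivity
          exact e2.trans_eq (by ring)) (sub_nonneg.2 P4)
      have t2 : 0 ≤ ((1 / 4) + (3 / 2) * x + (-3 / 4) * x ^ 2) * ((40 * (1 - x)) * M - (56 + 91 * (1 - x)) * hv L 1 1) :=
        mul_nonneg (by
          have e2 : (0:ℝ) ≤ (3 / 2) * (1 - x) ^ 2 + (9 / 2) * (x - 1 / 3) * (1 - x) + (9 / 4) * (x - 1 / 3) ^ 2 := by positivity
          exact e2.trans_eq (by ring)) (sub_nonneg.2 P3)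
      have t3 : 0 ≤ ((1 / 2) + 1 * x + (-3 / 2) * x ^ 2) * ((56 + 91 * (1 - x)) * hv L 2 1) :=
        mul_nonneg (by
          have e2 : (0:ℝ) ≤ (3 / 2) * (1 - x) ^ 2 + 3 * (x - 1 / 3) * (1 - x) := by positivity
          exact e2.trans_eq (by ring)) (mul_nonneg hD.le R2)
      have t4 : 0 ≤ ((3 / 8) + (-3 / 4) * x + (3 / 8) * x ^ 2) * ((56 + 91 * (1 - x)) * hv L 0 (-1)) :=
        mul_nonneg (by
          have e2 : (0:ℝ) ≤ (3 / 8) * (1 - x) ^ 2 := by positivity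
          exact e2.trans_eq (by ring)) (mul_nonneg hD.le S4)
      refine (add_nonneg (add_nonneg (add_nonneg (add_nonneg t0 t1) t2) t3) t4).trans_eq ?_
      ring
    · have t0 : 0 ≤ ((1341 / 25) + (-5309 / 25) * x + (7203 / 25) * x ^ 2 + (-647 / 5) * x ^ 3) * M := mul_nonneg (by
        have e2 : (0:ℝ) ≤ (153 / 2) * (1 - x) ^ 5 + (6147 / 100) * (x - 1 / 3) * (1 - x) ^ 4 + (414 / 25) * (x - 1 / 3) ^ 2 * (1 - x) ^ 3 + (15471 / 100) * (x - 1 / 3) ^ 3 * (1 - x) ^ 2 + (3078 / 25) * (x - 1 / 3) ^ 4 * (1 - x) := by positivity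
        exact e2.trans_eq (by ring)) hM0
      have t1 : 0 ≤ ((3 / 8) + (-3 / 4) * x + (3 / 8) * x ^ 2) * ((56 + 91 * (1 - x)) * hv L 0 1) :=
        mul_nonneg (by
          have e2 : (0:ℝ) ≤ (3 / 8) * (1 - x) ^ 2 := by positivity
          exact e2.trans_eq (by ring)) (mul_nonneg hD.le R4)
      have t2 : 0 ≤ ((1 / 4) + (3 / 2) * x + (-3 / 4) * x ^ 2) * ((56 + 91 * (1 - x)) * hv L 1 1) :=
        mul_nonneg (by
          have e2 : (0:ℝ) ≤ (3 / 2) * (1 - x) ^ 2 + (9 / 2) * (x - 1 / 3) * (1 - x) + (9 / 4) * (x - 1 / 3) ^ 2 := by positivity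
          exact e2.trans_eq (by ring)) (mul_nonneg hD.le R3)
      have t3 : 0 ≤ ((1 / 2) + 1 * x + (-3 / 2) * x ^ 2) * ((8 + 88 * (1 - x)) * M - (56 + 91 * (1 - x)) * hv L 2 1) :=
        mul_nonneg (by
          have e2 : (0:ℝ) ≤ (3 / 2) * (1 - x) ^ 2 + 3 * (x - 1 / 3) * (1 - x) := by positivity
          exact e2.trans_eq (by ring)) (sub_nonneg.2 P2)
      have t4 : 0 ≤ ((3 / 8) + (-3 / 4) * x + (3 / 8) * x ^ 2) * ((56 + 91 * (1 - x)) * ((8 / 105) * M - hv L 0 (-1))) :=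
        mul_nonneg (by
          have e2 : (0:ℝ) ≤ (3 / 8) * (1 - x) ^ 2 := by positivity
          exact e2.trans_eq (by ring)) (mul_nonneg hD.le (sub_nonneg.2 T4))
      refine (add_nonneg (add_nonneg (add_nonneg (add_nonneg t0 t1) t2) t3) t4).trans_eq ?_
      ring
    · have t0 : 0 ≤ ((1317 / 50) + (-2839 / 30) * x + (7719 / 50) * x ^ 2 + (-6511 / 50) * x ^ 3 + (662 / 15) * x ^ 4) * M := mul_nonneg (by
        have e2 : (0:ℝ) ≤ (233 / 6) * (1 - x) ^ 4 + (5887 / 100) * (x - 1 / 3) * (1 - x) ^ 3 + (6417 / 100) * (x - 1 / 3) ^ 2 * (1 - x) ^ 2 := by positivity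
        exact e2.trans_eq (by ring)) hM0
      have t1 : 0 ≤ ((7 / 8) + (3 / 8) * x + (-3 / 8) * x ^ 2 + (1 / 8) * x ^ 3) * ((8 * (1 - x)) * M - (56 + 91 * (1 - x)) * hv L 0 1) :=
        mul_nonneg (by
          have e2 : (0:ℝ) ≤ (13 / 4) * (1 - x) ^ 3 + (81 / 8) * (x - 1 / 3) * (1 - x) ^ 2 + (81 / 8) * (x - 1 / 3) ^ 2 * (1 - x) + (27 / 8) * (x - 1 / 3) ^ 3 := by positivity
          exact e2.trans_eq (by ring)) (sub_nonneg.2 P4)
      have t2 : 0 ≤ ((3 / 4) + (-1 / 4) * x + (-3 / 4) * x ^ 2 + (1 / 4) * x ^ 3) * ((56 + 91 * (1 - x)) * hv L 1 1) :=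
        mul_nonneg (by
          have e2 : (0:ℝ) ≤ 2 * (1 - x) ^ 3 + (9 / 2) * (x - 1 / 3) * (1 - x) ^ 2 + (9 / 4) * (x - 1 / 3) ^ 2 * (1 - x) := by positivity
          exact e2.trans_eq (by ring)) (mul_nonneg hD.le R3)
      have t3 : 0 ≤ ((1 / 2) + (-1 / 2) * x + (-1 / 2) * x ^ 2 + (1 / 2) * x ^ 3) * ((8 + 88 * (1 - x)) * M - (56 + 91 * (1 - x)) * hv L 2 1) :=
        mul_nonneg (by
          have e2 : (0:ℝ) ≤ 1 * (1 - x) ^ 3 + (3 / 2) * (x - 1 / 3) * (1 - x) ^ 2 := by positivity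
          exact e2.trans_eq (by ring)) (sub_nonneg.2 P2)
      have t4 : 0 ≤ ((1 / 8) + (-3 / 8) * x + (3 / 8) * x ^ 2 + (-1 / 8) * x ^ 3) * ((56 + 91 * (1 - x)) * ((8 / 105) * M - hv L 0 (-1))) :=
        mul_nonneg (by
          have e2 : (0:ℝ) ≤ (1 / 8) * (1 - x) ^ 3 := by positivity
          exact e2.trans_eq (by ring)) (mul_nonneg hD.le (sub_nonneg.2 T4))
      refine (add_nonneg (add_nonneg (add_nonneg (add_nonneg t0 t1) t2) t3) t4).trans_eq ?_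
      ring
  · have e2 : (0:ℝ) ≤ (915899 / 320000) * (1 - x) ^ 4 + (2135559 / 80000) * (x - 1 / 3) * (1 - x) ^ 3 + (7994457 / 160000) * (x - 1 / 3) ^ 2 * (1 - x) ^ 2 + (2183679 / 80000) * (x - 1 / 3) ^ 3 * (1 - x) + (212139 / 320000) * (x - 1 / 3) ^ 4 := by positivity
    exact sub_nonneg.1 (e2.trans_eq (by ring))
  · have e2 : (0:ℝ) ≤ (383 / 320) * (1 - x) ^ 4 + (2181 / 80) * (x - 1 / 3) * (1 - x) ^ 3 + (49329 / 800) * (x - 1 / 3) ^ 2 * (1 - x) ^ 2 + (16929 / 400) * (x - 1 / 3) ^ 3 * (1 - x) + (9963 / 1600) * (x - 1 / 3) ^ 4 := by positivity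
    exact sub_nonneg.1 (e2.trans_eq (by ring))
  · have e2 : (0:ℝ) ≤ (3648299 / 320000) * (1 - x) ^ 4 + (6055959 / 80000) * (x - 1 / 3) * (1 - x) ^ 3 + (23319657 / 160000) * (x - 1 / 3) ^ 2 * (1 - x) ^ 2 + (8480079 / 80000) * (x - 1 / 3) ^ 3 * (1 - x) + (7696539 / 320000) * (x - 1 / 3) ^ 4 := by positivity
    exact sub_nonneg.1 (e2.trans_eq (by ring))
  · have e2 : (0:ℝ) ≤ (1463 / 320) * (1 - x) ^ 4 + (4449 / 80) * (x - 1 / 3) * (1 - x) ^ 3 + (101169 / 800) * (x - 1 / 3) ^ 2 * (1 - x) ^ 2 + (40149 / 400) * (x - 1 / 3) ^ 3 * (1 - x) + (39123 / 1600) * (x - 1 / 3) ^ 4 := by positivity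
    exact sub_nonneg.1 (e2.trans_eq (by ring))
  · have e2 : (0:ℝ) ≤ (6969 / 800) * (1 - x) ^ 2 + (63 / 400) * (x - 1 / 3) * (1 - x) + (1557 / 800) * (x - 1 / 3) ^ 2 := by positivity
    exact sub_nonneg.1 (e2.trans_eq (by ring))
  · have e2 : (0:ℝ) ≤ (204 / 25) * (1 - x) ^ 2 + (1197 / 100) * (x - 1 / 3) * (1 - x) + (711 / 100) * (x - 1 / 3) ^ 2 := by positivity
    exact sub_nonneg.1 (e2.trans_eq (by ring))
  · have e2 : (0:ℝ) ≤ (367923 / 12800) * (1 - x) ^ 6 + (48753 / 400) * (x - 1 / 3) * (1 - x) ^ 5 + (112635 / 512) * (x - 1 / 3) ^ 2 * (1 - x) ^ 4 + (70281 / 320) * (x - 1 / 3) ^ 3 * (1 - x) ^ 3 + (301077 / 2560) * (x - 1 / 3) ^ 4 * (1 - x) ^ 2 + (38151 / 1600) * (x - 1 / 3) ^ 5 * (1 - x) + (6561 / 12800) * (x - 1 / 3) ^ 6 := by positivity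
    exact sub_nonneg.1 (e2.trans_eq (by ring))
  · have e2 : (0:ℝ) ≤ (203523 / 6400) * (1 - x) ^ 6 + (13347 / 80) * (x - 1 / 3) * (1 - x) ^ 5 + (478539 / 1280) * (x - 1 / 3) ^ 2 * (1 - x) ^ 4 + (71469 / 160) * (x - 1 / 3) ^ 3 * (1 - x) ^ 3 + (357453 / 1280) * (x - 1 / 3) ^ 4 * (1 - x) ^ 2 + (60021 / 800) * (x - 1 / 3) ^ 5 * (1 - x) + (6561 / 1280) * (x - 1 / 3) ^ 6 := by positivity
    exact sub_nonneg.1 (e2.trans_eq (by ring))
  · have e2 : (0:ℝ) ≤ (3897 / 5600) * (1 - x) ^ 7 + (55767 / 2240) * (x - 1 / 3) * (1 - x) ^ 6 + (243441 / 2240) * (x - 1 / 3) ^ 2 * (1 - x) ^ 5 + (41283 / 224) * (x - 1 / 3) ^ 3 * (1 - x) ^ 4 + (77193 / 560) * (x - 1 / 3) ^ 4 * (1 - x) ^ 3 + (450279 / 11200) * (x - 1 / 3) ^ 5 * (1 - x) ^ 2 + (6561 / 2240) * (x - 1 / 3) ^ 6 * (1 - x) := by positivity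
    exact sub_nonneg.1 (e2.trans_eq (by ring))

end Pool.Agent.HSmall
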