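import Pool.Agent.HSmall.K5
import Pool.Agent.HSmall.EndS
import Pool.Agent.HSmall.Wrap

/-!
# The pointwise inequality of order 5, `x ∈ [0, 1/2]`
-/

set_option autoImplicit false

namespace Pool.Agent.HSmall

open Polynomial Set Complex Pool.Agent.HHalf Pool.Agent.HStar Pool.Agent.HFin

theorem zone5A {N : ℕ} {L : Fin N → ℂ} (hL : ∀ a, ‖L a‖ ≤ 1) (hN : 6 ≤ N) {a0 : Fin N} {x : ℝ}
    (hx0 : 0 ≤ x) (hx1 : x ≤ 1 / 2) (hR : (1 + x) / 2 ≤ (L a0).re)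
    (htp : 21 / 4 ≤ ∑ a, (1 - (L a).re)) (htm : 3 ≤ ∑ a, (1 + (L a).re)) : PW L 5 x := by
  have hw : 0 ≤ 1 / 2 - x := by linarith
  have hs : 0 ≤ 1 - x := by linarith
  have hx0' : 0 ≤ x := by linarith
  have hx1' : x < 1 := by linarith
  have hE := ends5 hL hN (s := 1 - x) (by linarith) (by linarith : 2 * (1 - (L a0).re) ≤ 1 - x)
  refine pw5 hN hL hx0' hx1' htp htm
    (b1 := ((15 / 8) + (-15 / 8) * x + (15 / 4) * x ^ 2 + (5 / 4) * x ^ 3 + (-5 / 8) * x ^ 4 + (-3 / 8) * x ^ 5) + ((23 / 100)))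
    (b2 := (2 + 4 * x + (-10) * x ^ 2) + ((21 / 100)))
    (b3 := ((11 / 4) + (3 / 4) * x + (-21 / 4) * x ^ 2 + (55 / 4) * x ^ 3 + (-15 / 4) * x ^ 4 + (-63 / 4) * x ^ 5 + (9 / 4) * x ^ 6 + (21 / 4) * x ^ 7) + ((39 / 100)))
    (b4 := (2 + 4 * x + (-8) * x ^ 2 + (-4) * x ^ 3 + 5 * x ^ 4 + 2 * x ^ 6 + (-1) * x ^ 8) + ((9 / 50)))
    (b5 := ((15 / 8) + (-15 / 8) * x + (-5) * x ^ 2 + 5 * x ^ 3 + (19 / 4) * x ^ 4 + (-19 / 4) * x ^ 5 + (-2) * x ^ 6 + 2 * x ^ 7 + (3 / 8) * x ^ 8 + (-3 / 8) * x ^ 9) + ((6 / 25)))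
    (l2 := (87 / 100))
    (l3 := (3 / 5))
    (l4 := (9 / 20))
    (by
      have e2 : (0:ℝ) ≤ (1684 / 25) * (1 / 2 - x) ^ 5 + (1534 / 5) * x * (1 / 2 - x) ^ 4 + (2918 / 5) * x ^ 2 * (1 / 2 - x) ^ 3 + (2943 / 5) * x ^ 3 * (1 / 2 - x) ^ 2 + (6311 / 20) * x ^ 4 * (1 / 2 - x) + (14147 / 200) * x ^ 5 := by positivity
      exact e2.trans_eq (by ring))
    (by
      have e2 : (0:ℝ) ≤ (221 / 25) * (1 / 2 - x) ^ 2 + (642 / 25) * x * (1 / 2 - x) + (171 / 25) * x ^ 2 := by positivity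
      exact e2.trans_eq (by ring))
    (by
      have e2 : (0:ℝ) ≤ (10048 / 25) * (1 / 2 - x) ^ 7 + (71536 / 25) * x * (1 / 2 - x) ^ 6 + (214008 / 25) * x ^ 2 * (1 / 2 - x) ^ 5 + (70836 / 5) * x ^ 3 * (1 / 2 - x) ^ 4 + (70986 / 5) * x ^ 4 * (1 / 2 - x) ^ 3 + (216183 / 25) * x ^ 5 * (1 / 2 - x) ^ 2 + (146497 / 50) * x ^ 6 * (1 / 2 - x) + (41867 / 100) * x ^ 7 := by positivity
      exact e2.trans_eq (by ring))
    (by
      have e2 : (0:ℝ) ≤ (13952 / 25) * (1 / 2 - x) ^ 8 + (124416 / 25) * x * (1 / 2 - x) ^ 7 + (467456 / 25) * x ^ 2 * (1 / 2 - x) ^ 6 + (970112 / 25) * x ^ 3 * (1 / 2 - x) ^ 5 + (243728 / 5) * x ^ 4 * (1 / 2 - x) ^ 4 + (949312 / 25) * x ^ 5 * (1 / 2 - x) ^ 3 + (447656 / 25) * x ^ 6 * (1 / 2 - x) ^ 2 + (116816 / 25) * x ^ 7 * (1 / 2 - x) + (12927 / 25) * x ^ 8 := by positivity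
      exact e2.trans_eq (by ring))
    (by
      have e2 : (0:ℝ) ≤ (27072 / 25) * (1 / 2 - x) ^ 9 + (231648 / 25) * x * (1 / 2 - x) ^ 8 + (862592 / 25) * x ^ 2 * (1 / 2 - x) ^ 7 + (1834048 / 25) * x ^ 3 * (1 / 2 - x) ^ 6 + (2454872 / 25) * x ^ 4 * (1 / 2 - x) ^ 5 + (2148172 / 25) * x ^ 5 * (1 / 2 - x) ^ 4 + (1232048 / 25) * x ^ 6 * (1 / 2 - x) ^ 3 + (448192 / 25) * x ^ 7 * (1 / 2 - x) ^ 2 + (377067 / 100) * x ^ 8 * (1 / 2 - x) + (70251 / 200) * x ^ 9 := by positivity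
      exact e2.trans_eq (by ring))
    (by
      have e2 : (0:ℝ) ≤ (87 / 100) := by positivity
      exact e2.trans_eq (by ring))
    (by
      have e2 : (0:ℝ) ≤ (3 / 5) := by positivity
      exact e2.trans_eq (by ring))
    (by
      have e2 : (0:ℝ) ≤ (9 / 20) := by positivity
      exact e2.trans_eq (by ring))
    ?_ ?_ ?_ ?_ ?_ ?_ ?_ ?_ ?_ ?_ ?_ ?_
  · intro M hM
    have hM0 : 0 ≤ M := (abs_nonneg _).trans (hM 0 ⟨by norm_num, by norm_num⟩)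
    have hk1 : hv L 5 1 ≤ M := (le_abs_self _).trans (hM 1 ⟨by norm_num, le_rfl⟩)
    have hD : (0:ℝ) < (30 + 42 * (1 - x)) := by linarith
    have P3 : (30 + 42 * (1 - x)) * hv L 2 1 ≤ (2 + 65 / 2 * (1 - x)) * M :=
      hE.2.1.trans (mul_le_mul_of_nonneg_left hk1 (by linarith))
    have R3 : 0 ≤ hv L 2 1 := hv_one_nonneg hL 2
    have P4 : (30 + 42 * (1 - x)) * hv L 1 1 ≤ (12 * (1 - x)) * M :=
      hE.2.2.1.trans (mul_le_mul_of_nonneg_left hk1 (by linarith))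
    have R4 : 0 ≤ hv L 1 1 := hv_one_nonneg hL 1
    have P5 : (30 + 42 * (1 - x)) * hv L 0 1 ≤ (2 * (1 - x)) * M :=
      hE.2.2.2.trans (mul_le_mul_of_nonneg_left hk1 (by linarith))
    have R5 : 0 ≤ hv L 0 1 := hv_one_nonneg hL 0
    have S4 : 0 ≤ -hv L 1 (-1) := by simpa using hv_neg_one_nonneg hL 1
    have T4 : -hv L 1 (-1) ≤ (8 / 33) * M := by
      have h5 := neg_one' (k := 4) (N0 := 6) hL hN (by norm_num) (by norm_num) hM
      rw [show Nat.choose (2 * 6 - 1) 4 = 330 by decide, abs_of_nonpos (by linarith)] at h5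
      norm_num at h5
      linarith
    have S5 : 0 ≤ hv L 0 (-1) := by simpa using hv_neg_one_nonneg hL 0
    have T5 : hv L 0 (-1) ≤ (4 / 99) * M := by
      have h5 := neg_zero (k := 5) (N0 := 6) hL hN (by norm_num) hM
      rw [show Nat.choose (2 * 6) 5 = 792 by decide, abs_of_nonneg S5] at h5
      norm_num at h5
      linarith
    obtain ⟨k1, k2, k3, k4, k5⟩ := ker53 (h := hv L) (hseq_hv L) hM hx0 hx1
    refine ⟨abs_comb k1 (ub hD ?_) (ub hD ?_),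
      abs_comb k2 (ub hD ?_) (ub hD ?_),
      abs_comb k3 (ub hD ?_) (ub hD ?_),
      abs_comb k4 (ub hD ?_) (ub hD ?_),
      abs_comb0 k5 (hv_zero_nonneg L x) (ub hD ?_)⟩
    · have t0 : 0 ≤ ((1479 / 275) + (31 / 275) * x) * M := mul_nonneg (by
        have e2 : (0:ℝ) ≤ (2958 / 275) * (1 / 2 - x) + (2989 / 275) * x := by positivity
        exact e2.trans_eq (by ring)) hM0
      have t1 : 0 ≤ ((3 / 16)) * ((2 * (1 - x)) * M - (30 + 42 * (1 - x)) * hv L 0 1) :=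
        mul_nonneg (by
          have e2 : (0:ℝ) ≤ (3 / 16) := by positivity
          exact e2.trans_eq (by ring)) (sub_nonneg.2 P5)
      have t2 : 0 ≤ ((1 / 4)) * ((30 + 42 * (1 - x)) * hv L 1 1) :=
        mul_nonneg (by
          have e2 : (0:ℝ) ≤ (1 / 4) := by positivity
          exact e2.trans_eq (by ring)) (mul_nonneg hD.le R4)
      have t3 : 0 ≤ ((1 / 4)) * ((2 + 65 / 2 * (1 - x)) * M - (30 + 42 * (1 - x)) * hv L 2 1) :=
        mul_nonneg (by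
          have e2 : (0:ℝ) ≤ (1 / 4) := by positivity
          exact e2.trans_eq (by ring)) (sub_nonneg.2 P3)
      have t4 : 0 ≤ ((3 / 16)) * ((30 + 42 * (1 - x)) * hv L 0 (-1)) :=
        mul_nonneg (by
          have e2 : (0:ℝ) ≤ (3 / 16) := by positivity
          exact e2.trans_eq (by ring)) (mul_nonneg hD.le S5)
      have t5 : 0 ≤ ((1 / 8)) * ((30 + 42 * (1 - x)) * ((8 / 33) * M - (-hv L 1 (-1)))) :=
        mul_nonneg (by
          have e2 : (0:ℝ) ≤ (1 / 8) := by positivity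
          exact e2.trans_eq (by ring)) (mul_nonneg hD.le (sub_nonneg.2 T4))
      refine (add_nonneg (add_nonneg (add_nonneg (add_nonneg (add_nonneg t0 t1) t2) t3) t4) t5).trans_eq ?_
      ring
    · have t0 : 0 ≤ ((3579 / 275) + (-1744 / 275) * x) * M := mul_nonneg (by
        have e2 : (0:ℝ) ≤ (7158 / 275) * (1 / 2 - x) + (5414 / 275) * x := by positivity
        exact e2.trans_eq (by ring)) hM0
      have t1 : 0 ≤ ((3 / 16)) * ((30 + 42 * (1 - x)) * hv L 0 1) :=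
        mul_nonneg (by
          have e2 : (0:ℝ) ≤ (3 / 16) := by positivity
          exact e2.trans_eq (by ring)) (mul_nonneg hD.le R5)
      have t2 : 0 ≤ ((1 / 4)) * ((12 * (1 - x)) * M - (30 + 42 * (1 - x)) * hv L 1 1) :=
        mul_nonneg (by
          have e2 : (0:ℝ) ≤ (1 / 4) := by positivity
          exact e2.trans_eq (by ring)) (sub_nonneg.2 P4)
      have t3 : 0 ≤ ((1 / 4)) * ((30 + 42 * (1 - x)) * hv L 2 1) :=
        mul_nonneg (by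
          have e2 : (0:ℝ) ≤ (1 / 4) := by positivity
          exact e2.trans_eq (by ring)) (mul_nonneg hD.le R3)
      have t4 : 0 ≤ ((3 / 16)) * ((30 + 42 * (1 - x)) * ((4 / 99) * M - hv L 0 (-1))) :=
        mul_nonneg (by
          have e2 : (0:ℝ) ≤ (3 / 16) := by positivity
          exact e2.trans_eq (by ring)) (mul_nonneg hD.le (sub_nonneg.2 T5))
      have t5 : 0 ≤ ((1 / 8)) * ((30 + 42 * (1 - x)) * (-hv L 1 (-1))) :=
        mul_nonneg (by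
          have e2 : (0:ℝ) ≤ (1 / 8) := by positivity
          exact e2.trans_eq (by ring)) (mul_nonneg hD.le S4)
      refine (add_nonneg (add_nonneg (add_nonneg (add_nonneg (add_nonneg t0 t1) t2) t3) t4) t5).trans_eq ?_
      ring
    · have t0 : 0 ≤ ((3133 / 275) + (-54353 / 1650) * x + (863 / 33) * x ^ 2) * M := mul_nonneg (by
        have e2 : (0:ℝ) ≤ (12532 / 275) * (1 / 2 - x) ^ 2 + (20839 / 825) * x * (1 / 2 - x) + (146 / 25) * x ^ 2 := by positivity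
        exact e2.trans_eq (by ring)) hM0
      have t1 : 0 ≤ ((1 / 4) + (-1 / 2) * x) * ((30 + 42 * (1 - x)) * hv L 0 1) :=
        mul_nonneg (by
          have e2 : (0:ℝ) ≤ (1 / 2) * (1 / 2 - x) := by positivity
          exact e2.trans_eq (by ring)) (mul_nonneg hD.le R5)
      have t2 : 0 ≤ ((1 / 4) * x) * ((2 * (1 - x)) * M - (30 + 42 * (1 - x)) * hv L 0 1) :=
        mul_nonneg (by
          have e2 : (0:ℝ) ≤ (1 / 4) * x := by positivity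
          exact e2.trans_eq (by ring)) (sub_nonneg.2 P5)
      have t3 : 0 ≤ ((1 / 2) * x) * ((30 + 42 * (1 - x)) * hv L 1 1) :=
        mul_nonneg (by
          have e2 : (0:ℝ) ≤ (1 / 2) * x := by positivity
          exact e2.trans_eq (by ring)) (mul_nonneg hD.le R4)
      have t4 : 0 ≤ ((1 / 4) + (-1 / 2) * x) * ((12 * (1 - x)) * M - (30 + 42 * (1 - x)) * hv L 1 1) :=
        mul_nonneg (by
          have e2 : (0:ℝ) ≤ (1 / 2) * (1 / 2 - x) := by positivity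
          exact e2.trans_eq (by ring)) (sub_nonneg.2 P4)
      have t5 : 0 ≤ (1 * x) * ((2 + 65 / 2 * (1 - x)) * M - (30 + 42 * (1 - x)) * hv L 2 1) :=
        mul_nonneg (by
          have e2 : (0:ℝ) ≤ 1 * x := by positivity
          exact e2.trans_eq (by ring)) (sub_nonneg.2 P3)
      have t6 : 0 ≤ ((1 / 4) * x) * ((30 + 42 * (1 - x)) * hv L 0 (-1)) :=
        mul_nonneg (by
          have e2 : (0:ℝ) ≤ (1 / 4) * x := by positivity
          exact e2.trans_eq (by ring)) (mul_nonneg hD.le S5)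
      have t7 : 0 ≤ ((1 / 4) + (-1 / 2) * x) * ((30 + 42 * (1 - x)) * ((4 / 99) * M - hv L 0 (-1))) :=
        mul_nonneg (by
          have e2 : (0:ℝ) ≤ (1 / 2) * (1 / 2 - x) := by positivity
          exact e2.trans_eq (by ring)) (mul_nonneg hD.le (sub_nonneg.2 T5))
      have t8 : 0 ≤ ((1 / 4) + (-1 / 2) * x) * ((30 + 42 * (1 - x)) * (-hv L 1 (-1))) :=
        mul_nonneg (by
          have e2 : (0:ℝ) ≤ (1 / 2) * (1 / 2 - x) := by positivity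
          exact e2.trans_eq (by ring)) (mul_nonneg hD.le S4)
      refine (add_nonneg (add_nonneg (add_nonneg (add_nonneg (add_nonneg (add_nonneg (add_nonneg (add_nonneg t0 t1) t2) t3) t4) t5) t6) t7) t8).trans_eq ?_
      ring
    · have t0 : 0 ≤ ((5641 / 550) + (-763 / 275) * x + (1 / 3) * x ^ 2) * M := mul_nonneg (by
        have e2 : (0:ℝ) ≤ (11282 / 275) * (1 / 2 - x) ^ 2 + (21038 / 275) * x * (1 / 2 - x) + (29543 / 825) * x ^ 2 := by positivity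
        exact e2.trans_eq (by ring)) hM0
      have t1 : 0 ≤ ((1 / 4) * x) * ((30 + 42 * (1 - x)) * hv L 0 1) :=
        mul_nonneg (by
          have e2 : (0:ℝ) ≤ (1 / 4) * x := by positivity
          exact e2.trans_eq (by ring)) (mul_nonneg hD.le R5)
      have t2 : 0 ≤ ((1 / 4) + (-1 / 2) * x) * ((2 * (1 - x)) * M - (30 + 42 * (1 - x)) * hv L 0 1) :=
        mul_nonneg (by
          have e2 : (0:ℝ) ≤ (1 / 2) * (1 / 2 - x) := by positivity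
          exact e2.trans_eq (by ring)) (sub_nonneg.2 P5)
      have t3 : 0 ≤ ((1 / 4) + (-1 / 2) * x) * ((30 + 42 * (1 - x)) * hv L 1 1) :=
        mul_nonneg (by
          have e2 : (0:ℝ) ≤ (1 / 2) * (1 / 2 - x) := by positivity
          exact e2.trans_eq (by ring)) (mul_nonneg hD.le R4)
      have t4 : 0 ≤ ((1 / 2) * x) * ((12 * (1 - x)) * M - (30 + 42 * (1 - x)) * hv L 1 1) :=
        mul_nonneg (by
          have e2 : (0:ℝ) ≤ (1 / 2) * x := by positivity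
          exact e2.trans_eq (by ring)) (sub_nonneg.2 P4)
      have t5 : 0 ≤ (1 * x) * ((30 + 42 * (1 - x)) * hv L 2 1) :=
        mul_nonneg (by
          have e2 : (0:ℝ) ≤ 1 * x := by positivity
          exact e2.trans_eq (by ring)) (mul_nonneg hD.le R3)
      have t6 : 0 ≤ ((1 / 4) + (-1 / 2) * x) * ((30 + 42 * (1 - x)) * hv L 0 (-1)) :=
        mul_nonneg (by
          have e2 : (0:ℝ) ≤ (1 / 2) * (1 / 2 - x) := by positivity
          exact e2.trans_eq (by ring)) (mul_nonneg hD.le S5)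
      have t7 : 0 ≤ ((1 / 4) * x) * ((30 + 42 * (1 - x)) * ((4 / 99) * M - hv L 0 (-1))) :=
        mul_nonneg (by
          have e2 : (0:ℝ) ≤ (1 / 4) * x := by positivity
          exact e2.trans_eq (by ring)) (mul_nonneg hD.le (sub_nonneg.2 T5))
      have t8 : 0 ≤ ((1 / 4) + (-1 / 2) * x) * ((30 + 42 * (1 - x)) * ((8 / 33) * M - (-hv L 1 (-1)))) :=
        mul_nonneg (by
          have e2 : (0:ℝ) ≤ (1 / 2) * (1 / 2 - x) := by positivity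
          exact e2.trans_eq (by ring)) (mul_nonneg hD.le (sub_nonneg.2 T4))
      refine (add_nonneg (add_nonneg (add_nonneg (add_nonneg (add_nonneg (add_nonneg (add_nonneg (add_nonneg t0 t1) t2) t3) t4) t5) t6) t7) t8).trans_eq ?_
      ring
    · have t0 : 0 ≤ ((4947 / 275) + (-9859 / 550) * x + (347 / 11) * x ^ 2 + (-219 / 11) * x ^ 3) * M := mul_nonneg (by
        have e2 : (0:ℝ) ≤ (39576 / 275) * (1 / 2 - x) ^ 3 + (19802 / 55) * x * (1 / 2 - x) ^ 2 + (96642 / 275) * x ^ 2 * (1 / 2 - x) + (31733 / 275) * x ^ 3 := by positivity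
        exact e2.trans_eq (by ring)) hM0
      have t1 : 0 ≤ ((3 / 8) + (3 / 4) * x + (-9 / 8) * x ^ 2) * ((30 + 42 * (1 - x)) * hv L 0 1) :=
        mul_nonneg (by
          have e2 : (0:ℝ) ≤ (3 / 2) * (1 / 2 - x) ^ 2 + (9 / 2) * x * (1 / 2 - x) + (15 / 8) * x ^ 2 := by positivity
          exact e2.trans_eq (by ring)) (mul_nonneg hD.le R5)
      have t2 : 0 ≤ ((3 / 4) + (3 / 4) * x + (-3 / 2) * x ^ 2) * ((12 * (1 - x)) * M - (30 + 42 * (1 - x)) * hv L 1 1) :=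
        mul_nonneg (by
          have e2 : (0:ℝ) ≤ 3 * (1 / 2 - x) ^ 2 + (15 / 2) * x * (1 / 2 - x) + 3 * x ^ 2 := by positivity
          exact e2.trans_eq (by ring)) (sub_nonneg.2 P4)
      have t3 : 0 ≤ ((1 / 2) + (-3 / 2) * x ^ 2) * ((30 + 42 * (1 - x)) * hv L 2 1) :=
        mul_nonneg (by
          have e2 : (0:ℝ) ≤ 2 * (1 / 2 - x) ^ 2 + 4 * x * (1 / 2 - x) + (1 / 2) * x ^ 2 := by positivity
          exact e2.trans_eq (by ring)) (mul_nonneg hD.le R3)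
      have t4 : 0 ≤ ((3 / 8) + (3 / 4) * x + (-9 / 8) * x ^ 2) * ((30 + 42 * (1 - x)) * ((4 / 99) * M - hv L 0 (-1))) :=
        mul_nonneg (by
          have e2 : (0:ℝ) ≤ (3 / 2) * (1 / 2 - x) ^ 2 + (9 / 2) * x * (1 / 2 - x) + (15 / 8) * x ^ 2 := by positivity
          exact e2.trans_eq (by ring)) (mul_nonneg hD.le (sub_nonneg.2 T5))
      have t5 : 0 ≤ ((3 / 4) * x + (-3 / 4) * x ^ 2) * ((30 + 42 * (1 - x)) * (-hv L 1 (-1))) :=
        mul_nonneg (by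
          have e2 : (0:ℝ) ≤ (3 / 2) * x * (1 / 2 - x) + (3 / 4) * x ^ 2 := by positivity
          exact e2.trans_eq (by ring)) (mul_nonneg hD.le S4)
      refine (add_nonneg (add_nonneg (add_nonneg (add_nonneg (add_nonneg t0 t1) t2) t3) t4) t5).trans_eq ?_
      ring
    · have t0 : 0 ≤ ((252 / 25) + (-3842 / 275) * x + (1677 / 22) * x ^ 2 + (-645 / 11) * x ^ 3) * M := mul_nonneg (by
        have e2 : (0:ℝ) ≤ (2016 / 25) * (1 / 2 - x) ^ 3 + (10232 / 55) * x * (1 / 2 - x) ^ 2 + (77717 / 275) * x ^ 2 * (1 / 2 - x) + (32608 / 275) * x ^ 3 := by positivity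
        exact e2.trans_eq (by ring)) hM0
      have t1 : 0 ≤ ((3 / 8) + (3 / 4) * x + (-9 / 8) * x ^ 2) * ((2 * (1 - x)) * M - (30 + 42 * (1 - x)) * hv L 0 1) :=
        mul_nonneg (by
          have e2 : (0:ℝ) ≤ (3 / 2) * (1 / 2 - x) ^ 2 + (9 / 2) * x * (1 / 2 - x) + (15 / 8) * x ^ 2 := by positivity
          exact e2.trans_eq (by ring)) (sub_nonneg.2 P5)
      have t2 : 0 ≤ ((3 / 4) + (3 / 4) * x + (-3 / 2) * x ^ 2) * ((30 + 42 * (1 - x)) * hv L 1 1) :=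
        mul_nonneg (by
          have e2 : (0:ℝ) ≤ 3 * (1 / 2 - x) ^ 2 + (15 / 2) * x * (1 / 2 - x) + 3 * x ^ 2 := by positivity
          exact e2.trans_eq (by ring)) (mul_nonneg hD.le R4)
      have t3 : 0 ≤ ((1 / 2) + (-3 / 2) * x ^ 2) * ((2 + 65 / 2 * (1 - x)) * M - (30 + 42 * (1 - x)) * hv L 2 1) :=
        mul_nonneg (by
          have e2 : (0:ℝ) ≤ 2 * (1 / 2 - x) ^ 2 + 4 * x * (1 / 2 - x) + (1 / 2) * x ^ 2 := by positivity
          exact e2.trans_eq (by ring)) (sub_nonneg.2 P3)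
      have t4 : 0 ≤ ((3 / 8) + (3 / 4) * x + (-9 / 8) * x ^ 2) * ((30 + 42 * (1 - x)) * hv L 0 (-1)) :=
        mul_nonneg (by
          have e2 : (0:ℝ) ≤ (3 / 2) * (1 / 2 - x) ^ 2 + (9 / 2) * x * (1 / 2 - x) + (15 / 8) * x ^ 2 := by positivity
          exact e2.trans_eq (by ring)) (mul_nonneg hD.le S5)
      have t5 : 0 ≤ ((3 / 4) * x + (-3 / 4) * x ^ 2) * ((30 + 42 * (1 - x)) * ((8 / 33) * M - (-hv L 1 (-1)))) :=
        mul_nonneg (by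
          have e2 : (0:ℝ) ≤ (3 / 2) * x * (1 / 2 - x) + (3 / 4) * x ^ 2 := by positivity
          exact e2.trans_eq (by ring)) (mul_nonneg hD.le (sub_nonneg.2 T4))
      refine (add_nonneg (add_nonneg (add_nonneg (add_nonneg (add_nonneg t0 t1) t2) t3) t4) t5).trans_eq ?_
      ring
    · have t0 : 0 ≤ ((3903 / 550) + (-8533 / 550) * x + (585 / 22) * x ^ 2 + (-213 / 11) * x ^ 3 + (145 / 22) * x ^ 4) * M := mul_nonneg (by
        have e2 : (0:ℝ) ≤ (31224 / 275) * (1 / 2 - x) ^ 4 + (90764 / 275) * x * (1 / 2 - x) ^ 3 + (114198 / 275) * x ^ 2 * (1 / 2 - x) ^ 2 + (2814 / 11) * x ^ 3 * (1 / 2 - x) + (35009 / 550) * x ^ 4 := by positivity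
        exact e2.trans_eq (by ring)) hM0
      have t1 : 0 ≤ ((3 / 4) + (-3 / 4) * x + (-3 / 4) * x ^ 2 + (3 / 4) * x ^ 3) * ((2 * (1 - x)) * M - (30 + 42 * (1 - x)) * hv L 0 1) :=
        mul_nonneg (by
          have e2 : (0:ℝ) ≤ 6 * (1 / 2 - x) ^ 3 + 15 * x * (1 / 2 - x) ^ 2 + (21 / 2) * x ^ 2 * (1 / 2 - x) + (9 / 4) * x ^ 3 := by positivity
          exact e2.trans_eq (by ring)) (sub_nonneg.2 P5)
      have t2 : 0 ≤ ((1 / 4) + (-3 / 8) * x + (-3 / 4) * x ^ 2 + 1 * x ^ 3) * ((30 + 42 * (1 - x)) * hv L 1 1) :=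
        mul_nonneg (by
          have e2 : (0:ℝ) ≤ 2 * (1 / 2 - x) ^ 3 + (9 / 2) * x * (1 / 2 - x) ^ 2 + (3 / 2) * x ^ 2 * (1 / 2 - x) := by positivity
          exact e2.trans_eq (by ring)) (mul_nonneg hD.le R4)
      have t3 : 0 ≤ ((9 / 8) * x) * ((12 * (1 - x)) * M - (30 + 42 * (1 - x)) * hv L 1 1) :=
        mul_nonneg (by
          have e2 : (0:ℝ) ≤ (9 / 8) * x := by positivity
          exact e2.trans_eq (by ring)) (sub_nonneg.2 P4)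
      have t4 : 0 ≤ (1 * x + (-1) * x ^ 3) * ((30 + 42 * (1 - x)) * hv L 2 1) :=
        mul_nonneg (by
          have e2 : (0:ℝ) ≤ 4 * x * (1 / 2 - x) ^ 2 + 8 * x ^ 2 * (1 / 2 - x) + 3 * x ^ 3 := by positivity
          exact e2.trans_eq (by ring)) (mul_nonneg hD.le R3)
      have t5 : 0 ≤ ((3 / 4) + (-3 / 4) * x + (-3 / 4) * x ^ 2 + (3 / 4) * x ^ 3) * ((30 + 42 * (1 - x)) * hv L 0 (-1)) :=
        mul_nonneg (by
          have e2 : (0:ℝ) ≤ 6 * (1 / 2 - x) ^ 3 + 15 * x * (1 / 2 - x) ^ 2 + (21 / 2) * x ^ 2 * (1 / 2 - x) + (9 / 4) * x ^ 3 := by positivity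
          exact e2.trans_eq (by ring)) (mul_nonneg hD.le S5)
      have t6 : 0 ≤ ((1 / 4) + (-3 / 4) * x ^ 2 + (1 / 2) * x ^ 3) * ((30 + 42 * (1 - x)) * ((8 / 33) * M - (-hv L 1 (-1)))) :=
        mul_nonneg (by
          have e2 : (0:ℝ) ≤ 2 * (1 / 2 - x) ^ 3 + 6 * x * (1 / 2 - x) ^ 2 + (9 / 2) * x ^ 2 * (1 / 2 - x) + 1 * x ^ 3 := by positivity
          exact e2.trans_eq (by ring)) (mul_nonneg hD.le (sub_nonneg.2 T4))
      refine (add_nonneg (add_nonneg (add_nonneg (add_nonneg (add_nonneg (add_nonneg t0 t1) t2) t3) t4) t5) t6).trans_eq ?_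
      ring
    · have t0 : 0 ≤ ((2139 / 275) + (-16283 / 550) * x + (603 / 22) * x ^ 2 + (683 / 22) * x ^ 3 + (-687 / 22) * x ^ 4) * M := mul_nonneg (by
        have e2 : (0:ℝ) ≤ (34224 / 275) * (1 / 2 - x) ^ 4 + (6524 / 25) * x * (1 / 2 - x) ^ 3 + (40098 / 275) * x ^ 2 * (1 / 2 - x) ^ 2 + (755 / 11) * x ^ 3 * (1 / 2 - x) + (15459 / 550) * x ^ 4 := by positivity
        exact e2.trans_eq (by ring)) hM0
      have t1 : 0 ≤ ((3 / 4) + (-3 / 4) * x + (-3 / 4) * x ^ 2 + (3 / 4) * x ^ 3) * ((30 + 42 * (1 - x)) * hv L 0 1) :=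
        mul_nonneg (by
          have e2 : (0:ℝ) ≤ 6 * (1 / 2 - x) ^ 3 + 15 * x * (1 / 2 - x) ^ 2 + (21 / 2) * x ^ 2 * (1 / 2 - x) + (9 / 4) * x ^ 3 := by positivity
          exact e2.trans_eq (by ring)) (mul_nonneg hD.le R5)
      have t2 : 0 ≤ (1 * x + (3 / 4) * x ^ 2 + (-1) * x ^ 3) * ((30 + 42 * (1 - x)) * hv L 1 1) :=
        mul_nonneg (by
          have e2 : (0:ℝ) ≤ 4 * x * (1 / 2 - x) ^ 2 + (19 / 2) * x ^ 2 * (1 / 2 - x) + (9 / 2) * x ^ 3 := by positivity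
          exact e2.trans_eq (by ring)) (mul_nonneg hD.le R4)
      have t3 : 0 ≤ ((1 / 4) + (-1 / 2) * x) * ((12 * (1 - x)) * M - (30 + 42 * (1 - x)) * hv L 1 1) :=
        mul_nonneg (by
          have e2 : (0:ℝ) ≤ (1 / 2) * (1 / 2 - x) := by positivity
          exact e2.trans_eq (by ring)) (sub_nonneg.2 P4)
      have t4 : 0 ≤ (1 * x + (-1) * x ^ 3) * ((2 + 65 / 2 * (1 - x)) * M - (30 + 42 * (1 - x)) * hv L 2 1) :=
        mul_nonneg (by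
          have e2 : (0:ℝ) ≤ 4 * x * (1 / 2 - x) ^ 2 + 8 * x ^ 2 * (1 / 2 - x) + 3 * x ^ 3 := by positivity
          exact e2.trans_eq (by ring)) (sub_nonneg.2 P3)
      have t5 : 0 ≤ ((3 / 4) + (-3 / 4) * x + (-3 / 4) * x ^ 2 + (3 / 4) * x ^ 3) * ((30 + 42 * (1 - x)) * ((4 / 99) * M - hv L 0 (-1))) :=
        mul_nonneg (by
          have e2 : (0:ℝ) ≤ 6 * (1 / 2 - x) ^ 3 + 15 * x * (1 / 2 - x) ^ 2 + (21 / 2) * x ^ 2 * (1 / 2 - x) + (9 / 4) * x ^ 3 := by positivity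
          exact e2.trans_eq (by ring)) (mul_nonneg hD.le (sub_nonneg.2 T5))
      have t6 : 0 ≤ ((1 / 4) + (-3 / 4) * x ^ 2 + (1 / 2) * x ^ 3) * ((30 + 42 * (1 - x)) * (-hv L 1 (-1))) :=
        mul_nonneg (by
          have e2 : (0:ℝ) ≤ 2 * (1 / 2 - x) ^ 3 + 6 * x * (1 / 2 - x) ^ 2 + (9 / 2) * x ^ 2 * (1 / 2 - x) + 1 * x ^ 3 := by positivity
          exact e2.trans_eq (by ring)) (mul_nonneg hD.le S4)
      refine (add_nonneg (add_nonneg (add_nonneg (add_nonneg (add_nonneg (add_nonneg t0 t1) t2) t3) t4) t5) t6).trans_eq ?_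
      ring
    · have t0 : 0 ≤ ((1752 / 275) + (1043 / 1650) * x + (377 / 22) * x ^ 2 + (-365 / 22) * x ^ 3 + (-563 / 66) * x ^ 4 + (90 / 11) * x ^ 5) * M := mul_nonneg (by
        have e2 : (0:ℝ) ≤ (56064 / 275) * (1 / 2 - x) ^ 5 + (849304 / 825) * x * (1 / 2 - x) ^ 4 + (1828396 / 825) * x ^ 2 * (1 / 2 - x) ^ 3 + (672178 / 275) * x ^ 3 * (1 / 2 - x) ^ 2 + (1090061 / 825) * x ^ 4 * (1 / 2 - x) + (227561 / 825) * x ^ 5 := by positivity
        exact e2.trans_eq (by ring)) hM0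
      have t1 : 0 ≤ ((11 / 16) + (3 / 4) * x + (-3 / 8) * x ^ 2 + (-1 / 4) * x ^ 3 + (3 / 16) * x ^ 4) * ((2 * (1 - x)) * M - (30 + 42 * (1 - x)) * hv L 0 1) :=
        mul_nonneg (by
          have e2 : (0:ℝ) ≤ 11 * (1 / 2 - x) ^ 4 + 50 * x * (1 / 2 - x) ^ 3 + (165 / 2) * x ^ 2 * (1 / 2 - x) ^ 2 + (117 / 2) * x ^ 3 * (1 / 2 - x) + (243 / 16) * x ^ 4 := by positivity
          exact e2.trans_eq (by ring)) (sub_nonneg.2 P5)
      have t2 : 0 ≤ ((1 / 2) + (1 / 4) * x + (-3 / 4) * x ^ 2 + (-1 / 4) * x ^ 3 + (1 / 4) * x ^ 4) * ((30 + 42 * (1 - x)) * hv L 1 1) :=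
        mul_nonneg (by
          have e2 : (0:ℝ) ≤ 8 * (1 / 2 - x) ^ 4 + 34 * x * (1 / 2 - x) ^ 3 + 51 * x ^ 2 * (1 / 2 - x) ^ 2 + (63 / 2) * x ^ 3 * (1 / 2 - x) + (27 / 4) * x ^ 4 := by positivity
          exact e2.trans_eq (by ring)) (mul_nonneg hD.le R4)
      have t3 : 0 ≤ ((1 / 4) + (-1 / 2) * x ^ 2 + (1 / 4) * x ^ 4) * ((2 + 65 / 2 * (1 - x)) * M - (30 + 42 * (1 - x)) * hv L 2 1) :=
        mul_nonneg (by
          have e2 : (0:ℝ) ≤ 4 * (1 / 2 - x) ^ 4 + 16 * x * (1 / 2 - x) ^ 3 + 22 * x ^ 2 * (1 / 2 - x) ^ 2 + 12 * x ^ 3 * (1 / 2 - x) + (9 / 4) * x ^ 4 := by positivity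
          exact e2.trans_eq (by ring)) (sub_nonneg.2 P3)
      have t4 : 0 ≤ ((5 / 16) + (-3 / 4) * x + (3 / 8) * x ^ 2 + (1 / 4) * x ^ 3 + (-3 / 16) * x ^ 4) * ((30 + 42 * (1 - x)) * ((4 / 99) * M - hv L 0 (-1))) :=
        mul_nonneg (by
          have e2 : (0:ℝ) ≤ 5 * (1 / 2 - x) ^ 4 + 14 * x * (1 / 2 - x) ^ 3 + (27 / 2) * x ^ 2 * (1 / 2 - x) ^ 2 + (11 / 2) * x ^ 3 * (1 / 2 - x) + (13 / 16) * x ^ 4 := by positivity
          exact e2.trans_eq (by ring)) (mul_nonneg hD.le (sub_nonneg.2 T5))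
      have t5 : 0 ≤ ((1 / 8) + (-1 / 4) * x + (1 / 4) * x ^ 3 + (-1 / 8) * x ^ 4) * ((30 + 42 * (1 - x)) * (-hv L 1 (-1))) :=
        mul_nonneg (by
          have e2 : (0:ℝ) ≤ 2 * (1 / 2 - x) ^ 4 + 6 * x * (1 / 2 - x) ^ 3 + 6 * x ^ 2 * (1 / 2 - x) ^ 2 + (5 / 2) * x ^ 3 * (1 / 2 - x) + (3 / 8) * x ^ 4 := by positivity
          exact e2.trans_eq (by ring)) (mul_nonneg hD.le S4)
      refine (add_nonneg (add_nonneg (add_nonneg (add_nonneg (add_nonneg t0 t1) t2) t3) t4) t5).trans_eq ?_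
      ring
  · have e2 : (0:ℝ) ≤ (11167 / 100) * (1 / 2 - x) ^ 5 + (11507 / 20) * x * (1 / 2 - x) ^ 4 + (100973 / 90) * x ^ 2 * (1 / 2 - x) ^ 3 + (30611 / 30) * x ^ 3 * (1 / 2 - x) ^ 2 + (25231 / 60) * x ^ 4 * (1 / 2 - x) + (13307 / 225) * x ^ 5 := by positivity
    exact sub_nonneg.1 (e2.trans_eq (by ring))
  · have e2 : (0:ℝ) ≤ (948 / 25) * (1 / 2 - x) ^ 5 + (3724 / 15) * x * (1 / 2 - x) ^ 4 + (24799 / 45) * x ^ 2 * (1 / 2 - x) ^ 3 + (7993 / 15) * x ^ 3 * (1 / 2 - x) ^ 2 + (6553 / 30) * x ^ 4 * (1 / 2 - x) + (24353 / 900) * x ^ 5 := by positivity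
    exact sub_nonneg.1 (e2.trans_eq (by ring))
  · have e2 : (0:ℝ) ≤ (11967 / 100) * (1 / 2 - x) ^ 5 + (41081 / 60) * x * (1 / 2 - x) ^ 4 + (133133 / 90) * x ^ 2 * (1 / 2 - x) ^ 3 + (45491 / 30) * x ^ 3 * (1 / 2 - x) ^ 2 + (14757 / 20) * x ^ 4 * (1 / 2 - x) + (30707 / 225) * x ^ 5 := by positivity
    exact sub_nonneg.1 (e2.trans_eq (by ring))
  · have e2 : (0:ℝ) ≤ (148 / 25) * (1 / 2 - x) ^ 5 + (788 / 5) * x * (1 / 2 - x) ^ 4 + (22879 / 45) * x ^ 2 * (1 / 2 - x) ^ 3 + (9433 / 15) * x ^ 3 * (1 / 2 - x) ^ 2 + (10073 / 30) * x ^ 4 * (1 / 2 - x) + (57953 / 900) * x ^ 5 := by positivity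
    exact sub_nonneg.1 (e2.trans_eq (by ring))
  · have e2 : (0:ℝ) ≤ (851 / 50) * (1 / 2 - x) ^ 2 + (867 / 50) * x * (1 / 2 - x) + (258 / 25) * x ^ 2 := by positivity
    exact sub_nonneg.1 (e2.trans_eq (by ring))
  · have e2 : (0:ℝ) ≤ (68 / 25) * (1 / 2 - x) ^ 3 + (13 / 5) * x * (1 / 2 - x) ^ 2 + (426 / 25) * x ^ 2 * (1 / 2 - x) + (429 / 25) * x ^ 3 := by positivity
    exact sub_nonneg.1 (e2.trans_eq (by ring))
  · have e2 : (0:ℝ) ≤ (10784 / 25) * (1 / 2 - x) ^ 7 + (67568 / 25) * x * (1 / 2 - x) ^ 6 + (181056 / 25) * x ^ 2 * (1 / 2 - x) ^ 5 + 10548 * x ^ 3 * (1 / 2 - x) ^ 4 + (43782 / 5) * x ^ 4 * (1 / 2 - x) ^ 3 + (99609 / 25) * x ^ 5 * (1 / 2 - x) ^ 2 + (43631 / 50) * x ^ 6 * (1 / 2 - x) + (6229 / 100) * x ^ 7 := by positivity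
    exact sub_nonneg.1 (e2.trans_eq (by ring))
  · have e2 : (0:ℝ) ≤ (2144 / 25) * (1 / 2 - x) ^ 7 + (17648 / 25) * x * (1 / 2 - x) ^ 6 + (62976 / 25) * x ^ 2 * (1 / 2 - x) ^ 5 + 4788 * x ^ 3 * (1 / 2 - x) ^ 4 + (25542 / 5) * x ^ 4 * (1 / 2 - x) ^ 3 + (76569 / 25) * x ^ 5 * (1 / 2 - x) ^ 2 + (49391 / 50) * x ^ 6 * (1 / 2 - x) + (13909 / 100) * x ^ 7 := by positivity
    exact sub_nonneg.1 (e2.trans_eq (by ring))
  · have e2 : (0:ℝ) ≤ (28768 / 25) * (1 / 2 - x) ^ 8 + (204384 / 25) * x * (1 / 2 - x) ^ 7 + (634144 / 25) * x ^ 2 * (1 / 2 - x) ^ 6 + (1127008 / 25) * x ^ 3 * (1 / 2 - x) ^ 5 + (252112 / 5) * x ^ 4 * (1 / 2 - x) ^ 4 + (912608 / 25) * x ^ 5 * (1 / 2 - x) ^ 3 + (418744 / 25) * x ^ 6 * (1 / 2 - x) ^ 2 + (111184 / 25) * x ^ 7 * (1 / 2 - x) + (12993 / 25) * x ^ 8 := by positivity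
    exact sub_nonneg.1 (e2.trans_eq (by ring))
  · have e2 : (0:ℝ) ≤ (15808 / 25) * (1 / 2 - x) ^ 8 + (120864 / 25) * x * (1 / 2 - x) ^ 7 + (412384 / 25) * x ^ 2 * (1 / 2 - x) ^ 6 + (824608 / 25) * x ^ 3 * (1 / 2 - x) ^ 5 + (211792 / 5) * x ^ 4 * (1 / 2 - x) ^ 4 + (892448 / 25) * x ^ 5 * (1 / 2 - x) ^ 3 + (479224 / 25) * x ^ 6 * (1 / 2 - x) ^ 2 + (148624 / 25) * x ^ 7 * (1 / 2 - x) + (20193 / 25) * x ^ 8 := by positivity
    exact sub_nonneg.1 (e2.trans_eq (by ring))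
  · have e2 : (0:ℝ) ≤ (1728 / 25) * (1 / 2 - x) ^ 9 + (27552 / 25) * x * (1 / 2 - x) ^ 8 + (167008 / 25) * x ^ 2 * (1 / 2 - x) ^ 7 + (534752 / 25) * x ^ 3 * (1 / 2 - x) ^ 6 + (1022728 / 25) * x ^ 4 * (1 / 2 - x) ^ 5 + (1228628 / 25) * x ^ 5 * (1 / 2 - x) ^ 4 + (935152 / 25) * x ^ 6 * (1 / 2 - x) ^ 3 + (437408 / 25) * x ^ 7 * (1 / 2 - x) ^ 2 + (458133 / 100) * x ^ 8 * (1 / 2 - x) + (102549 / 200) * x ^ 9 := by positivity
    exact sub_nonneg.1 (e2.trans_eq (by ring))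

end Pool.Agent.HSmall
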