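import Pool.Agent.HSmall.K5
import Pool.Agent.HSmall.EndS
import Pool.Agent.HSmall.Wrap

/-!
# The pointwise inequality of order 5, `x ∈ [1/2, 1]`
-/

set_option autoImplicit false

namespace Pool.Agent.HSmall

open Polynomial Set Complex Pool.Agent.HHalf Pool.Agent.HStar Pool.Agent.HFin

theorem zone5B {N : ℕ} {L : Fin N → ℂ} (hL : ∀ a, ‖L a‖ ≤ 1) (hN : 6 ≤ N) {a0 : Fin N} {x : ℝ}
    (hx0 : 1 / 2 ≤ x) (hx1 : x < 1) (hR : (1 + x) / 2 ≤ (L a0).re)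
    (htp : 21 / 4 ≤ ∑ a, (1 - (L a).re)) (htm : 3 ≤ ∑ a, (1 + (L a).re)) : PW L 5 x := by
  have hu : 0 ≤ x - 1 / 2 := by linarith
  have hw : 0 ≤ 1 - x := by linarith
  have hx0' : 0 ≤ x := by linarith
  have hx1' : x < 1 := by linarith
  have hE := ends5 hL hN (s := 1 - x) (by linarith) (by linarith : 2 * (1 - (L a0).re) ≤ 1 - x)
  refine pw5 hN hL hx0' hx1' htp htm
    (b1 := ((25 / 8) + (-35 / 8) * x + (5 / 4) * x ^ 2 + (5 / 4) * x ^ 3 + (5 / 8) * x ^ 4 + (1 / 8) * x ^ 5) + ((33 / 50) + (-23 / 50) * x))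
    (b2 := ((-2) + 12 * x + (-10) * x ^ 2) + ((39 / 100)))
    (b3 := ((3 / 4) + 12 * x + (-71 / 4) * x ^ 2 + (-15 / 2) * x ^ 3 + (45 / 4) * x ^ 4 + 5 * x ^ 5 + (-9 / 4) * x ^ 6 + (-3 / 2) * x ^ 7) + ((23 / 20) + (-21 / 20) * x))
    (b4 := (3 + 4 * x + (-21) * x ^ 2 + 4 * x ^ 3 + 20 * x ^ 4 + (-13) * x ^ 6 + 3 * x ^ 8) + (2 + (-18 / 5) * x + (8 / 5) * x ^ 2))
    (b5 := ((25 / 8) + (-55 / 8) * x + (-5 / 2) * x ^ 2 + (25 / 2) * x ^ 3 + (-1 / 4) * x ^ 4 + (-37 / 4) * x ^ 5 + (-1 / 2) * x ^ 6 + (9 / 2) * x ^ 7 + (1 / 8) * x ^ 8 + (-7 / 8) * x ^ 9) + ((7 / 15) + (-13 / 15) * x + (2 / 5) * x ^ 2))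
    (l2 := (9 / 10))
    (l3 := (1 / 2))
    (l4 := (3 / 20))
    (by
      have e2 : (0:ℝ) ≤ (12027 / 200) * (1 - x) ^ 5 + (13197 / 50) * (x - 1 / 2) * (1 - x) ^ 4 + (12204 / 25) * (x - 1 / 2) ^ 2 * (1 - x) ^ 3 + (12336 / 25) * (x - 1 / 2) ^ 3 * (1 - x) ^ 2 + (6984 / 25) * (x - 1 / 2) ^ 4 * (1 - x) + (352 / 5) * (x - 1 / 2) ^ 5 := by positivity
      exact e2.trans_eq (by ring))
    (by
      have e2 : (0:ℝ) ≤ (189 / 25) * (1 - x) ^ 2 + (478 / 25) * (x - 1 / 2) * (1 - x) + (39 / 25) * (x - 1 / 2) ^ 2 := by positivity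
      exact e2.trans_eq (by ring))
    (by
      have e2 : (0:ℝ) ≤ 360 * (1 - x) ^ 7 + (21473 / 10) * (x - 1 / 2) * (1 - x) ^ 6 + (25184 / 5) * (x - 1 / 2) ^ 2 * (1 - x) ^ 5 + 5872 * (x - 1 / 2) ^ 3 * (1 - x) ^ 4 + 3536 * (x - 1 / 2) ^ 4 * (1 - x) ^ 3 + 1056 * (x - 1 / 2) ^ 5 * (1 - x) ^ 2 + (784 / 5) * (x - 1 / 2) ^ 6 * (1 - x) + (64 / 5) * (x - 1 / 2) ^ 7 := by positivity
      exact e2.trans_eq (by ring))
    (by
      have e2 : (0:ℝ) ≤ (2443 / 5) * (1 - x) ^ 8 + (14264 / 5) * (x - 1 / 2) * (1 - x) ^ 7 + (33276 / 5) * (x - 1 / 2) ^ 2 * (1 - x) ^ 6 + 7920 * (x - 1 / 2) ^ 3 * (1 - x) ^ 5 + 5168 * (x - 1 / 2) ^ 4 * (1 - x) ^ 4 + (9728 / 5) * (x - 1 / 2) ^ 5 * (1 - x) ^ 3 + (2304 / 5) * (x - 1 / 2) ^ 6 * (1 - x) ^ 2 + (256 / 5) * (x - 1 / 2) ^ 7 * (1 - x) := by positivity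
      exact e2.trans_eq (by ring))
    (by
      have e2 : (0:ℝ) ≤ (29477 / 120) * (1 - x) ^ 9 + (42463 / 30) * (x - 1 / 2) * (1 - x) ^ 8 + (50656 / 15) * (x - 1 / 2) ^ 2 * (1 - x) ^ 7 + (66296 / 15) * (x - 1 / 2) ^ 3 * (1 - x) ^ 6 + (10928 / 3) * (x - 1 / 2) ^ 4 * (1 - x) ^ 5 + (31424 / 15) * (x - 1 / 2) ^ 5 * (1 - x) ^ 4 + (12544 / 15) * (x - 1 / 2) ^ 6 * (1 - x) ^ 3 + (2816 / 15) * (x - 1 / 2) ^ 7 * (1 - x) ^ 2 + (256 / 15) * (x - 1 / 2) ^ 8 * (1 - x) := by positivity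
      exact e2.trans_eq (by ring))
    (by
      have e2 : (0:ℝ) ≤ (9 / 10) := by positivity
      exact e2.trans_eq (by ring))
    (by
      have e2 : (0:ℝ) ≤ (1 / 2) := by positivity
      exact e2.trans_eq (by ring))
    (by
      have e2 : (0:ℝ) ≤ (3 / 20) := by positivity
      exact e2.trans_eq (by ring))
    ?_ ?_ ?_ ?_ ?_ ?_ ?_ ?_ ?_ ?_ ?_ ?_
  · intro M hM
    have hM0 : 0 ≤ M := (abs_nonneg _).trans (hM 0 ⟨by norm_num, by norm_num⟩)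
    have hk1 : hv L 5 1 ≤ M := (le_abs_self _).trans (hM 1 ⟨by norm_num, le_rfl⟩)
    have hD : (0:ℝ) < (30 + 42 * (1 - x)) := by linarith
    have P2 : (30 + 42 * (1 - x)) * hv L 3 1 ≤ (10 + 105 / 2 * (1 - x)) * M :=
      hE.1.trans (mul_le_mul_of_nonneg_left hk1 (by linarith))
    have R2 : 0 ≤ hv L 3 1 := hv_one_nonneg hL 3
    have P3 : (30 + 42 * (1 - x)) * hv L 2 1 ≤ (2 + 65 / 2 * (1 - x)) * M :=
      hE.2.1.trans (mul_le_mul_of_nonneg_left hk1 (by linarith))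
    have R3 : 0 ≤ hv L 2 1 := hv_one_nonneg hL 2
    have P4 : (30 + 42 * (1 - x)) * hv L 1 1 ≤ (12 * (1 - x)) * M :=
      hE.2.2.1.trans (mul_le_mul_of_nonneg_left hk1 (by linarith))
    have R4 : 0 ≤ hv L 1 1 := hv_one_nonneg hL 1
    have P5 : (30 + 42 * (1 - x)) * hv L 0 1 ≤ (2 * (1 - x)) * M :=
      hE.2.2.2.trans (mul_le_mul_of_nonneg_left hk1 (by linarith))
    have R5 : 0 ≤ hv L 0 1 := hv_one_nonneg hL 0
    have S5 : 0 ≤ hv L 0 (-1) := by simpa using hv_neg_one_nonneg hL 0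
    have T5 : hv L 0 (-1) ≤ (4 / 99) * M := by
      have h5 := neg_zero (k := 5) (N0 := 6) hL hN (by norm_num) hM
      rw [show Nat.choose (2 * 6) 5 = 792 by decide, abs_of_nonneg S5] at h5
      norm_num at h5
      linarith
    obtain ⟨k1, k2, k3, k4, k5⟩ := ker54 (h := hv L) (hseq_hv L) hM hx0 hx1.le
    refine ⟨abs_comb k1 (ub hD ?_) (ub hD ?_),
      abs_comb k2 (ub hD ?_) (ub hD ?_),
      abs_comb k3 (ub hD ?_) (ub hD ?_),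
      abs_comb k4 (ub hD ?_) (ub hD ?_),
      abs_comb0 k5 (hv_zero_nonneg L x) (ub hD ?_)⟩
    · have t0 : 0 ≤ ((16047 / 1100) + (-108847 / 3300) * x + (483 / 25) * x ^ 2) * M := mul_nonneg (by
        have e2 : (0:ℝ) ≤ (38626 / 825) * (1 - x) ^ 4 + (64322 / 825) * (x - 1 / 2) * (1 - x) ^ 3 + (8322 / 275) * (x - 1 / 2) ^ 2 * (1 - x) ^ 2 + (2294 / 165) * (x - 1 / 2) ^ 3 * (1 - x) + (488 / 33) * (x - 1 / 2) ^ 4 := by positivity
        exact e2.trans_eq (by ring)) hM0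
      have t1 : 0 ≤ ((1 / 16)) * ((30 + 42 * (1 - x)) * hv L 0 1) :=
        mul_nonneg (by
          have e2 : (0:ℝ) ≤ (1 / 16) := by positivity
          exact e2.trans_eq (by ring)) (mul_nonneg hD.le R5)
      have t2 : 0 ≤ ((1 / 8)) * ((12 * (1 - x)) * M - (30 + 42 * (1 - x)) * hv L 1 1) :=
        mul_nonneg (by
          have e2 : (0:ℝ) ≤ (1 / 8) := by positivity
          exact e2.trans_eq (by ring)) (sub_nonneg.2 P4)
      have t3 : 0 ≤ ((1 / 4)) * ((30 + 42 * (1 - x)) * hv L 2 1) :=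
        mul_nonneg (by
          have e2 : (0:ℝ) ≤ (1 / 4) := by positivity
          exact e2.trans_eq (by ring)) (mul_nonneg hD.le R3)
      have t4 : 0 ≤ ((1 / 2)) * ((10 + 105 / 2 * (1 - x)) * M - (30 + 42 * (1 - x)) * hv L 3 1) :=
        mul_nonneg (by
          have e2 : (0:ℝ) ≤ (1 / 2) := by positivity
          exact e2.trans_eq (by ring)) (sub_nonneg.2 P2)
      have t5 : 0 ≤ ((1 / 16)) * ((30 + 42 * (1 - x)) * ((4 / 99) * M - hv L 0 (-1))) :=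
        mul_nonneg (by
          have e2 : (0:ℝ) ≤ (1 / 16) := by positivity
          exact e2.trans_eq (by ring)) (mul_nonneg hD.le (sub_nonneg.2 T5))
      refine (add_nonneg (add_nonneg (add_nonneg (add_nonneg (add_nonneg t0 t1) t2) t3) t4) t5).trans_eq ?_
      ring
    · have t0 : 0 ≤ ((3877 / 100) + (-5259 / 100) * x + (483 / 25) * x ^ 2) * M := mul_nonneg (by
        have e2 : (0:ℝ) ≤ (3461 / 50) * (1 - x) ^ 2 + (719 / 10) * (x - 1 / 2) * (1 - x) + 22 * (x - 1 / 2) ^ 2 := by positivity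
        exact e2.trans_eq (by ring)) hM0
      have t1 : 0 ≤ ((1 / 16)) * ((2 * (1 - x)) * M - (30 + 42 * (1 - x)) * hv L 0 1) :=
        mul_nonneg (by
          have e2 : (0:ℝ) ≤ (1 / 16) := by positivity
          exact e2.trans_eq (by ring)) (sub_nonneg.2 P5)
      have t2 : 0 ≤ ((1 / 8)) * ((30 + 42 * (1 - x)) * hv L 1 1) :=
        mul_nonneg (by
          have e2 : (0:ℝ) ≤ (1 / 8) := by positivity
          exact e2.trans_eq (by ring)) (mul_nonneg hD.le R4)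
      have t3 : 0 ≤ ((1 / 4)) * ((2 + 65 / 2 * (1 - x)) * M - (30 + 42 * (1 - x)) * hv L 2 1) :=
        mul_nonneg (by
          have e2 : (0:ℝ) ≤ (1 / 4) := by positivity
          exact e2.trans_eq (by ring)) (sub_nonneg.2 P3)
      have t4 : 0 ≤ ((1 / 2)) * ((30 + 42 * (1 - x)) * hv L 3 1) :=
        mul_nonneg (by
          have e2 : (0:ℝ) ≤ (1 / 2) := by positivity
          exact e2.trans_eq (by ring)) (mul_nonneg hD.le R2)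
      have t5 : 0 ≤ ((1 / 16)) * ((30 + 42 * (1 - x)) * hv L 0 (-1)) :=
        mul_nonneg (by
          have e2 : (0:ℝ) ≤ (1 / 16) := by positivity
          exact e2.trans_eq (by ring)) (mul_nonneg hD.le S5)
      refine (add_nonneg (add_nonneg (add_nonneg (add_nonneg (add_nonneg t0 t1) t2) t3) t4) t5).trans_eq ?_
      ring
    · have t0 : 0 ≤ ((2779 / 50) + (-3147 / 25) * x + 72 * x ^ 2) * M := mul_nonneg (by
        have e2 : (0:ℝ) ≤ (68096 / 25) * (1 - x) ^ 8 + (372352 / 25) * (x - 1 / 2) * (1 - x) ^ 7 + (814976 / 25) * (x - 1 / 2) ^ 2 * (1 - x) ^ 6 + (176768 / 5) * (x - 1 / 2) ^ 3 * (1 - x) ^ 5 + (92032 / 5) * (x - 1 / 2) ^ 4 * (1 - x) ^ 4 + (82816 / 25) * (x - 1 / 2) ^ 5 * (1 - x) ^ 3 + (13952 / 25) * (x - 1 / 2) ^ 6 * (1 - x) ^ 2 + (29056 / 25) * (x - 1 / 2) ^ 7 * (1 - x) + (2176 / 5) * (x - 1 / 2) ^ 8 := by positivity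
        exact e2.trans_eq (by ring)) hM0
      have t1 : 0 ≤ ((1 / 4) + (-1 / 4) * x) * ((2 * (1 - x)) * M - (30 + 42 * (1 - x)) * hv L 0 1) :=
        mul_nonneg (by
          have e2 : (0:ℝ) ≤ (1 / 4) * (1 - x) := by positivity
          exact e2.trans_eq (by ring)) (sub_nonneg.2 P5)
      have t2 : 0 ≤ ((1 / 2) + (-1 / 2) * x) * ((30 + 42 * (1 - x)) * hv L 1 1) :=
        mul_nonneg (by
          have e2 : (0:ℝ) ≤ (1 / 2) * (1 - x) := by positivity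
          exact e2.trans_eq (by ring)) (mul_nonneg hD.le R4)
      have t3 : 0 ≤ (1 + (-1) * x) * ((2 + 65 / 2 * (1 - x)) * M - (30 + 42 * (1 - x)) * hv L 2 1) :=
        mul_nonneg (by
          have e2 : (0:ℝ) ≤ 1 * (1 - x) := by positivity
          exact e2.trans_eq (by ring)) (sub_nonneg.2 P3)
      have t4 : 0 ≤ ((-1) + 2 * x) * ((10 + 105 / 2 * (1 - x)) * M - (30 + 42 * (1 - x)) * hv L 3 1) :=
        mul_nonneg (by
          have e2 : (0:ℝ) ≤ 2 * (x - 1 / 2) := by positivity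
          exact e2.trans_eq (by ring)) (sub_nonneg.2 P2)
      have t5 : 0 ≤ ((1 / 4) + (-1 / 4) * x) * ((30 + 42 * (1 - x)) * hv L 0 (-1)) :=
        mul_nonneg (by
          have e2 : (0:ℝ) ≤ (1 / 4) * (1 - x) := by positivity
          exact e2.trans_eq (by ring)) (mul_nonneg hD.le S5)
      refine (add_nonneg (add_nonneg (add_nonneg (add_nonneg (add_nonneg t0 t1) t2) t3) t4) t5).trans_eq ?_
      ring
    · have t0 : 0 ≤ ((5872 / 275) + (-5327 / 1650) * x + (-212 / 33) * x ^ 2) * M := mul_nonneg (by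
        have e2 : (0:ℝ) ≤ (59837 / 825) * (1 - x) ^ 2 + (103747 / 825) * (x - 1 / 2) * (1 - x) + (234 / 5) * (x - 1 / 2) ^ 2 := by positivity
        exact e2.trans_eq (by ring)) hM0
      have t1 : 0 ≤ ((1 / 4) + (-1 / 4) * x) * ((30 + 42 * (1 - x)) * hv L 0 1) :=
        mul_nonneg (by
          have e2 : (0:ℝ) ≤ (1 / 4) * (1 - x) := by positivity
          exact e2.trans_eq (by ring)) (mul_nonneg hD.le R5)
      have t2 : 0 ≤ ((1 / 2) + (-1 / 2) * x) * ((12 * (1 - x)) * M - (30 + 42 * (1 - x)) * hv L 1 1) :=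
        mul_nonneg (by
          have e2 : (0:ℝ) ≤ (1 / 2) * (1 - x) := by positivity
          exact e2.trans_eq (by ring)) (sub_nonneg.2 P4)
      have t3 : 0 ≤ (1 + (-1) * x) * ((30 + 42 * (1 - x)) * hv L 2 1) :=
        mul_nonneg (by
          have e2 : (0:ℝ) ≤ 1 * (1 - x) := by positivity
          exact e2.trans_eq (by ring)) (mul_nonneg hD.le R3)
      have t4 : 0 ≤ ((-1) + 2 * x) * ((30 + 42 * (1 - x)) * hv L 3 1) :=
        mul_nonneg (by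
          have e2 : (0:ℝ) ≤ 2 * (x - 1 / 2) := by positivity
          exact e2.trans_eq (by ring)) (mul_nonneg hD.le R2)
      have t5 : 0 ≤ ((1 / 4) + (-1 / 4) * x) * ((30 + 42 * (1 - x)) * ((4 / 99) * M - hv L 0 (-1))) :=
        mul_nonneg (by
          have e2 : (0:ℝ) ≤ (1 / 4) * (1 - x) := by positivity
          exact e2.trans_eq (by ring)) (mul_nonneg hD.le (sub_nonneg.2 T5))
      refine (add_nonneg (add_nonneg (add_nonneg (add_nonneg (add_nonneg t0 t1) t2) t3) t4) t5).trans_eq ?_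
      ring
    · have t0 : 0 ≤ ((19791 / 220) + (-47043 / 220) * x + (36077 / 220) * x ^ 2 + (-1721 / 44) * x ^ 3) * M := mul_nonneg (by
        have e2 : (0:ℝ) ≤ (6741 / 44) * (1 - x) ^ 3 + (7859 / 55) * (x - 1 / 2) * (1 - x) ^ 2 + (184 / 5) * (x - 1 / 2) ^ 2 * (1 - x) + 8 * (x - 1 / 2) ^ 3 := by positivity
        exact e2.trans_eq (by ring)) hM0
      have t1 : 0 ≤ ((3 / 8) + (-3 / 4) * x + (3 / 8) * x ^ 2) * ((30 + 42 * (1 - x)) * hv L 0 1) :=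
        mul_nonneg (by
          have e2 : (0:ℝ) ≤ (3 / 8) * (1 - x) ^ 2 := by positivity
          exact e2.trans_eq (by ring)) (mul_nonneg hD.le R5)
      have t2 : 0 ≤ ((3 / 4) + (-3 / 2) * x + (3 / 4) * x ^ 2) * ((12 * (1 - x)) * M - (30 + 42 * (1 - x)) * hv L 1 1) :=
        mul_nonneg (by
          have e2 : (0:ℝ) ≤ (3 / 4) * (1 - x) ^ 2 := by positivity
          exact e2.trans_eq (by ring)) (sub_nonneg.2 P4)
      have t3 : 0 ≤ ((-1 / 2) + 3 * x + (-3 / 2) * x ^ 2) * ((2 + 65 / 2 * (1 - x)) * M - (30 + 42 * (1 - x)) * hv L 2 1) :=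
        mul_nonneg (by
          have e2 : (0:ℝ) ≤ (5 / 2) * (1 - x) ^ 2 + 8 * (x - 1 / 2) * (1 - x) + 4 * (x - 1 / 2) ^ 2 := by positivity
          exact e2.trans_eq (by ring)) (sub_nonneg.2 P3)
      have t4 : 0 ≤ (3 * x + (-3) * x ^ 2) * ((30 + 42 * (1 - x)) * hv L 3 1) :=
        mul_nonneg (by
          have e2 : (0:ℝ) ≤ 3 * (1 - x) ^ 2 + 6 * (x - 1 / 2) * (1 - x) := by positivity
          exact e2.trans_eq (by ring)) (mul_nonneg hD.le R2)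
      have t5 : 0 ≤ ((3 / 8) + (-3 / 4) * x + (3 / 8) * x ^ 2) * ((30 + 42 * (1 - x)) * ((4 / 99) * M - hv L 0 (-1))) :=
        mul_nonneg (by
          have e2 : (0:ℝ) ≤ (3 / 8) * (1 - x) ^ 2 := by positivity
          exact e2.trans_eq (by ring)) (mul_nonneg hD.le (sub_nonneg.2 T5))
      refine (add_nonneg (add_nonneg (add_nonneg (add_nonneg (add_nonneg t0 t1) t2) t3) t4) t5).trans_eq ?_
      ring
    · have t0 : 0 ≤ ((1641 / 20) + (-6183 / 20) * x + (7737 / 20) * x ^ 2 + (-627 / 4) * x ^ 3) * M := mul_nonneg (by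
        have e2 : (0:ℝ) ≤ 147 * (1 - x) ^ 5 + (486 / 5) * (x - 1 / 2) * (1 - x) ^ 4 + (663 / 5) * (x - 1 / 2) ^ 2 * (1 - x) ^ 3 + (3288 / 5) * (x - 1 / 2) ^ 3 * (1 - x) ^ 2 + (2856 / 5) * (x - 1 / 2) ^ 4 * (1 - x) + 96 * (x - 1 / 2) ^ 5 := by positivity
        exact e2.trans_eq (by ring)) hM0
      have t1 : 0 ≤ ((3 / 8) + (-3 / 4) * x + (3 / 8) * x ^ 2) * ((2 * (1 - x)) * M - (30 + 42 * (1 - x)) * hv L 0 1) :=
        mul_nonneg (by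
          have e2 : (0:ℝ) ≤ (3 / 8) * (1 - x) ^ 2 := by positivity
          exact e2.trans_eq (by ring)) (sub_nonneg.2 P5)
      have t2 : 0 ≤ ((3 / 4) + (-3 / 2) * x + (3 / 4) * x ^ 2) * ((30 + 42 * (1 - x)) * hv L 1 1) :=
        mul_nonneg (by
          have e2 : (0:ℝ) ≤ (3 / 4) * (1 - x) ^ 2 := by positivity
          exact e2.trans_eq (by ring)) (mul_nonneg hD.le R4)
      have t3 : 0 ≤ ((-1 / 2) + 3 * x + (-3 / 2) * x ^ 2) * ((30 + 42 * (1 - x)) * hv L 2 1) :=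
        mul_nonneg (by
          have e2 : (0:ℝ) ≤ (5 / 2) * (1 - x) ^ 2 + 8 * (x - 1 / 2) * (1 - x) + 4 * (x - 1 / 2) ^ 2 := by positivity
          exact e2.trans_eq (by ring)) (mul_nonneg hD.le R3)
      have t4 : 0 ≤ (3 * x + (-3) * x ^ 2) * ((10 + 105 / 2 * (1 - x)) * M - (30 + 42 * (1 - x)) * hv L 3 1) :=
        mul_nonneg (by
          have e2 : (0:ℝ) ≤ 3 * (1 - x) ^ 2 + 6 * (x - 1 / 2) * (1 - x) := by positivity
          exact e2.trans_eq (by ring)) (sub_nonneg.2 P2)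
      have t5 : 0 ≤ ((3 / 8) + (-3 / 4) * x + (3 / 8) * x ^ 2) * ((30 + 42 * (1 - x)) * hv L 0 (-1)) :=
        mul_nonneg (by
          have e2 : (0:ℝ) ≤ (3 / 8) * (1 - x) ^ 2 := by positivity
          exact e2.trans_eq (by ring)) (mul_nonneg hD.le S5)
      refine (add_nonneg (add_nonneg (add_nonneg (add_nonneg (add_nonneg t0 t1) t2) t3) t4) t5).trans_eq ?_
      ring
    · have t0 : 0 ≤ (75 + (-3007 / 10) * x + (4869 / 10) * x ^ 2 + (-3717 / 10) * x ^ 3 + (221 / 2) * x ^ 4) * M := mul_nonneg (by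
        have e2 : (0:ℝ) ≤ (1091 / 10) * (1 - x) ^ 4 + (689 / 5) * (x - 1 / 2) * (1 - x) ^ 3 + (696 / 5) * (x - 1 / 2) ^ 2 * (1 - x) ^ 2 := by positivity
        exact e2.trans_eq (by ring)) hM0
      have t1 : 0 ≤ ((1 / 4) + (-3 / 4) * x + (3 / 4) * x ^ 2 + (-1 / 4) * x ^ 3) * ((2 * (1 - x)) * M - (30 + 42 * (1 - x)) * hv L 0 1) :=
        mul_nonneg (by
          have e2 : (0:ℝ) ≤ (1 / 4) * (1 - x) ^ 3 := by positivity
          exact e2.trans_eq (by ring)) (sub_nonneg.2 P5)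
      have t2 : 0 ≤ ((1 / 2) + (3 / 2) * x + (-3 / 2) * x ^ 2 + (1 / 2) * x ^ 3) * ((12 * (1 - x)) * M - (30 + 42 * (1 - x)) * hv L 1 1) :=
        mul_nonneg (by
          have e2 : (0:ℝ) ≤ (15 / 2) * (1 - x) ^ 3 + 24 * (x - 1 / 2) * (1 - x) ^ 2 + 24 * (x - 1 / 2) ^ 2 * (1 - x) + 8 * (x - 1 / 2) ^ 3 := by positivity
          exact e2.trans_eq (by ring)) (sub_nonneg.2 P4)
      have t3 : 0 ≤ (1 + 1 * x + (-3) * x ^ 2 + 1 * x ^ 3) * ((30 + 42 * (1 - x)) * hv L 2 1) :=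
        mul_nonneg (by
          have e2 : (0:ℝ) ≤ 7 * (1 - x) ^ 3 + 16 * (x - 1 / 2) * (1 - x) ^ 2 + 8 * (x - 1 / 2) ^ 2 * (1 - x) := by positivity
          exact e2.trans_eq (by ring)) (mul_nonneg hD.le R3)
      have t4 : 0 ≤ (1 + (-3) * x ^ 2 + 2 * x ^ 3) * ((10 + 105 / 2 * (1 - x)) * M - (30 + 42 * (1 - x)) * hv L 3 1) :=
        mul_nonneg (by
          have e2 : (0:ℝ) ≤ 4 * (1 - x) ^ 3 + 6 * (x - 1 / 2) * (1 - x) ^ 2 := by positivity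
          exact e2.trans_eq (by ring)) (sub_nonneg.2 P2)
      have t5 : 0 ≤ ((1 / 4) + (-3 / 4) * x + (3 / 4) * x ^ 2 + (-1 / 4) * x ^ 3) * ((30 + 42 * (1 - x)) * hv L 0 (-1)) :=
        mul_nonneg (by
          have e2 : (0:ℝ) ≤ (1 / 4) * (1 - x) ^ 3 := by positivity
          exact e2.trans_eq (by ring)) (mul_nonneg hD.le S5)
      refine (add_nonneg (add_nonneg (add_nonneg (add_nonneg (add_nonneg t0 t1) t2) t3) t4) t5).trans_eq ?_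
      ring
    · have t0 : 0 ≤ ((2393 / 22) + (-56528 / 165) * x + (21942 / 55) * x ^ 2 + (-986 / 5) * x ^ 3 + (2117 / 66) * x ^ 4) * M := mul_nonneg (by
        have e2 : (0:ℝ) ≤ (76913 / 330) * (1 - x) ^ 4 + (54152 / 165) * (x - 1 / 2) * (1 - x) ^ 3 + (956 / 5) * (x - 1 / 2) ^ 2 * (1 - x) ^ 2 + 64 * (x - 1 / 2) ^ 3 * (1 - x) := by positivity
        exact e2.trans_eq (by ring)) hM0
      have t1 : 0 ≤ ((1 / 4) + (-3 / 4) * x + (3 / 4) * x ^ 2 + (-1 / 4) * x ^ 3) * ((30 + 42 * (1 - x)) * hv L 0 1) :=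
        mul_nonneg (by
          have e2 : (0:ℝ) ≤ (1 / 4) * (1 - x) ^ 3 := by positivity
          exact e2.trans_eq (by ring)) (mul_nonneg hD.le R5)
      have t2 : 0 ≤ ((1 / 2) + (3 / 2) * x + (-3 / 2) * x ^ 2 + (1 / 2) * x ^ 3) * ((30 + 42 * (1 - x)) * hv L 1 1) :=
        mul_nonneg (by
          have e2 : (0:ℝ) ≤ (15 / 2) * (1 - x) ^ 3 + 24 * (x - 1 / 2) * (1 - x) ^ 2 + 24 * (x - 1 / 2) ^ 2 * (1 - x) + 8 * (x - 1 / 2) ^ 3 := by positivity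
          exact e2.trans_eq (by ring)) (mul_nonneg hD.le R4)
      have t3 : 0 ≤ (1 + 1 * x + (-3) * x ^ 2 + 1 * x ^ 3) * ((2 + 65 / 2 * (1 - x)) * M - (30 + 42 * (1 - x)) * hv L 2 1) :=
        mul_nonneg (by
          have e2 : (0:ℝ) ≤ 7 * (1 - x) ^ 3 + 16 * (x - 1 / 2) * (1 - x) ^ 2 + 8 * (x - 1 / 2) ^ 2 * (1 - x) := by positivity
          exact e2.trans_eq (by ring)) (sub_nonneg.2 P3)
      have t4 : 0 ≤ (1 + (-3) * x ^ 2 + 2 * x ^ 3) * ((30 + 42 * (1 - x)) * hv L 3 1) :=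
        mul_nonneg (by
          have e2 : (0:ℝ) ≤ 4 * (1 - x) ^ 3 + 6 * (x - 1 / 2) * (1 - x) ^ 2 := by positivity
          exact e2.trans_eq (by ring)) (mul_nonneg hD.le R2)
      have t5 : 0 ≤ ((1 / 4) + (-3 / 4) * x + (3 / 4) * x ^ 2 + (-1 / 4) * x ^ 3) * ((30 + 42 * (1 - x)) * ((4 / 99) * M - hv L 0 (-1))) :=
        mul_nonneg (by
          have e2 : (0:ℝ) ≤ (1 / 4) * (1 - x) ^ 3 := by positivity
          exact e2.trans_eq (by ring)) (mul_nonneg hD.le (sub_nonneg.2 T5))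
      refine (add_nonneg (add_nonneg (add_nonneg (add_nonneg (add_nonneg t0 t1) t2) t3) t4) t5).trans_eq ?_
      ring
    · have t0 : 0 ≤ ((1247 / 220) + (-251 / 12) * x + (8198 / 165) * x ^ 2 + (-3709 / 55) * x ^ 3 + (5431 / 132) * x ^ 4 + (-1075 / 132) * x ^ 5) * M := mul_nonneg (by
        have e2 : (0:ℝ) ≤ (32071 / 660) * (1 - x) ^ 5 + (30104 / 165) * (x - 1 / 2) * (1 - x) ^ 4 + (1222 / 5) * (x - 1 / 2) ^ 2 * (1 - x) ^ 3 + (512 / 5) * (x - 1 / 2) ^ 3 * (1 - x) ^ 2 := by positivity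
        exact e2.trans_eq (by ring)) hM0
      have t1 : 0 ≤ ((15 / 16) + (1 / 4) * x + (-3 / 8) * x ^ 2 + (1 / 4) * x ^ 3 + (-1 / 16) * x ^ 4) * ((2 * (1 - x)) * M - (30 + 42 * (1 - x)) * hv L 0 1) :=
        mul_nonneg (by
          have e2 : (0:ℝ) ≤ (255 / 16) * (1 - x) ^ 4 + 64 * (x - 1 / 2) * (1 - x) ^ 3 + 96 * (x - 1 / 2) ^ 2 * (1 - x) ^ 2 + 64 * (x - 1 / 2) ^ 3 * (1 - x) + 16 * (x - 1 / 2) ^ 4 := by positivity
          exact e2.trans_eq (by ring)) (sub_nonneg.2 P5)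
      have t2 : 0 ≤ ((7 / 8) + (-1 / 2) * x + (-3 / 4) * x ^ 2 + (1 / 2) * x ^ 3 + (-1 / 8) * x ^ 4) * ((30 + 42 * (1 - x)) * hv L 1 1) :=
        mul_nonneg (by
          have e2 : (0:ℝ) ≤ (63 / 8) * (1 - x) ^ 4 + 24 * (x - 1 / 2) * (1 - x) ^ 3 + 24 * (x - 1 / 2) ^ 2 * (1 - x) ^ 2 + 8 * (x - 1 / 2) ^ 3 * (1 - x) := by positivity
          exact e2.trans_eq (by ring)) (mul_nonneg hD.le R4)
      have t3 : 0 ≤ ((3 / 4) + (-1) * x + (-1 / 2) * x ^ 2 + 1 * x ^ 3 + (-1 / 4) * x ^ 4) * ((2 + 65 / 2 * (1 - x)) * M - (30 + 42 * (1 - x)) * hv L 2 1) :=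
        mul_nonneg (by
          have e2 : (0:ℝ) ≤ (15 / 4) * (1 - x) ^ 4 + 8 * (x - 1 / 2) * (1 - x) ^ 3 + 4 * (x - 1 / 2) ^ 2 * (1 - x) ^ 2 := by positivity
          exact e2.trans_eq (by ring)) (sub_nonneg.2 P3)
      have t4 : 0 ≤ ((1 / 2) + (-1) * x + 1 * x ^ 3 + (-1 / 2) * x ^ 4) * ((30 + 42 * (1 - x)) * hv L 3 1) :=
        mul_nonneg (by
          have e2 : (0:ℝ) ≤ (3 / 2) * (1 - x) ^ 4 + 2 * (x - 1 / 2) * (1 - x) ^ 3 := by positivity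
          exact e2.trans_eq (by ring)) (mul_nonneg hD.le R2)
      have t5 : 0 ≤ ((1 / 16) + (-1 / 4) * x + (3 / 8) * x ^ 2 + (-1 / 4) * x ^ 3 + (1 / 16) * x ^ 4) * ((30 + 42 * (1 - x)) * ((4 / 99) * M - hv L 0 (-1))) :=
        mul_nonneg (by
          have e2 : (0:ℝ) ≤ (1 / 16) * (1 - x) ^ 4 := by positivity
          exact e2.trans_eq (by ring)) (mul_nonneg hD.le (sub_nonneg.2 T5))
      refine (add_nonneg (add_nonneg (add_nonneg (add_nonneg (add_nonneg t0 t1) t2) t3) t4) t5).trans_eq ?_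
      ring
  · have e2 : (0:ℝ) ≤ (17213 / 225) * (1 - x) ^ 5 + (366683 / 900) * (x - 1 / 2) * (1 - x) ^ 4 + (357481 / 450) * (x - 1 / 2) ^ 2 * (1 - x) ^ 3 + (306529 / 450) * (x - 1 / 2) ^ 3 * (1 - x) ^ 2 + (200327 / 900) * (x - 1 / 2) ^ 4 * (1 - x) + (167 / 36) * (x - 1 / 2) ^ 5 := by positivity
    exact sub_nonneg.1 (e2.trans_eq (by ring))
  · have e2 : (0:ℝ) ≤ (39977 / 900) * (1 - x) ^ 5 + (64952 / 225) * (x - 1 / 2) * (1 - x) ^ 4 + (144053 / 225) * (x - 1 / 2) ^ 2 * (1 - x) ^ 3 + (137327 / 225) * (x - 1 / 2) ^ 3 * (1 - x) ^ 2 + (51488 / 225) * (x - 1 / 2) ^ 4 * (1 - x) + (128 / 9) * (x - 1 / 2) ^ 5 := by positivity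
    exact sub_nonneg.1 (e2.trans_eq (by ring))
  · have e2 : (0:ℝ) ≤ (34613 / 225) * (1 - x) ^ 5 + (777083 / 900) * (x - 1 / 2) * (1 - x) ^ 4 + (830281 / 450) * (x - 1 / 2) ^ 2 * (1 - x) ^ 3 + (841729 / 450) * (x - 1 / 2) ^ 3 * (1 - x) ^ 2 + (797927 / 900) * (x - 1 / 2) ^ 4 * (1 - x) + (5447 / 36) * (x - 1 / 2) ^ 5 := by positivity
    exact sub_nonneg.1 (e2.trans_eq (by ring))
  · have e2 : (0:ℝ) ≤ (73577 / 900) * (1 - x) ^ 5 + (122552 / 225) * (x - 1 / 2) * (1 - x) ^ 4 + (290453 / 225) * (x - 1 / 2) ^ 2 * (1 - x) ^ 3 + (314927 / 225) * (x - 1 / 2) ^ 3 * (1 - x) ^ 2 + (155888 / 225) * (x - 1 / 2) ^ 4 * (1 - x) + (1088 / 9) * (x - 1 / 2) ^ 5 := by positivity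
    exact sub_nonneg.1 (e2.trans_eq (by ring))
  · have e2 : (0:ℝ) ≤ (291 / 25) * (1 - x) ^ 2 + (257 / 25) * (x - 1 / 2) * (1 - x) + (216 / 25) * (x - 1 / 2) ^ 2 := by positivity
    exact sub_nonneg.1 (e2.trans_eq (by ring))
  · have e2 : (0:ℝ) ≤ (246 / 25) * (1 - x) ^ 2 + (527 / 25) * (x - 1 / 2) * (1 - x) + (531 / 25) * (x - 1 / 2) ^ 2 := by positivity
    exact sub_nonneg.1 (e2.trans_eq (by ring))
  · have e2 : (0:ℝ) ≤ (1032 / 5) * (1 - x) ^ 7 + (14207 / 10) * (x - 1 / 2) * (1 - x) ^ 6 + (21952 / 5) * (x - 1 / 2) ^ 2 * (1 - x) ^ 5 + 7568 * (x - 1 / 2) ^ 3 * (1 - x) ^ 4 + 7488 * (x - 1 / 2) ^ 4 * (1 - x) ^ 3 + (20112 / 5) * (x - 1 / 2) ^ 5 * (1 - x) ^ 2 + (4976 / 5) * (x - 1 / 2) ^ 6 * (1 - x) + (352 / 5) * (x - 1 / 2) ^ 7 := by positivity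
    exact sub_nonneg.1 (e2.trans_eq (by ring))
  · have e2 : (0:ℝ) ≤ (1352 / 5) * (1 - x) ^ 7 + (22207 / 10) * (x - 1 / 2) * (1 - x) ^ 6 + (39232 / 5) * (x - 1 / 2) ^ 2 * (1 - x) ^ 5 + 15088 * (x - 1 / 2) ^ 3 * (1 - x) ^ 4 + 16768 * (x - 1 / 2) ^ 4 * (1 - x) ^ 3 + (53232 / 5) * (x - 1 / 2) ^ 5 * (1 - x) ^ 2 + (17776 / 5) * (x - 1 / 2) ^ 6 * (1 - x) + (2432 / 5) * (x - 1 / 2) ^ 7 := by positivity
    exact sub_nonneg.1 (e2.trans_eq (by ring))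
  · have e2 : (0:ℝ) ≤ (437 / 5) * (1 - x) ^ 8 + (6632 / 5) * (x - 1 / 2) * (1 - x) ^ 7 + (31716 / 5) * (x - 1 / 2) ^ 2 * (1 - x) ^ 6 + (72816 / 5) * (x - 1 / 2) ^ 3 * (1 - x) ^ 5 + 18224 * (x - 1 / 2) ^ 4 * (1 - x) ^ 4 + (63712 / 5) * (x - 1 / 2) ^ 5 * (1 - x) ^ 3 + (23712 / 5) * (x - 1 / 2) ^ 6 * (1 - x) ^ 2 + (3936 / 5) * (x - 1 / 2) ^ 7 * (1 - x) + (96 / 5) * (x - 1 / 2) ^ 8 := by positivity
    exact sub_nonneg.1 (e2.trans_eq (by ring))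
  · have e2 : (0:ℝ) ≤ (917 / 5) * (1 - x) ^ 8 + (11816 / 5) * (x - 1 / 2) * (1 - x) ^ 7 + (54564 / 5) * (x - 1 / 2) ^ 2 * (1 - x) ^ 6 + 25584 * (x - 1 / 2) ^ 3 * (1 - x) ^ 5 + 34352 * (x - 1 / 2) ^ 4 * (1 - x) ^ 4 + (137632 / 5) * (x - 1 / 2) ^ 5 * (1 - x) ^ 3 + (65376 / 5) * (x - 1 / 2) ^ 6 * (1 - x) ^ 2 + (17184 / 5) * (x - 1 / 2) ^ 7 * (1 - x) + 384 * (x - 1 / 2) ^ 8 := by positivity
    exact sub_nonneg.1 (e2.trans_eq (by ring))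
  · have e2 : (0:ℝ) ≤ (5083 / 120) * (1 - x) ^ 9 + (29537 / 30) * (x - 1 / 2) * (1 - x) ^ 8 + (80384 / 15) * (x - 1 / 2) ^ 2 * (1 - x) ^ 7 + (205864 / 15) * (x - 1 / 2) ^ 3 * (1 - x) ^ 6 + (59632 / 3) * (x - 1 / 2) ^ 4 * (1 - x) ^ 5 + (260896 / 15) * (x - 1 / 2) ^ 5 * (1 - x) ^ 4 + (138656 / 15) * (x - 1 / 2) ^ 6 * (1 - x) ^ 3 + (41824 / 15) * (x - 1 / 2) ^ 7 * (1 - x) ^ 2 + (5504 / 15) * (x - 1 / 2) ^ 8 * (1 - x) := by positivity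
    exact sub_nonneg.1 (e2.trans_eq (by ring))

end Pool.Agent.HSmall
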