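import Pool.Agent.HSmall.Z3A
import Pool.Agent.HSmall.Z3B
import Pool.Agent.HSmall.Z4A
import Pool.Agent.HSmall.Z4B
import Pool.Agent.HSmall.Z5A
import Pool.Agent.HSmall.Z5B
import Pool.Agent.HStar.Asm2

/-!
# The orders 3, 4, 5
-/

set_option autoImplicit false

namespace Pool.Agent.HSmall

open Polynomial Set Complex Pool.Agent.HHalf Pool.Agent.HStar

theorem pw_three {N : ℕ} {L : Fin N → ℂ} (hL : ∀ a, ‖L a‖ ≤ 1) (hN : 4 ≤ N) {x : ℝ} (hx0 : 0 ≤ x)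
    (hx1 : x < 1) (htp : 71 / 20 ≤ ∑ a, (1 - (L a).re)) (htm : 3 ≤ ∑ a, (1 + (L a).re))
    {a0 : Fin N} (hR : (1 + x) / 2 ≤ (L a0).re) : PW L 3 x := by
  rcases le_total x (13 / 20) with h | h
  · exact zone3A hL hN hx0 h hR htp htm
  · exact zone3B hL hN h hx1 hR htp htm

theorem pw_four {N : ℕ} {L : Fin N → ℂ} (hL : ∀ a, ‖L a‖ ≤ 1) (hN : 5 ≤ N) {x : ℝ} (hx0 : 0 ≤ x)
    (hx1 : x < 1) (htp : 89 / 20 ≤ ∑ a, (1 - (L a).re)) (htm : 3 ≤ ∑ a, (1 + (L a).re))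
    {a0 : Fin N} (hR : (1 + x) / 2 ≤ (L a0).re) : PW L 4 x := by
  rcases le_total x (1 / 3) with h | h
  · exact zone4A hL hN hx0 h hR htp htm
  · exact zone4B hL hN h hx1 hR htp htm

theorem pw_five {N : ℕ} {L : Fin N → ℂ} (hL : ∀ a, ‖L a‖ ≤ 1) (hN : 6 ≤ N) {x : ℝ} (hx0 : 0 ≤ x)
    (hx1 : x < 1) (htp : 21 / 4 ≤ ∑ a, (1 - (L a).re)) (htm : 3 ≤ ∑ a, (1 + (L a).re))
    {a0 : Fin N} (hR : (1 + x) / 2 ≤ (L a0).re) : PW L 5 x := by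
  rcases le_total x (1 / 2) with h | h
  · exact zone5A hL hN hx0 h hR htp htm
  · exact zone5B hL hN h hx1 hR htp htm

/-- ORDER 3. -/
theorem midH3 {N : ℕ} (hN : 4 ≤ N) : MidH N 3 := by
  rintro L x hL hx0 hx1 h1 h2 - ⟨a0, ha0⟩
  have e1 : (71:ℝ) / 20 ≤ thr N 3 := by
    unfold thr HHalfC.cth
    norm_num
    split_ifs <;> norm_num
  have e2 : HHalfB.bal 3 = 3 := by
    unfold HHalfB.bal
    norm_num
  rw [e2] at h2
  exact pw_three hL hN hx0 hx1 (e1.trans h1.le) h2.le ha0.le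

/-- ORDER 4. -/
theorem midH4 {N : ℕ} (hN : 5 ≤ N) : MidH N 4 := by
  rintro L x hL hx0 hx1 h1 h2 - ⟨a0, ha0⟩
  have e1 : (89:ℝ) / 20 ≤ thr N 4 := by
    unfold thr HHalfC.cth
    norm_num
    split_ifs <;> norm_num
  have e2 : HHalfB.bal 4 = 3 := by
    unfold HHalfB.bal
    norm_num
  rw [e2] at h2
  exact pw_four hL hN hx0 hx1 (e1.trans h1.le) h2.le ha0.le

/-- ORDER 5. -/
theorem midH5 {N : ℕ} (hN : 6 ≤ N) : MidH N 5 := by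
  rintro L x hL hx0 hx1 h1 h2 - ⟨a0, ha0⟩
  have e1 : (21:ℝ) / 4 ≤ thr N 5 := by
    unfold thr HHalfC.cth
    norm_num
    split_ifs <;> norm_num
  have e2 : HHalfB.bal 5 = 3 := by
    unfold HHalfB.bal
    norm_num
  rw [e2] at h2
  exact pw_five hL hN hx0 hx1 (e1.trans h1.le) h2.le ha0.le

end Pool.Agent.HSmall
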