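import Pool.Agent.HSmall.Ker

/-!
# Two-point Hermite bounds of order 3
-/

set_option autoImplicit false

namespace Pool.Agent.HSmall

open Set

variable {h : ℕ → ℝ → ℝ}

theorem ker32 (hd : ∀ (i : ℕ) (t : ℝ), HasDerivAt (h i) (((i : ℝ) + 1) * h (i + 1) t) t) {M : ℝ}
    (hM : ∀ t ∈ Icc (-1:ℝ) 1, |h 3 t| ≤ M) {x : ℝ} (hx0 : 0 ≤ x) (hx1 : x ≤ 1) :
    |h 2 x - (((-1 / 4)) * h 0 1 +
        ((1 / 2)) * h 1 1 +
        ((1 / 4)) * h 0 (-1))| ≤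
      ((3 / 2) + (-3 / 2) * x + (3 / 2) * x ^ 2 + (1 / 2) * x ^ 3) * M ∧
    |h 1 x - (((1 / 2) + (-1 / 2) * x) * h 0 1 +
        (1 * x) * h 1 1 +
        ((-1 / 2) + (1 / 2) * x) * h 0 (-1))| ≤
      (1 + 2 * x + (-3) * x ^ 2) * M ∧
    |h 0 x - (((3 / 4) + (1 / 2) * x + (-1 / 4) * x ^ 2) * h 0 1 +
        ((-1 / 2) + (1 / 2) * x ^ 2) * h 1 1 +
        ((1 / 4) + (-1 / 2) * x + (1 / 4) * x ^ 2) * h 0 (-1))| ≤
      ((3 / 2) + (-3 / 2) * x + (-2) * x ^ 2 + 2 * x ^ 3 + (1 / 2) * x ^ 4 + (-1 / 2) * x ^ 5) * M := by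
  have hx : 0 ≤ x := by linarith
  have hs : 0 ≤ 1 - x := by linarith
  have hp : 0 ≤ 1 + x := by linarith
  have k0 := G3_le hd hM (a0 := 1 / 4) (a1 := (-1 / 2)) (a2 := 1 / 4) (by
      intro t ht
      have h1 : 0 ≤ 1 + t := by linarith [ht.1]
      have h2 : 0 ≤ 1 - t := by linarith [ht.2]
      have h3 : 0 ≤ (1 / 4 : ℝ) * (1 + t) ^ 0 * (1 - t) ^ 2 := by positivity
      nlinarith [h3])
    (a := x) (b := 1) (by linarith) (by linarith) le_rfl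
  have k1 := G3_le hd hM (a0 := 1 / 2) (a1 := 0) (a2 := (-1 / 2)) (by
      intro t ht
      have h1 : 0 ≤ 1 + t := by linarith [ht.1]
      have h2 : 0 ≤ 1 - t := by linarith [ht.2]
      have h3 : 0 ≤ (1 / 2 : ℝ) * (1 + t) ^ 1 * (1 - t) ^ 1 := by positivity
      nlinarith [h3])
    (a := x) (b := 1) (by linarith) (by linarith) le_rfl
  have k2 := G3_le hd hM (a0 := 1 / 4) (a1 := 1 / 2) (a2 := 1 / 4) (by
      intro t ht
      have h1 : 0 ≤ 1 + t := by linarith [ht.1]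
      have h2 : 0 ≤ 1 - t := by linarith [ht.2]
      have h3 : 0 ≤ (1 / 4 : ℝ) * (1 + t) ^ 2 * (1 - t) ^ 0 := by positivity
      nlinarith [h3])
    (a := -1) (b := x) le_rfl (by linarith) (by linarith)
  refine ⟨?_, ?_, ?_⟩
  · have e : h 2 x - (((-1 / 4)) * h 0 1 +
        ((1 / 2)) * h 1 1 +
        ((1 / 4)) * h 0 (-1)) =
        (-(1)) * (G3 h (1 / 4) (-1 / 2) (1 / 4) 1 - G3 h (1 / 4) (-1 / 2) (1 / 4) x) +
        (-(1)) * (G3 h (1 / 2) 0 (-1 / 2) 1 - G3 h (1 / 2) 0 (-1 / 2) x) +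
        (1) * (G3 h (1 / 4) (1 / 2) (1 / 4) x - G3 h (1 / 4) (1 / 2) (1 / 4) (-1)) := by
      unfold G3
      ring
    rw [e]
    refine (lin3 (C0 := 1)
      (C1 := 1)
      (C2 := 1)
      (le_of_eq (by rw [abs_neg, abs_of_nonneg (by positivity)]))
      (le_of_eq (by rw [abs_neg, abs_of_nonneg (by positivity)]))
      (le_of_eq (by rw [abs_of_nonneg (by positivity)]))
      k0 k1 k2).trans (le_of_eq ?_)
    ring
  · have e : h 1 x - (((1 / 2) + (-1 / 2) * x) * h 0 1 +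
        (1 * x) * h 1 1 +
        ((-1 / 2) + (1 / 2) * x) * h 0 (-1)) =
        (-(2 * (1 + x))) * (G3 h (1 / 4) (-1 / 2) (1 / 4) 1 - G3 h (1 / 4) (-1 / 2) (1 / 4) x) +
        (-(2 * x)) * (G3 h (1 / 2) 0 (-1 / 2) 1 - G3 h (1 / 2) 0 (-1 / 2) x) +
        (-(2 * (1 - x))) * (G3 h (1 / 4) (1 / 2) (1 / 4) x - G3 h (1 / 4) (1 / 2) (1 / 4) (-1)) := by
      unfold G3
      ring
    rw [e]
    refine (lin3 (C0 := 2 * (1 + x))
      (C1 := 2 * x)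
      (C2 := 2 * (1 - x))
      (le_of_eq (by rw [abs_neg, abs_of_nonneg (by positivity)]))
      (le_of_eq (by rw [abs_neg, abs_of_nonneg (by positivity)]))
      (le_of_eq (by rw [abs_neg, abs_of_nonneg (by positivity)]))
      k0 k1 k2).trans (le_of_eq ?_)
    ring
  · have e : h 0 x - (((3 / 4) + (1 / 2) * x + (-1 / 4) * x ^ 2) * h 0 1 +
        ((-1 / 2) + (1 / 2) * x ^ 2) * h 1 1 +
        ((1 / 4) + (-1 / 2) * x + (1 / 4) * x ^ 2) * h 0 (-1)) =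
        (-((1 + x) ^ 2)) * (G3 h (1 / 4) (-1 / 2) (1 / 4) 1 - G3 h (1 / 4) (-1 / 2) (1 / 4) x) +
        (-(-((1 - x) * (1 + x)))) * (G3 h (1 / 2) 0 (-1 / 2) 1 - G3 h (1 / 2) 0 (-1 / 2) x) +
        ((1 - x) ^ 2) * (G3 h (1 / 4) (1 / 2) (1 / 4) x - G3 h (1 / 4) (1 / 2) (1 / 4) (-1)) := by
      unfold G3
      ring
    rw [e]
    refine (lin3 (C0 := (1 + x) ^ 2)
      (C1 := (1 - x) * (1 + x))
      (C2 := (1 - x) ^ 2)
      (le_of_eq (by rw [abs_neg, abs_of_nonneg (by positivity)]))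
      (le_of_eq (by rw [abs_neg, abs_neg, abs_of_nonneg (by positivity)]))
      (le_of_eq (by rw [abs_of_nonneg (by positivity)]))
      k0 k1 k2).trans (le_of_eq ?_)
    ring

end Pool.Agent.HSmall
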