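import Pool.Agent.HFin.Seq

/-!
# One-point Taylor bounds of order 3 at `1`
-/

set_option autoImplicit false

namespace Pool.Agent.HSmall

open Set Pool.Agent.HFin

theorem ker33 {h : ℕ → ℝ → ℝ} (hd : HSeq h) {M : ℝ}
    (hM : ∀ t ∈ Icc (-1:ℝ) 1, |h 3 t| ≤ M) {x : ℝ} (hx0 : 0 ≤ x) (hx1 : x ≤ 1) :
    |h 2 x - (1 * h 2 1)| ≤ (3 + (-3) * x) * M ∧
    |h 1 x - (1 * h 1 1 + ((-2) + 2 * x) * h 2 1)| ≤ (3 + (-6) * x + 3 * x ^ 2) * M ∧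
    |h 0 x - (1 * h 0 1 + ((-1) + 1 * x) * h 1 1 + (1 + (-2) * x + 1 * x ^ 2) * h 2 1)| ≤
      (1 + (-3) * x + 3 * x ^ 2 + (-1) * x ^ 3) * M := by
  have hy : (1:ℝ) ∈ Icc (-1:ℝ) 1 := ⟨by norm_num, le_rfl⟩
  have hx : x ∈ Icc (-1:ℝ) 1 := ⟨by linarith, hx1⟩
  have ha : |x - 1| = 1 - x := by rw [abs_of_nonpos (by linarith)]; ring
  have k1 := taylor_abs hd (M := M) 1 2 hy hx hM
  have k2 := taylor_abs hd (M := M) 2 1 hy hx hM
  have k3 := taylor_abs hd (M := M) 3 0 hy hx hM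
  rw [ha] at k1 k2 k3
  unfold tay at k1 k2 k3
  simp only [Finset.sum_range_succ, Finset.sum_range_zero, Nat.choose, Nat.reduceAdd, Nat.cast_one,
    Nat.cast_ofNat, pow_zero, pow_one, zero_add, add_zero, mul_one, one_mul] at k1 k2 k3
  refine ⟨?_, ?_, ?_⟩
  · refine Eq.trans_le (congrArg abs ?_) (k1.trans_eq ?_) <;> ring
  · refine Eq.trans_le (congrArg abs ?_) (k2.trans_eq ?_) <;> ring
  · refine Eq.trans_le (congrArg abs ?_) (k3.trans_eq ?_) <;> ring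

end Pool.Agent.HSmall
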