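import Pool.Agent.HSmall.Ker

/-!
# Two-point Hermite bounds of order 4
-/

set_option autoImplicit false

namespace Pool.Agent.HSmall

open Set

variable {h : ℕ → ℝ → ℝ}

theorem ker42 (hd : ∀ (i : ℕ) (t : ℝ), HasDerivAt (h i) (((i : ℝ) + 1) * h (i + 1) t) t) {M : ℝ}
    (hM : ∀ t ∈ Icc (-1:ℝ) 1, |h 4 t| ≤ M) {x : ℝ} (hx0 : 0 ≤ x) (hx1 : x ≤ 1 / 3) :
    |h 3 x - (((-1 / 4)) * h 0 1 +
        ((1 / 4)) * h 1 1 +
        ((1 / 4)) * h 0 (-1) +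
        ((1 / 4)) * h 1 (-1))| ≤
      ((3 / 2) + 3 * x ^ 2 + (-1 / 2) * x ^ 4) * M ∧
    |h 2 x - (((-3 / 4) * x) * h 0 1 +
        ((1 / 4) + (3 / 4) * x) * h 1 1 +
        ((3 / 4) * x) * h 0 (-1) +
        ((-1 / 4) + (3 / 4) * x) * h 1 (-1))| ≤
      (2 + (-6) * x ^ 2) * M ∧
    |h 1 x - (((3 / 4) + (-3 / 4) * x ^ 2) * h 0 1 +
        ((-1 / 4) + (1 / 2) * x + (3 / 4) * x ^ 2) * h 1 1 +
        ((-3 / 4) + (3 / 4) * x ^ 2) * h 0 (-1) +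
        ((-1 / 4) + (-1 / 2) * x + (3 / 4) * x ^ 2) * h 1 (-1))| ≤
      (2 + 3 * x ^ 2 + (-8) * x ^ 4 + 3 * x ^ 6) * M ∧
    |h 0 x - (((1 / 2) + (3 / 4) * x + (-1 / 4) * x ^ 3) * h 0 1 +
        ((-1 / 4) + (-1 / 4) * x + (1 / 4) * x ^ 2 + (1 / 4) * x ^ 3) * h 1 1 +
        ((1 / 2) + (-3 / 4) * x + (1 / 4) * x ^ 3) * h 0 (-1) +
        ((1 / 4) + (-1 / 4) * x + (-1 / 4) * x ^ 2 + (1 / 4) * x ^ 3) * h 1 (-1))| ≤
      ((3 / 2) + (-7 / 2) * x ^ 2 + (5 / 2) * x ^ 4 + (-1 / 2) * x ^ 6) * M := by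
  have hx : 0 ≤ x := by linarith
  have hs : 0 ≤ 1 - x := by linarith
  have hp : 0 ≤ 1 + x := by linarith
  have hw : 0 ≤ 1 - 3 * x := by linarith
  have k0 := G4_le hd hM (a0 := 1 / 8) (a1 := (-3 / 8)) (a2 := 3 / 8) (a3 := (-1 / 8)) (by
      intro t ht
      have h1 : 0 ≤ 1 + t := by linarith [ht.1]
      have h2 : 0 ≤ 1 - t := by linarith [ht.2]
      have h3 : 0 ≤ (1 / 8 : ℝ) * (1 + t) ^ 0 * (1 - t) ^ 3 := by positivity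
      nlinarith [h3])
    (a := x) (b := 1) (by linarith) (by linarith) le_rfl
  have k1 := G4_le hd hM (a0 := 3 / 8) (a1 := (-3 / 8)) (a2 := (-3 / 8)) (a3 := 3 / 8) (by
      intro t ht
      have h1 : 0 ≤ 1 + t := by linarith [ht.1]
      have h2 : 0 ≤ 1 - t := by linarith [ht.2]
      have h3 : 0 ≤ (3 / 8 : ℝ) * (1 + t) ^ 1 * (1 - t) ^ 2 := by positivity
      nlinarith [h3])
    (a := x) (b := 1) (by linarith) (by linarith) le_rfl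
  have k2 := G4_le hd hM (a0 := 3 / 8) (a1 := 3 / 8) (a2 := (-3 / 8)) (a3 := (-3 / 8)) (by
      intro t ht
      have h1 : 0 ≤ 1 + t := by linarith [ht.1]
      have h2 : 0 ≤ 1 - t := by linarith [ht.2]
      have h3 : 0 ≤ (3 / 8 : ℝ) * (1 + t) ^ 2 * (1 - t) ^ 1 := by positivity
      nlinarith [h3])
    (a := -1) (b := x) le_rfl (by linarith) (by linarith)
  have k3 := G4_le hd hM (a0 := 1 / 8) (a1 := 3 / 8) (a2 := 3 / 8) (a3 := 1 / 8) (by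
      intro t ht
      have h1 : 0 ≤ 1 + t := by linarith [ht.1]
      have h2 : 0 ≤ 1 - t := by linarith [ht.2]
      have h3 : 0 ≤ (1 / 8 : ℝ) * (1 + t) ^ 3 * (1 - t) ^ 0 := by positivity
      nlinarith [h3])
    (a := -1) (b := x) le_rfl (by linarith) (by linarith)
  refine ⟨?_, ?_, ?_, ?_⟩
  · have e : h 3 x - (((-1 / 4)) * h 0 1 +
        ((1 / 4)) * h 1 1 +
        ((1 / 4)) * h 0 (-1) +
        ((1 / 4)) * h 1 (-1)) =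
        (-(1)) * (G4 h (1 / 8) (-3 / 8) (3 / 8) (-1 / 8) 1 - G4 h (1 / 8) (-3 / 8) (3 / 8) (-1 / 8) x) +
        (-(1)) * (G4 h (3 / 8) (-3 / 8) (-3 / 8) (3 / 8) 1 - G4 h (3 / 8) (-3 / 8) (-3 / 8) (3 / 8) x) +
        (1) * (G4 h (3 / 8) (3 / 8) (-3 / 8) (-3 / 8) x - G4 h (3 / 8) (3 / 8) (-3 / 8) (-3 / 8) (-1)) +
        (1) * (G4 h (1 / 8) (3 / 8) (3 / 8) (1 / 8) x - G4 h (1 / 8) (3 / 8) (3 / 8) (1 / 8) (-1)) := by
      unfold G4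
      ring
    rw [e]
    refine (lin4 (C0 := 1)
      (C1 := 1)
      (C2 := 1)
      (C3 := 1)
      (le_of_eq (by rw [abs_neg, abs_of_nonneg (by positivity)]))
      (le_of_eq (by rw [abs_neg, abs_of_nonneg (by positivity)]))
      (le_of_eq (by rw [abs_of_nonneg (by positivity)]))
      (le_of_eq (by rw [abs_of_nonneg (by positivity)]))
      k0 k1 k2 k3).trans (le_of_eq ?_)
    ring
  · have e : h 2 x - (((-3 / 4) * x) * h 0 1 +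
        ((1 / 4) + (3 / 4) * x) * h 1 1 +
        ((3 / 4) * x) * h 0 (-1) +
        ((-1 / 4) + (3 / 4) * x) * h 1 (-1)) =
        (-(3 * (1 + x))) * (G4 h (1 / 8) (-3 / 8) (3 / 8) (-1 / 8) 1 - G4 h (1 / 8) (-3 / 8) (3 / 8) (-1 / 8) x) +
        (-(1 + 3 * x)) * (G4 h (3 / 8) (-3 / 8) (-3 / 8) (3 / 8) 1 - G4 h (3 / 8) (-3 / 8) (-3 / 8) (3 / 8) x) +
        (-((1 - 3 * x))) * (G4 h (3 / 8) (3 / 8) (-3 / 8) (-3 / 8) x - G4 h (3 / 8) (3 / 8) (-3 / 8) (-3 / 8) (-1)) +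
        (-(3 * (1 - x))) * (G4 h (1 / 8) (3 / 8) (3 / 8) (1 / 8) x - G4 h (1 / 8) (3 / 8) (3 / 8) (1 / 8) (-1)) := by
      unfold G4
      ring
    rw [e]
    refine (lin4 (C0 := 3 * (1 + x))
      (C1 := 1 + 3 * x)
      (C2 := (1 - 3 * x))
      (C3 := 3 * (1 - x))
      (le_of_eq (by rw [abs_neg, abs_of_nonneg (by positivity)]))
      (le_of_eq (by rw [abs_neg, abs_of_nonneg (by positivity)]))
      (le_of_eq (by rw [abs_neg, abs_of_nonneg (by positivity)]))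
      (le_of_eq (by rw [abs_neg, abs_of_nonneg (by positivity)]))
      k0 k1 k2 k3).trans (le_of_eq ?_)
    ring
  · have e : h 1 x - (((3 / 4) + (-3 / 4) * x ^ 2) * h 0 1 +
        ((-1 / 4) + (1 / 2) * x + (3 / 4) * x ^ 2) * h 1 1 +
        ((-3 / 4) + (3 / 4) * x ^ 2) * h 0 (-1) +
        ((-1 / 4) + (-1 / 2) * x + (3 / 4) * x ^ 2) * h 1 (-1)) =
        (-(3 * (1 + x) ^ 2)) * (G4 h (1 / 8) (-3 / 8) (3 / 8) (-1 / 8) 1 - G4 h (1 / 8) (-3 / 8) (3 / 8) (-1 / 8) x) +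
        (-(-((1 + x) * (1 - 3 * x)))) * (G4 h (3 / 8) (-3 / 8) (-3 / 8) (3 / 8) 1 - G4 h (3 / 8) (-3 / 8) (-3 / 8) (3 / 8) x) +
        (-((1 - x) * (1 + 3 * x))) * (G4 h (3 / 8) (3 / 8) (-3 / 8) (-3 / 8) x - G4 h (3 / 8) (3 / 8) (-3 / 8) (-3 / 8) (-1)) +
        (3 * (1 - x) ^ 2) * (G4 h (1 / 8) (3 / 8) (3 / 8) (1 / 8) x - G4 h (1 / 8) (3 / 8) (3 / 8) (1 / 8) (-1)) := by
      unfold G4
      ring
    rw [e]
    refine (lin4 (C0 := 3 * (1 + x) ^ 2)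
      (C1 := (1 + x) * (1 - 3 * x))
      (C2 := (1 - x) * (1 + 3 * x))
      (C3 := 3 * (1 - x) ^ 2)
      (le_of_eq (by rw [abs_neg, abs_of_nonneg (by positivity)]))
      (le_of_eq (by rw [abs_neg, abs_neg, abs_of_nonneg (by positivity)]))
      (le_of_eq (by rw [abs_neg, abs_of_nonneg (by positivity)]))
      (le_of_eq (by rw [abs_of_nonneg (by positivity)]))
      k0 k1 k2 k3).trans (le_of_eq ?_)
    ring
  · have e : h 0 x - (((1 / 2) + (3 / 4) * x + (-1 / 4) * x ^ 3) * h 0 1 +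
        ((-1 / 4) + (-1 / 4) * x + (1 / 4) * x ^ 2 + (1 / 4) * x ^ 3) * h 1 1 +
        ((1 / 2) + (-3 / 4) * x + (1 / 4) * x ^ 3) * h 0 (-1) +
        ((1 / 4) + (-1 / 4) * x + (-1 / 4) * x ^ 2 + (1 / 4) * x ^ 3) * h 1 (-1)) =
        (-((1 + x) ^ 3)) * (G4 h (1 / 8) (-3 / 8) (3 / 8) (-1 / 8) 1 - G4 h (1 / 8) (-3 / 8) (3 / 8) (-1 / 8) x) +
        (-(-((1 - x) * (1 + x) ^ 2))) * (G4 h (3 / 8) (-3 / 8) (-3 / 8) (3 / 8) 1 - G4 h (3 / 8) (-3 / 8) (-3 / 8) (3 / 8) x) +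
        ((1 - x) ^ 2 * (1 + x)) * (G4 h (3 / 8) (3 / 8) (-3 / 8) (-3 / 8) x - G4 h (3 / 8) (3 / 8) (-3 / 8) (-3 / 8) (-1)) +
        (-((1 - x) ^ 3)) * (G4 h (1 / 8) (3 / 8) (3 / 8) (1 / 8) x - G4 h (1 / 8) (3 / 8) (3 / 8) (1 / 8) (-1)) := by
      unfold G4
      ring
    rw [e]
    refine (lin4 (C0 := (1 + x) ^ 3)
      (C1 := (1 - x) * (1 + x) ^ 2)
      (C2 := (1 - x) ^ 2 * (1 + x))
      (C3 := (1 - x) ^ 3)
      (le_of_eq (by rw [abs_neg, abs_of_nonneg (by positivity)]))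
      (le_of_eq (by rw [abs_neg, abs_neg, abs_of_nonneg (by positivity)]))
      (le_of_eq (by rw [abs_of_nonneg (by positivity)]))
      (le_of_eq (by rw [abs_neg, abs_of_nonneg (by positivity)]))
      k0 k1 k2 k3).trans (le_of_eq ?_)
    ring

theorem ker43 (hd : ∀ (i : ℕ) (t : ℝ), HasDerivAt (h i) (((i : ℝ) + 1) * h (i + 1) t) t) {M : ℝ}
    (hM : ∀ t ∈ Icc (-1:ℝ) 1, |h 4 t| ≤ M) {x : ℝ} (hx0 : 1 / 3 ≤ x) (hx1 : x ≤ 1) :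
    |h 3 x - (((1 / 8)) * h 0 1 +
        ((-1 / 4)) * h 1 1 +
        ((1 / 2)) * h 2 1 +
        ((-1 / 8)) * h 0 (-1))| ≤
      ((9 / 4) + (-3) * x + (3 / 2) * x ^ 2 + 1 * x ^ 3 + (1 / 4) * x ^ 4) * M ∧
    |h 2 x - (((-3 / 8) + (3 / 8) * x) * h 0 1 +
        ((3 / 4) + (-3 / 4) * x) * h 1 1 +
        ((-1 / 2) + (3 / 2) * x) * h 2 1 +
        ((3 / 8) + (-3 / 8) * x) * h 0 (-1))| ≤
      (6 * x + (-6) * x ^ 2) * M ∧
    |h 1 x - (((3 / 8) + (-3 / 4) * x + (3 / 8) * x ^ 2) * h 0 1 +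
        ((1 / 4) + (3 / 2) * x + (-3 / 4) * x ^ 2) * h 1 1 +
        ((-1 / 2) + (-1) * x + (3 / 2) * x ^ 2) * h 2 1 +
        ((-3 / 8) + (3 / 4) * x + (-3 / 8) * x ^ 2) * h 0 (-1))| ≤
      ((3 / 2) + 4 * x + (-21 / 2) * x ^ 2 + (13 / 2) * x ^ 4 + (-3 / 2) * x ^ 6) * M ∧
    |h 0 x - (((7 / 8) + (3 / 8) * x + (-3 / 8) * x ^ 2 + (1 / 8) * x ^ 3) * h 0 1 +
        ((-3 / 4) + (1 / 4) * x + (3 / 4) * x ^ 2 + (-1 / 4) * x ^ 3) * h 1 1 +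
        ((1 / 2) + (-1 / 2) * x + (-1 / 2) * x ^ 2 + (1 / 2) * x ^ 3) * h 2 1 +
        ((1 / 8) + (-3 / 8) * x + (3 / 8) * x ^ 2 + (-1 / 8) * x ^ 3) * h 0 (-1))| ≤
      ((9 / 4) + (-15 / 4) * x + (-11 / 4) * x ^ 2 + (25 / 4) * x ^ 3 + (3 / 4) * x ^ 4 + (-13 / 4) * x ^ 5 + (-1 / 4) * x ^ 6 + (3 / 4) * x ^ 7) * M := by
  have hx : 0 ≤ x := by linarith
  have hs : 0 ≤ 1 - x := by linarith
  have hp : 0 ≤ 1 + x := by linarith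
  have hw : 0 ≤ 3 * x - 1 := by linarith
  have k0 := G4_le hd hM (a0 := 1 / 8) (a1 := (-3 / 8)) (a2 := 3 / 8) (a3 := (-1 / 8)) (by
      intro t ht
      have h1 : 0 ≤ 1 + t := by linarith [ht.1]
      have h2 : 0 ≤ 1 - t := by linarith [ht.2]
      have h3 : 0 ≤ (1 / 8 : ℝ) * (1 + t) ^ 0 * (1 - t) ^ 3 := by positivity
      nlinarith [h3])
    (a := x) (b := 1) (by linarith) (by linarith) le_rfl
  have k1 := G4_le hd hM (a0 := 3 / 8) (a1 := (-3 / 8)) (a2 := (-3 / 8)) (a3 := 3 / 8) (by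
      intro t ht
      have h1 : 0 ≤ 1 + t := by linarith [ht.1]
      have h2 : 0 ≤ 1 - t := by linarith [ht.2]
      have h3 : 0 ≤ (3 / 8 : ℝ) * (1 + t) ^ 1 * (1 - t) ^ 2 := by positivity
      nlinarith [h3])
    (a := x) (b := 1) (by linarith) (by linarith) le_rfl
  have k2 := G4_le hd hM (a0 := 3 / 8) (a1 := 3 / 8) (a2 := (-3 / 8)) (a3 := (-3 / 8)) (by
      intro t ht
      have h1 : 0 ≤ 1 + t := by linarith [ht.1]
      have h2 : 0 ≤ 1 - t := by linarith [ht.2]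
      have h3 : 0 ≤ (3 / 8 : ℝ) * (1 + t) ^ 2 * (1 - t) ^ 1 := by positivity
      nlinarith [h3])
    (a := x) (b := 1) (by linarith) (by linarith) le_rfl
  have k3 := G4_le hd hM (a0 := 1 / 8) (a1 := 3 / 8) (a2 := 3 / 8) (a3 := 1 / 8) (by
      intro t ht
      have h1 : 0 ≤ 1 + t := by linarith [ht.1]
      have h2 : 0 ≤ 1 - t := by linarith [ht.2]
      have h3 : 0 ≤ (1 / 8 : ℝ) * (1 + t) ^ 3 * (1 - t) ^ 0 := by positivity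
      nlinarith [h3])
    (a := -1) (b := x) le_rfl (by linarith) (by linarith)
  refine ⟨?_, ?_, ?_, ?_⟩
  · have e : h 3 x - (((1 / 8)) * h 0 1 +
        ((-1 / 4)) * h 1 1 +
        ((1 / 2)) * h 2 1 +
        ((-1 / 8)) * h 0 (-1)) =
        (-(1)) * (G4 h (1 / 8) (-3 / 8) (3 / 8) (-1 / 8) 1 - G4 h (1 / 8) (-3 / 8) (3 / 8) (-1 / 8) x) +
        (-(1)) * (G4 h (3 / 8) (-3 / 8) (-3 / 8) (3 / 8) 1 - G4 h (3 / 8) (-3 / 8) (-3 / 8) (3 / 8) x) +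
        (-(1)) * (G4 h (3 / 8) (3 / 8) (-3 / 8) (-3 / 8) 1 - G4 h (3 / 8) (3 / 8) (-3 / 8) (-3 / 8) x) +
        (1) * (G4 h (1 / 8) (3 / 8) (3 / 8) (1 / 8) x - G4 h (1 / 8) (3 / 8) (3 / 8) (1 / 8) (-1)) := by
      unfold G4
      ring
    rw [e]
    refine (lin4 (C0 := 1)
      (C1 := 1)
      (C2 := 1)
      (C3 := 1)
      (le_of_eq (by rw [abs_neg, abs_of_nonneg (by positivity)]))
      (le_of_eq (by rw [abs_neg, abs_of_nonneg (by positivity)]))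
      (le_of_eq (by rw [abs_neg, abs_of_nonneg (by positivity)]))
      (le_of_eq (by rw [abs_of_nonneg (by positivity)]))
      k0 k1 k2 k3).trans (le_of_eq ?_)
    ring
  · have e : h 2 x - (((-3 / 8) + (3 / 8) * x) * h 0 1 +
        ((3 / 4) + (-3 / 4) * x) * h 1 1 +
        ((-1 / 2) + (3 / 2) * x) * h 2 1 +
        ((3 / 8) + (-3 / 8) * x) * h 0 (-1)) =
        (-(3 * (1 + x))) * (G4 h (1 / 8) (-3 / 8) (3 / 8) (-1 / 8) 1 - G4 h (1 / 8) (-3 / 8) (3 / 8) (-1 / 8) x) +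
        (-(1 + 3 * x)) * (G4 h (3 / 8) (-3 / 8) (-3 / 8) (3 / 8) 1 - G4 h (3 / 8) (-3 / 8) (-3 / 8) (3 / 8) x) +
        (-((3 * x - 1))) * (G4 h (3 / 8) (3 / 8) (-3 / 8) (-3 / 8) 1 - G4 h (3 / 8) (3 / 8) (-3 / 8) (-3 / 8) x) +
        (-(3 * (1 - x))) * (G4 h (1 / 8) (3 / 8) (3 / 8) (1 / 8) x - G4 h (1 / 8) (3 / 8) (3 / 8) (1 / 8) (-1)) := by
      unfold G4
      ring
    rw [e]
    refine (lin4 (C0 := 3 * (1 + x))
      (C1 := 1 + 3 * x)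
      (C2 := (3 * x - 1))
      (C3 := 3 * (1 - x))
      (le_of_eq (by rw [abs_neg, abs_of_nonneg (by positivity)]))
      (le_of_eq (by rw [abs_neg, abs_of_nonneg (by positivity)]))
      (le_of_eq (by rw [abs_neg, abs_of_nonneg (by positivity)]))
      (le_of_eq (by rw [abs_neg, abs_of_nonneg (by positivity)]))
      k0 k1 k2 k3).trans (le_of_eq ?_)
    ring
  · have e : h 1 x - (((3 / 8) + (-3 / 4) * x + (3 / 8) * x ^ 2) * h 0 1 +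
        ((1 / 4) + (3 / 2) * x + (-3 / 4) * x ^ 2) * h 1 1 +
        ((-1 / 2) + (-1) * x + (3 / 2) * x ^ 2) * h 2 1 +
        ((-3 / 8) + (3 / 4) * x + (-3 / 8) * x ^ 2) * h 0 (-1)) =
        (-(3 * (1 + x) ^ 2)) * (G4 h (1 / 8) (-3 / 8) (3 / 8) (-1 / 8) 1 - G4 h (1 / 8) (-3 / 8) (3 / 8) (-1 / 8) x) +
        (-((1 + x) * (3 * x - 1))) * (G4 h (3 / 8) (-3 / 8) (-3 / 8) (3 / 8) 1 - G4 h (3 / 8) (-3 / 8) (-3 / 8) (3 / 8) x) +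
        (-(-((1 - x) * (1 + 3 * x)))) * (G4 h (3 / 8) (3 / 8) (-3 / 8) (-3 / 8) 1 - G4 h (3 / 8) (3 / 8) (-3 / 8) (-3 / 8) x) +
        (3 * (1 - x) ^ 2) * (G4 h (1 / 8) (3 / 8) (3 / 8) (1 / 8) x - G4 h (1 / 8) (3 / 8) (3 / 8) (1 / 8) (-1)) := by
      unfold G4
      ring
    rw [e]
    refine (lin4 (C0 := 3 * (1 + x) ^ 2)
      (C1 := (1 + x) * (3 * x - 1))
      (C2 := (1 - x) * (1 + 3 * x))
      (C3 := 3 * (1 - x) ^ 2)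
      (le_of_eq (by rw [abs_neg, abs_of_nonneg (by positivity)]))
      (le_of_eq (by rw [abs_neg, abs_of_nonneg (by positivity)]))
      (le_of_eq (by rw [abs_neg, abs_neg, abs_of_nonneg (by positivity)]))
      (le_of_eq (by rw [abs_of_nonneg (by positivity)]))
      k0 k1 k2 k3).trans (le_of_eq ?_)
    ring
  · have e : h 0 x - (((7 / 8) + (3 / 8) * x + (-3 / 8) * x ^ 2 + (1 / 8) * x ^ 3) * h 0 1 +
        ((-3 / 4) + (1 / 4) * x + (3 / 4) * x ^ 2 + (-1 / 4) * x ^ 3) * h 1 1 +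
        ((1 / 2) + (-1 / 2) * x + (-1 / 2) * x ^ 2 + (1 / 2) * x ^ 3) * h 2 1 +
        ((1 / 8) + (-3 / 8) * x + (3 / 8) * x ^ 2 + (-1 / 8) * x ^ 3) * h 0 (-1)) =
        (-((1 + x) ^ 3)) * (G4 h (1 / 8) (-3 / 8) (3 / 8) (-1 / 8) 1 - G4 h (1 / 8) (-3 / 8) (3 / 8) (-1 / 8) x) +
        (-(-((1 - x) * (1 + x) ^ 2))) * (G4 h (3 / 8) (-3 / 8) (-3 / 8) (3 / 8) 1 - G4 h (3 / 8) (-3 / 8) (-3 / 8) (3 / 8) x) +
        (-((1 - x) ^ 2 * (1 + x))) * (G4 h (3 / 8) (3 / 8) (-3 / 8) (-3 / 8) 1 - G4 h (3 / 8) (3 / 8) (-3 / 8) (-3 / 8) x) +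
        (-((1 - x) ^ 3)) * (G4 h (1 / 8) (3 / 8) (3 / 8) (1 / 8) x - G4 h (1 / 8) (3 / 8) (3 / 8) (1 / 8) (-1)) := by
      unfold G4
      ring
    rw [e]
    refine (lin4 (C0 := (1 + x) ^ 3)
      (C1 := (1 - x) * (1 + x) ^ 2)
      (C2 := (1 - x) ^ 2 * (1 + x))
      (C3 := (1 - x) ^ 3)
      (le_of_eq (by rw [abs_neg, abs_of_nonneg (by positivity)]))
      (le_of_eq (by rw [abs_neg, abs_neg, abs_of_nonneg (by positivity)]))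
      (le_of_eq (by rw [abs_neg, abs_of_nonneg (by positivity)]))
      (le_of_eq (by rw [abs_neg, abs_of_nonneg (by positivity)]))
      k0 k1 k2 k3).trans (le_of_eq ?_)
    ring

end Pool.Agent.HSmall
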