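import Pool.Agent.HSmall.Ker

/-!
# Two-point Hermite bounds of order 5
-/

set_option autoImplicit false

namespace Pool.Agent.HSmall

open Set

variable {h : ℕ → ℝ → ℝ}

theorem ker53 (hd : ∀ (i : ℕ) (t : ℝ), HasDerivAt (h i) (((i : ℝ) + 1) * h (i + 1) t) t) {M : ℝ}
    (hM : ∀ t ∈ Icc (-1:ℝ) 1, |h 5 t| ≤ M) {x : ℝ} (hx0 : 0 ≤ x) (hx1 : x ≤ 1 / 2) :
    |h 4 x - (((3 / 16)) * h 0 1 +
        ((-1 / 4)) * h 1 1 +
        ((1 / 4)) * h 2 1 +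
        ((-3 / 16)) * h 0 (-1) +
        ((-1 / 8)) * h 1 (-1))| ≤
      ((15 / 8) + (-15 / 8) * x + (15 / 4) * x ^ 2 + (5 / 4) * x ^ 3 + (-5 / 8) * x ^ 4 + (-3 / 8) * x ^ 5) * M ∧
    |h 3 x - (((-1 / 4) + (3 / 4) * x) * h 0 1 +
        ((1 / 4) + (-1) * x) * h 1 1 +
        (1 * x) * h 2 1 +
        ((1 / 4) + (-3 / 4) * x) * h 0 (-1) +
        ((1 / 4) + (-1 / 2) * x) * h 1 (-1))| ≤
      (2 + 4 * x + (-10) * x ^ 2) * M ∧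
    |h 2 x - (((-3 / 8) + (-3 / 4) * x + (9 / 8) * x ^ 2) * h 0 1 +
        ((3 / 4) + (3 / 4) * x + (-3 / 2) * x ^ 2) * h 1 1 +
        ((-1 / 2) + (3 / 2) * x ^ 2) * h 2 1 +
        ((3 / 8) + (3 / 4) * x + (-9 / 8) * x ^ 2) * h 0 (-1) +
        ((3 / 4) * x + (-3 / 4) * x ^ 2) * h 1 (-1))| ≤
      ((11 / 4) + (3 / 4) * x + (-21 / 4) * x ^ 2 + (55 / 4) * x ^ 3 + (-15 / 4) * x ^ 4 + (-63 / 4) * x ^ 5 + (9 / 4) * x ^ 6 + (21 / 4) * x ^ 7) * M ∧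
    |h 1 x - (((3 / 4) + (-3 / 4) * x + (-3 / 4) * x ^ 2 + (3 / 4) * x ^ 3) * h 0 1 +
        ((-1 / 4) + (3 / 2) * x + (3 / 4) * x ^ 2 + (-1) * x ^ 3) * h 1 1 +
        ((-1) * x + 1 * x ^ 3) * h 2 1 +
        ((-3 / 4) + (3 / 4) * x + (3 / 4) * x ^ 2 + (-3 / 4) * x ^ 3) * h 0 (-1) +
        ((-1 / 4) + (3 / 4) * x ^ 2 + (-1 / 2) * x ^ 3) * h 1 (-1))| ≤
      (2 + 4 * x + (-8) * x ^ 2 + (-4) * x ^ 3 + 5 * x ^ 4 + 2 * x ^ 6 + (-1) * x ^ 8) * M ∧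
    |h 0 x - (((11 / 16) + (3 / 4) * x + (-3 / 8) * x ^ 2 + (-1 / 4) * x ^ 3 + (3 / 16) * x ^ 4) * h 0 1 +
        ((-1 / 2) + (-1 / 4) * x + (3 / 4) * x ^ 2 + (1 / 4) * x ^ 3 + (-1 / 4) * x ^ 4) * h 1 1 +
        ((1 / 4) + (-1 / 2) * x ^ 2 + (1 / 4) * x ^ 4) * h 2 1 +
        ((5 / 16) + (-3 / 4) * x + (3 / 8) * x ^ 2 + (1 / 4) * x ^ 3 + (-3 / 16) * x ^ 4) * h 0 (-1) +
        ((1 / 8) + (-1 / 4) * x + (1 / 4) * x ^ 3 + (-1 / 8) * x ^ 4) * h 1 (-1))| ≤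
      ((15 / 8) + (-15 / 8) * x + (-5) * x ^ 2 + 5 * x ^ 3 + (19 / 4) * x ^ 4 + (-19 / 4) * x ^ 5 + (-2) * x ^ 6 + 2 * x ^ 7 + (3 / 8) * x ^ 8 + (-3 / 8) * x ^ 9) * M := by
  have hx : 0 ≤ x := by linarith
  have hs : 0 ≤ 1 - x := by linarith
  have hp : 0 ≤ 1 + x := by linarith
  have hw : 0 ≤ 2 - 4 * x := by linarith
  have hv : 0 ≤ 2 - 6 * x ^ 2 := by nlinarith
  have k0 := G5_le hd hM (a0 := 1 / 16) (a1 := (-1 / 4)) (a2 := 3 / 8) (a3 := (-1 / 4)) (a4 := 1 / 16) (by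
      intro t ht
      have h1 : 0 ≤ 1 + t := by linarith [ht.1]
      have h2 : 0 ≤ 1 - t := by linarith [ht.2]
      have h3 : 0 ≤ (1 / 16 : ℝ) * (1 + t) ^ 0 * (1 - t) ^ 4 := by positivity
      nlinarith [h3])
    (a := x) (b := 1) (by linarith) (by linarith) le_rfl
  have k1 := G5_le hd hM (a0 := 1 / 4) (a1 := (-1 / 2)) (a2 := 0) (a3 := 1 / 2) (a4 := (-1 / 4)) (by
      intro t ht
      have h1 : 0 ≤ 1 + t := by linarith [ht.1]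
      have h2 : 0 ≤ 1 - t := by linarith [ht.2]
      have h3 : 0 ≤ (1 / 4 : ℝ) * (1 + t) ^ 1 * (1 - t) ^ 3 := by positivity
      nlinarith [h3])
    (a := x) (b := 1) (by linarith) (by linarith) le_rfl
  have k2 := G5_le hd hM (a0 := 3 / 8) (a1 := 0) (a2 := (-3 / 4)) (a3 := 0) (a4 := 3 / 8) (by
      intro t ht
      have h1 : 0 ≤ 1 + t := by linarith [ht.1]
      have h2 : 0 ≤ 1 - t := by linarith [ht.2]
      have h3 : 0 ≤ (3 / 8 : ℝ) * (1 + t) ^ 2 * (1 - t) ^ 2 := by positivity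
      nlinarith [h3])
    (a := x) (b := 1) (by linarith) (by linarith) le_rfl
  have k3 := G5_le hd hM (a0 := 1 / 4) (a1 := 1 / 2) (a2 := 0) (a3 := (-1 / 2)) (a4 := (-1 / 4)) (by
      intro t ht
      have h1 : 0 ≤ 1 + t := by linarith [ht.1]
      have h2 : 0 ≤ 1 - t := by linarith [ht.2]
      have h3 : 0 ≤ (1 / 4 : ℝ) * (1 + t) ^ 3 * (1 - t) ^ 1 := by positivity
      nlinarith [h3])
    (a := -1) (b := x) le_rfl (by linarith) (by linarith)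
  have k4 := G5_le hd hM (a0 := 1 / 16) (a1 := 1 / 4) (a2 := 3 / 8) (a3 := 1 / 4) (a4 := 1 / 16) (by
      intro t ht
      have h1 : 0 ≤ 1 + t := by linarith [ht.1]
      have h2 : 0 ≤ 1 - t := by linarith [ht.2]
      have h3 : 0 ≤ (1 / 16 : ℝ) * (1 + t) ^ 4 * (1 - t) ^ 0 := by positivity
      nlinarith [h3])
    (a := -1) (b := x) le_rfl (by linarith) (by linarith)
  refine ⟨?_, ?_, ?_, ?_, ?_⟩
  · have e : h 4 x - (((3 / 16)) * h 0 1 +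
        ((-1 / 4)) * h 1 1 +
        ((1 / 4)) * h 2 1 +
        ((-3 / 16)) * h 0 (-1) +
        ((-1 / 8)) * h 1 (-1)) =
        (-(1)) * (G5 h (1 / 16) (-1 / 4) (3 / 8) (-1 / 4) (1 / 16) 1 - G5 h (1 / 16) (-1 / 4) (3 / 8) (-1 / 4) (1 / 16) x) +
        (-(1)) * (G5 h (1 / 4) (-1 / 2) 0 (1 / 2) (-1 / 4) 1 - G5 h (1 / 4) (-1 / 2) 0 (1 / 2) (-1 / 4) x) +
        (-(1)) * (G5 h (3 / 8) 0 (-3 / 4) 0 (3 / 8) 1 - G5 h (3 / 8) 0 (-3 / 4) 0 (3 / 8) x) +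
        (1) * (G5 h (1 / 4) (1 / 2) 0 (-1 / 2) (-1 / 4) x - G5 h (1 / 4) (1 / 2) 0 (-1 / 2) (-1 / 4) (-1)) +
        (1) * (G5 h (1 / 16) (1 / 4) (3 / 8) (1 / 4) (1 / 16) x - G5 h (1 / 16) (1 / 4) (3 / 8) (1 / 4) (1 / 16) (-1)) := by
      unfold G5
      ring
    rw [e]
    refine (lin5 (C0 := 1)
      (C1 := 1)
      (C2 := 1)
      (C3 := 1)
      (C4 := 1)
      (le_of_eq (by rw [abs_neg, abs_of_nonneg (by positivity)]))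
      (le_of_eq (by rw [abs_neg, abs_of_nonneg (by positivity)]))
      (le_of_eq (by rw [abs_neg, abs_of_nonneg (by positivity)]))
      (le_of_eq (by rw [abs_of_nonneg (by positivity)]))
      (le_of_eq (by rw [abs_of_nonneg (by positivity)]))
      k0 k1 k2 k3 k4).trans (le_of_eq ?_)
    ring
  · have e : h 3 x - (((-1 / 4) + (3 / 4) * x) * h 0 1 +
        ((1 / 4) + (-1) * x) * h 1 1 +
        (1 * x) * h 2 1 +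
        ((1 / 4) + (-3 / 4) * x) * h 0 (-1) +
        ((1 / 4) + (-1 / 2) * x) * h 1 (-1)) =
        (-(4 * (1 + x))) * (G5 h (1 / 16) (-1 / 4) (3 / 8) (-1 / 4) (1 / 16) 1 - G5 h (1 / 16) (-1 / 4) (3 / 8) (-1 / 4) (1 / 16) x) +
        (-(2 + 4 * x)) * (G5 h (1 / 4) (-1 / 2) 0 (1 / 2) (-1 / 4) 1 - G5 h (1 / 4) (-1 / 2) 0 (1 / 2) (-1 / 4) x) +
        (-(4 * x)) * (G5 h (3 / 8) 0 (-3 / 4) 0 (3 / 8) 1 - G5 h (3 / 8) 0 (-3 / 4) 0 (3 / 8) x) +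
        (-((2 - 4 * x))) * (G5 h (1 / 4) (1 / 2) 0 (-1 / 2) (-1 / 4) x - G5 h (1 / 4) (1 / 2) 0 (-1 / 2) (-1 / 4) (-1)) +
        (-(4 * (1 - x))) * (G5 h (1 / 16) (1 / 4) (3 / 8) (1 / 4) (1 / 16) x - G5 h (1 / 16) (1 / 4) (3 / 8) (1 / 4) (1 / 16) (-1)) := by
      unfold G5
      ring
    rw [e]
    refine (lin5 (C0 := 4 * (1 + x))
      (C1 := 2 + 4 * x)
      (C2 := 4 * x)
      (C3 := (2 - 4 * x))
      (C4 := 4 * (1 - x))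
      (le_of_eq (by rw [abs_neg, abs_of_nonneg (by positivity)]))
      (le_of_eq (by rw [abs_neg, abs_of_nonneg (by positivity)]))
      (le_of_eq (by rw [abs_neg, abs_of_nonneg (by positivity)]))
      (le_of_eq (by rw [abs_neg, abs_of_nonneg (by positivity)]))
      (le_of_eq (by rw [abs_neg, abs_of_nonneg (by positivity)]))
      k0 k1 k2 k3 k4).trans (le_of_eq ?_)
    ring
  · have e : h 2 x - (((-3 / 8) + (-3 / 4) * x + (9 / 8) * x ^ 2) * h 0 1 +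
        ((3 / 4) + (3 / 4) * x + (-3 / 2) * x ^ 2) * h 1 1 +
        ((-1 / 2) + (3 / 2) * x ^ 2) * h 2 1 +
        ((3 / 8) + (3 / 4) * x + (-9 / 8) * x ^ 2) * h 0 (-1) +
        ((3 / 4) * x + (-3 / 4) * x ^ 2) * h 1 (-1)) =
        (-(6 * (1 + x) ^ 2)) * (G5 h (1 / 16) (-1 / 4) (3 / 8) (-1 / 4) (1 / 16) 1 - G5 h (1 / 16) (-1 / 4) (3 / 8) (-1 / 4) (1 / 16) x) +
        (-(6 * (1 + x) * x)) * (G5 h (1 / 4) (-1 / 2) 0 (1 / 2) (-1 / 4) 1 - G5 h (1 / 4) (-1 / 2) 0 (1 / 2) (-1 / 4) x) +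
        (-(-(2 - 6 * x ^ 2))) * (G5 h (3 / 8) 0 (-3 / 4) 0 (3 / 8) 1 - G5 h (3 / 8) 0 (-3 / 4) 0 (3 / 8) x) +
        (-(6 * (1 - x) * x)) * (G5 h (1 / 4) (1 / 2) 0 (-1 / 2) (-1 / 4) x - G5 h (1 / 4) (1 / 2) 0 (-1 / 2) (-1 / 4) (-1)) +
        (6 * (1 - x) ^ 2) * (G5 h (1 / 16) (1 / 4) (3 / 8) (1 / 4) (1 / 16) x - G5 h (1 / 16) (1 / 4) (3 / 8) (1 / 4) (1 / 16) (-1)) := by
      unfold G5
      ring
    rw [e]
    refine (lin5 (C0 := 6 * (1 + x) ^ 2)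
      (C1 := 6 * (1 + x) * x)
      (C2 := 2 - 6 * x ^ 2)
      (C3 := 6 * (1 - x) * x)
      (C4 := 6 * (1 - x) ^ 2)
      (le_of_eq (by rw [abs_neg, abs_of_nonneg (by positivity)]))
      (le_of_eq (by rw [abs_neg, abs_of_nonneg (by positivity)]))
      (le_of_eq (by rw [abs_neg, abs_neg, abs_of_nonneg (by positivity)]))
      (le_of_eq (by rw [abs_neg, abs_of_nonneg (by positivity)]))
      (le_of_eq (by rw [abs_of_nonneg (by positivity)]))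
      k0 k1 k2 k3 k4).trans (le_of_eq ?_)
    ring
  · have e : h 1 x - (((3 / 4) + (-3 / 4) * x + (-3 / 4) * x ^ 2 + (3 / 4) * x ^ 3) * h 0 1 +
        ((-1 / 4) + (3 / 2) * x + (3 / 4) * x ^ 2 + (-1) * x ^ 3) * h 1 1 +
        ((-1) * x + 1 * x ^ 3) * h 2 1 +
        ((-3 / 4) + (3 / 4) * x + (3 / 4) * x ^ 2 + (-3 / 4) * x ^ 3) * h 0 (-1) +
        ((-1 / 4) + (3 / 4) * x ^ 2 + (-1 / 2) * x ^ 3) * h 1 (-1)) =
        (-(4 * (1 + x) ^ 3)) * (G5 h (1 / 16) (-1 / 4) (3 / 8) (-1 / 4) (1 / 16) 1 - G5 h (1 / 16) (-1 / 4) (3 / 8) (-1 / 4) (1 / 16) x) +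
        (-(-((1 + x) ^ 2 * (2 - 4 * x)))) * (G5 h (1 / 4) (-1 / 2) 0 (1 / 2) (-1 / 4) 1 - G5 h (1 / 4) (-1 / 2) 0 (1 / 2) (-1 / 4) x) +
        (-(-(4 * x * ((1 - x) * (1 + x))))) * (G5 h (3 / 8) 0 (-3 / 4) 0 (3 / 8) 1 - G5 h (3 / 8) 0 (-3 / 4) 0 (3 / 8) x) +
        ((1 - x) ^ 2 * (2 + 4 * x)) * (G5 h (1 / 4) (1 / 2) 0 (-1 / 2) (-1 / 4) x - G5 h (1 / 4) (1 / 2) 0 (-1 / 2) (-1 / 4) (-1)) +
        (-(4 * (1 - x) ^ 3)) * (G5 h (1 / 16) (1 / 4) (3 / 8) (1 / 4) (1 / 16) x - G5 h (1 / 16) (1 / 4) (3 / 8) (1 / 4) (1 / 16) (-1)) := by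
      unfold G5
      ring
    rw [e]
    refine (lin5 (C0 := 4 * (1 + x) ^ 3)
      (C1 := (1 + x) ^ 2 * (2 - 4 * x))
      (C2 := 4 * x * ((1 - x) * (1 + x)))
      (C3 := (1 - x) ^ 2 * (2 + 4 * x))
      (C4 := 4 * (1 - x) ^ 3)
      (le_of_eq (by rw [abs_neg, abs_of_nonneg (by positivity)]))
      (le_of_eq (by rw [abs_neg, abs_neg, abs_of_nonneg (by positivity)]))
      (le_of_eq (by rw [abs_neg, abs_neg, abs_of_nonneg (by positivity)]))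
      (le_of_eq (by rw [abs_of_nonneg (by positivity)]))
      (le_of_eq (by rw [abs_neg, abs_of_nonneg (by positivity)]))
      k0 k1 k2 k3 k4).trans (le_of_eq ?_)
    ring
  · have e : h 0 x - (((11 / 16) + (3 / 4) * x + (-3 / 8) * x ^ 2 + (-1 / 4) * x ^ 3 + (3 / 16) * x ^ 4) * h 0 1 +
        ((-1 / 2) + (-1 / 4) * x + (3 / 4) * x ^ 2 + (1 / 4) * x ^ 3 + (-1 / 4) * x ^ 4) * h 1 1 +
        ((1 / 4) + (-1 / 2) * x ^ 2 + (1 / 4) * x ^ 4) * h 2 1 +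
        ((5 / 16) + (-3 / 4) * x + (3 / 8) * x ^ 2 + (1 / 4) * x ^ 3 + (-3 / 16) * x ^ 4) * h 0 (-1) +
        ((1 / 8) + (-1 / 4) * x + (1 / 4) * x ^ 3 + (-1 / 8) * x ^ 4) * h 1 (-1)) =
        (-((1 + x) ^ 4)) * (G5 h (1 / 16) (-1 / 4) (3 / 8) (-1 / 4) (1 / 16) 1 - G5 h (1 / 16) (-1 / 4) (3 / 8) (-1 / 4) (1 / 16) x) +
        (-(-((1 - x) * (1 + x) ^ 3))) * (G5 h (1 / 4) (-1 / 2) 0 (1 / 2) (-1 / 4) 1 - G5 h (1 / 4) (-1 / 2) 0 (1 / 2) (-1 / 4) x) +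
        (-((1 - x) ^ 2 * (1 + x) ^ 2)) * (G5 h (3 / 8) 0 (-3 / 4) 0 (3 / 8) 1 - G5 h (3 / 8) 0 (-3 / 4) 0 (3 / 8) x) +
        (-((1 - x) ^ 3 * (1 + x))) * (G5 h (1 / 4) (1 / 2) 0 (-1 / 2) (-1 / 4) x - G5 h (1 / 4) (1 / 2) 0 (-1 / 2) (-1 / 4) (-1)) +
        ((1 - x) ^ 4) * (G5 h (1 / 16) (1 / 4) (3 / 8) (1 / 4) (1 / 16) x - G5 h (1 / 16) (1 / 4) (3 / 8) (1 / 4) (1 / 16) (-1)) := by
      unfold G5
      ring
    rw [e]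
    refine (lin5 (C0 := (1 + x) ^ 4)
      (C1 := (1 - x) * (1 + x) ^ 3)
      (C2 := (1 - x) ^ 2 * (1 + x) ^ 2)
      (C3 := (1 - x) ^ 3 * (1 + x))
      (C4 := (1 - x) ^ 4)
      (le_of_eq (by rw [abs_neg, abs_of_nonneg (by positivity)]))
      (le_of_eq (by rw [abs_neg, abs_neg, abs_of_nonneg (by positivity)]))
      (le_of_eq (by rw [abs_neg, abs_of_nonneg (by positivity)]))
      (le_of_eq (by rw [abs_neg, abs_of_nonneg (by positivity)]))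
      (le_of_eq (by rw [abs_of_nonneg (by positivity)]))
      k0 k1 k2 k3 k4).trans (le_of_eq ?_)
    ring

theorem ker54 (hd : ∀ (i : ℕ) (t : ℝ), HasDerivAt (h i) (((i : ℝ) + 1) * h (i + 1) t) t) {M : ℝ}
    (hM : ∀ t ∈ Icc (-1:ℝ) 1, |h 5 t| ≤ M) {x : ℝ} (hx0 : 1 / 2 ≤ x) (hx1 : x ≤ 1) :
    |h 4 x - (((-1 / 16)) * h 0 1 +
        ((1 / 8)) * h 1 1 +
        ((-1 / 4)) * h 2 1 +
        ((1 / 2)) * h 3 1 +
        ((1 / 16)) * h 0 (-1))| ≤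
      ((25 / 8) + (-35 / 8) * x + (5 / 4) * x ^ 2 + (5 / 4) * x ^ 3 + (5 / 8) * x ^ 4 + (1 / 8) * x ^ 5) * M ∧
    |h 3 x - (((1 / 4) + (-1 / 4) * x) * h 0 1 +
        ((-1 / 2) + (1 / 2) * x) * h 1 1 +
        (1 + (-1) * x) * h 2 1 +
        ((-1) + 2 * x) * h 3 1 +
        ((-1 / 4) + (1 / 4) * x) * h 0 (-1))| ≤
      ((-2) + 12 * x + (-10) * x ^ 2) * M ∧
    |h 2 x - (((-3 / 8) + (3 / 4) * x + (-3 / 8) * x ^ 2) * h 0 1 +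
        ((3 / 4) + (-3 / 2) * x + (3 / 4) * x ^ 2) * h 1 1 +
        ((-1 / 2) + 3 * x + (-3 / 2) * x ^ 2) * h 2 1 +
        ((-3) * x + 3 * x ^ 2) * h 3 1 +
        ((3 / 8) + (-3 / 4) * x + (3 / 8) * x ^ 2) * h 0 (-1))| ≤
      ((3 / 4) + 12 * x + (-71 / 4) * x ^ 2 + (-15 / 2) * x ^ 3 + (45 / 4) * x ^ 4 + 5 * x ^ 5 + (-9 / 4) * x ^ 6 + (-3 / 2) * x ^ 7) * M ∧
    |h 1 x - (((1 / 4) + (-3 / 4) * x + (3 / 4) * x ^ 2 + (-1 / 4) * x ^ 3) * h 0 1 +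
        ((1 / 2) + (3 / 2) * x + (-3 / 2) * x ^ 2 + (1 / 2) * x ^ 3) * h 1 1 +
        ((-1) + (-1) * x + 3 * x ^ 2 + (-1) * x ^ 3) * h 2 1 +
        (1 + (-3) * x ^ 2 + 2 * x ^ 3) * h 3 1 +
        ((-1 / 4) + (3 / 4) * x + (-3 / 4) * x ^ 2 + (1 / 4) * x ^ 3) * h 0 (-1))| ≤
      (3 + 4 * x + (-21) * x ^ 2 + 4 * x ^ 3 + 20 * x ^ 4 + (-13) * x ^ 6 + 3 * x ^ 8) * M ∧
    |h 0 x - (((15 / 16) + (1 / 4) * x + (-3 / 8) * x ^ 2 + (1 / 4) * x ^ 3 + (-1 / 16) * x ^ 4) * h 0 1 +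
        ((-7 / 8) + (1 / 2) * x + (3 / 4) * x ^ 2 + (-1 / 2) * x ^ 3 + (1 / 8) * x ^ 4) * h 1 1 +
        ((3 / 4) + (-1) * x + (-1 / 2) * x ^ 2 + 1 * x ^ 3 + (-1 / 4) * x ^ 4) * h 2 1 +
        ((-1 / 2) + 1 * x + (-1) * x ^ 3 + (1 / 2) * x ^ 4) * h 3 1 +
        ((1 / 16) + (-1 / 4) * x + (3 / 8) * x ^ 2 + (-1 / 4) * x ^ 3 + (1 / 16) * x ^ 4) * h 0 (-1))| ≤
      ((25 / 8) + (-55 / 8) * x + (-5 / 2) * x ^ 2 + (25 / 2) * x ^ 3 + (-1 / 4) * x ^ 4 + (-37 / 4) * x ^ 5 + (-1 / 2) * x ^ 6 + (9 / 2) * x ^ 7 + (1 / 8) * x ^ 8 + (-7 / 8) * x ^ 9) * M := by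
  have hx : 0 ≤ x := by linarith
  have hs : 0 ≤ 1 - x := by linarith
  have hp : 0 ≤ 1 + x := by linarith
  have hw : 0 ≤ 4 * x - 2 := by linarith
  have k0 := G5_le hd hM (a0 := 1 / 16) (a1 := (-1 / 4)) (a2 := 3 / 8) (a3 := (-1 / 4)) (a4 := 1 / 16) (by
      intro t ht
      have h1 : 0 ≤ 1 + t := by linarith [ht.1]
      have h2 : 0 ≤ 1 - t := by linarith [ht.2]
      have h3 : 0 ≤ (1 / 16 : ℝ) * (1 + t) ^ 0 * (1 - t) ^ 4 := by positivity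
      nlinarith [h3])
    (a := x) (b := 1) (by linarith) (by linarith) le_rfl
  have k1 := G5_le hd hM (a0 := 1 / 4) (a1 := (-1 / 2)) (a2 := 0) (a3 := 1 / 2) (a4 := (-1 / 4)) (by
      intro t ht
      have h1 : 0 ≤ 1 + t := by linarith [ht.1]
      have h2 : 0 ≤ 1 - t := by linarith [ht.2]
      have h3 : 0 ≤ (1 / 4 : ℝ) * (1 + t) ^ 1 * (1 - t) ^ 3 := by positivity
      nlinarith [h3])
    (a := x) (b := 1) (by linarith) (by linarith) le_rfl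
  have k2 := G5_le hd hM (a0 := 3 / 8) (a1 := 0) (a2 := (-3 / 4)) (a3 := 0) (a4 := 3 / 8) (by
      intro t ht
      have h1 : 0 ≤ 1 + t := by linarith [ht.1]
      have h2 : 0 ≤ 1 - t := by linarith [ht.2]
      have h3 : 0 ≤ (3 / 8 : ℝ) * (1 + t) ^ 2 * (1 - t) ^ 2 := by positivity
      nlinarith [h3])
    (a := x) (b := 1) (by linarith) (by linarith) le_rfl
  have k3 := G5_le hd hM (a0 := 1 / 4) (a1 := 1 / 2) (a2 := 0) (a3 := (-1 / 2)) (a4 := (-1 / 4)) (by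
      intro t ht
      have h1 : 0 ≤ 1 + t := by linarith [ht.1]
      have h2 : 0 ≤ 1 - t := by linarith [ht.2]
      have h3 : 0 ≤ (1 / 4 : ℝ) * (1 + t) ^ 3 * (1 - t) ^ 1 := by positivity
      nlinarith [h3])
    (a := x) (b := 1) (by linarith) (by linarith) le_rfl
  have k4 := G5_le hd hM (a0 := 1 / 16) (a1 := 1 / 4) (a2 := 3 / 8) (a3 := 1 / 4) (a4 := 1 / 16) (by
      intro t ht
      have h1 : 0 ≤ 1 + t := by linarith [ht.1]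
      have h2 : 0 ≤ 1 - t := by linarith [ht.2]
      have h3 : 0 ≤ (1 / 16 : ℝ) * (1 + t) ^ 4 * (1 - t) ^ 0 := by positivity
      nlinarith [h3])
    (a := -1) (b := x) le_rfl (by linarith) (by linarith)
  refine ⟨?_, ?_, ?_, ?_, ?_⟩
  · have e : h 4 x - (((-1 / 16)) * h 0 1 +
        ((1 / 8)) * h 1 1 +
        ((-1 / 4)) * h 2 1 +
        ((1 / 2)) * h 3 1 +
        ((1 / 16)) * h 0 (-1)) =
        (-(1)) * (G5 h (1 / 16) (-1 / 4) (3 / 8) (-1 / 4) (1 / 16) 1 - G5 h (1 / 16) (-1 / 4) (3 / 8) (-1 / 4) (1 / 16) x) +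
        (-(1)) * (G5 h (1 / 4) (-1 / 2) 0 (1 / 2) (-1 / 4) 1 - G5 h (1 / 4) (-1 / 2) 0 (1 / 2) (-1 / 4) x) +
        (-(1)) * (G5 h (3 / 8) 0 (-3 / 4) 0 (3 / 8) 1 - G5 h (3 / 8) 0 (-3 / 4) 0 (3 / 8) x) +
        (-(1)) * (G5 h (1 / 4) (1 / 2) 0 (-1 / 2) (-1 / 4) 1 - G5 h (1 / 4) (1 / 2) 0 (-1 / 2) (-1 / 4) x) +
        (1) * (G5 h (1 / 16) (1 / 4) (3 / 8) (1 / 4) (1 / 16) x - G5 h (1 / 16) (1 / 4) (3 / 8) (1 / 4) (1 / 16) (-1)) := by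
      unfold G5
      ring
    rw [e]
    refine (lin5 (C0 := 1)
      (C1 := 1)
      (C2 := 1)
      (C3 := 1)
      (C4 := 1)
      (le_of_eq (by rw [abs_neg, abs_of_nonneg (by positivity)]))
      (le_of_eq (by rw [abs_neg, abs_of_nonneg (by positivity)]))
      (le_of_eq (by rw [abs_neg, abs_of_nonneg (by positivity)]))
      (le_of_eq (by rw [abs_neg, abs_of_nonneg (by positivity)]))
      (le_of_eq (by rw [abs_of_nonneg (by positivity)]))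
      k0 k1 k2 k3 k4).trans (le_of_eq ?_)
    ring
  · have e : h 3 x - (((1 / 4) + (-1 / 4) * x) * h 0 1 +
        ((-1 / 2) + (1 / 2) * x) * h 1 1 +
        (1 + (-1) * x) * h 2 1 +
        ((-1) + 2 * x) * h 3 1 +
        ((-1 / 4) + (1 / 4) * x) * h 0 (-1)) =
        (-(4 * (1 + x))) * (G5 h (1 / 16) (-1 / 4) (3 / 8) (-1 / 4) (1 / 16) 1 - G5 h (1 / 16) (-1 / 4) (3 / 8) (-1 / 4) (1 / 16) x) +
        (-(2 + 4 * x)) * (G5 h (1 / 4) (-1 / 2) 0 (1 / 2) (-1 / 4) 1 - G5 h (1 / 4) (-1 / 2) 0 (1 / 2) (-1 / 4) x) +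
        (-(4 * x)) * (G5 h (3 / 8) 0 (-3 / 4) 0 (3 / 8) 1 - G5 h (3 / 8) 0 (-3 / 4) 0 (3 / 8) x) +
        (-((4 * x - 2))) * (G5 h (1 / 4) (1 / 2) 0 (-1 / 2) (-1 / 4) 1 - G5 h (1 / 4) (1 / 2) 0 (-1 / 2) (-1 / 4) x) +
        (-(4 * (1 - x))) * (G5 h (1 / 16) (1 / 4) (3 / 8) (1 / 4) (1 / 16) x - G5 h (1 / 16) (1 / 4) (3 / 8) (1 / 4) (1 / 16) (-1)) := by
      unfold G5
      ring
    rw [e]
    refine (lin5 (C0 := 4 * (1 + x))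
      (C1 := 2 + 4 * x)
      (C2 := 4 * x)
      (C3 := (4 * x - 2))
      (C4 := 4 * (1 - x))
      (le_of_eq (by rw [abs_neg, abs_of_nonneg (by positivity)]))
      (le_of_eq (by rw [abs_neg, abs_of_nonneg (by positivity)]))
      (le_of_eq (by rw [abs_neg, abs_of_nonneg (by positivity)]))
      (le_of_eq (by rw [abs_neg, abs_of_nonneg (by positivity)]))
      (le_of_eq (by rw [abs_neg, abs_of_nonneg (by positivity)]))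
      k0 k1 k2 k3 k4).trans (le_of_eq ?_)
    ring
  · have e : h 2 x - (((-3 / 8) + (3 / 4) * x + (-3 / 8) * x ^ 2) * h 0 1 +
        ((3 / 4) + (-3 / 2) * x + (3 / 4) * x ^ 2) * h 1 1 +
        ((-1 / 2) + 3 * x + (-3 / 2) * x ^ 2) * h 2 1 +
        ((-3) * x + 3 * x ^ 2) * h 3 1 +
        ((3 / 8) + (-3 / 4) * x + (3 / 8) * x ^ 2) * h 0 (-1)) =
        (-(6 * (1 + x) ^ 2)) * (G5 h (1 / 16) (-1 / 4) (3 / 8) (-1 / 4) (1 / 16) 1 - G5 h (1 / 16) (-1 / 4) (3 / 8) (-1 / 4) (1 / 16) x) +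
        (-(6 * (1 + x) * x)) * (G5 h (1 / 4) (-1 / 2) 0 (1 / 2) (-1 / 4) 1 - G5 h (1 / 4) (-1 / 2) 0 (1 / 2) (-1 / 4) x) +
        (-(6 * x ^ 2 - 2)) * (G5 h (3 / 8) 0 (-3 / 4) 0 (3 / 8) 1 - G5 h (3 / 8) 0 (-3 / 4) 0 (3 / 8) x) +
        (-(-(6 * (1 - x) * x))) * (G5 h (1 / 4) (1 / 2) 0 (-1 / 2) (-1 / 4) 1 - G5 h (1 / 4) (1 / 2) 0 (-1 / 2) (-1 / 4) x) +
        (6 * (1 - x) ^ 2) * (G5 h (1 / 16) (1 / 4) (3 / 8) (1 / 4) (1 / 16) x - G5 h (1 / 16) (1 / 4) (3 / 8) (1 / 4) (1 / 16) (-1)) := by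
      unfold G5
      ring
    rw [e]
    refine (lin5 (C0 := 6 * (1 + x) ^ 2)
      (C1 := 6 * (1 + x) * x)
      (C2 := 4 * x ^ 2)
      (C3 := 6 * (1 - x) * x)
      (C4 := 6 * (1 - x) ^ 2)
      (le_of_eq (by rw [abs_neg, abs_of_nonneg (by positivity)]))
      (le_of_eq (by rw [abs_neg, abs_of_nonneg (by positivity)]))
      (by rw [abs_le]; constructor <;> nlinarith)
      (le_of_eq (by rw [abs_neg, abs_neg, abs_of_nonneg (by positivity)]))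
      (le_of_eq (by rw [abs_of_nonneg (by positivity)]))
      k0 k1 k2 k3 k4).trans (le_of_eq ?_)
    ring
  · have e : h 1 x - (((1 / 4) + (-3 / 4) * x + (3 / 4) * x ^ 2 + (-1 / 4) * x ^ 3) * h 0 1 +
        ((1 / 2) + (3 / 2) * x + (-3 / 2) * x ^ 2 + (1 / 2) * x ^ 3) * h 1 1 +
        ((-1) + (-1) * x + 3 * x ^ 2 + (-1) * x ^ 3) * h 2 1 +
        (1 + (-3) * x ^ 2 + 2 * x ^ 3) * h 3 1 +
        ((-1 / 4) + (3 / 4) * x + (-3 / 4) * x ^ 2 + (1 / 4) * x ^ 3) * h 0 (-1)) =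
        (-(4 * (1 + x) ^ 3)) * (G5 h (1 / 16) (-1 / 4) (3 / 8) (-1 / 4) (1 / 16) 1 - G5 h (1 / 16) (-1 / 4) (3 / 8) (-1 / 4) (1 / 16) x) +
        (-((1 + x) ^ 2 * (4 * x - 2))) * (G5 h (1 / 4) (-1 / 2) 0 (1 / 2) (-1 / 4) 1 - G5 h (1 / 4) (-1 / 2) 0 (1 / 2) (-1 / 4) x) +
        (-(-(4 * x * ((1 - x) * (1 + x))))) * (G5 h (3 / 8) 0 (-3 / 4) 0 (3 / 8) 1 - G5 h (3 / 8) 0 (-3 / 4) 0 (3 / 8) x) +
        (-((1 - x) ^ 2 * (2 + 4 * x))) * (G5 h (1 / 4) (1 / 2) 0 (-1 / 2) (-1 / 4) 1 - G5 h (1 / 4) (1 / 2) 0 (-1 / 2) (-1 / 4) x) +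
        (-(4 * (1 - x) ^ 3)) * (G5 h (1 / 16) (1 / 4) (3 / 8) (1 / 4) (1 / 16) x - G5 h (1 / 16) (1 / 4) (3 / 8) (1 / 4) (1 / 16) (-1)) := by
      unfold G5
      ring
    rw [e]
    refine (lin5 (C0 := 4 * (1 + x) ^ 3)
      (C1 := (1 + x) ^ 2 * (4 * x - 2))
      (C2 := 4 * x * ((1 - x) * (1 + x)))
      (C3 := (1 - x) ^ 2 * (2 + 4 * x))
      (C4 := 4 * (1 - x) ^ 3)
      (le_of_eq (by rw [abs_neg, abs_of_nonneg (by positivity)]))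
      (le_of_eq (by rw [abs_neg, abs_of_nonneg (by positivity)]))
      (le_of_eq (by rw [abs_neg, abs_neg, abs_of_nonneg (by positivity)]))
      (le_of_eq (by rw [abs_neg, abs_of_nonneg (by positivity)]))
      (le_of_eq (by rw [abs_neg, abs_of_nonneg (by positivity)]))
      k0 k1 k2 k3 k4).trans (le_of_eq ?_)
    ring
  · have e : h 0 x - (((15 / 16) + (1 / 4) * x + (-3 / 8) * x ^ 2 + (1 / 4) * x ^ 3 + (-1 / 16) * x ^ 4) * h 0 1 +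
        ((-7 / 8) + (1 / 2) * x + (3 / 4) * x ^ 2 + (-1 / 2) * x ^ 3 + (1 / 8) * x ^ 4) * h 1 1 +
        ((3 / 4) + (-1) * x + (-1 / 2) * x ^ 2 + 1 * x ^ 3 + (-1 / 4) * x ^ 4) * h 2 1 +
        ((-1 / 2) + 1 * x + (-1) * x ^ 3 + (1 / 2) * x ^ 4) * h 3 1 +
        ((1 / 16) + (-1 / 4) * x + (3 / 8) * x ^ 2 + (-1 / 4) * x ^ 3 + (1 / 16) * x ^ 4) * h 0 (-1)) =
        (-((1 + x) ^ 4)) * (G5 h (1 / 16) (-1 / 4) (3 / 8) (-1 / 4) (1 / 16) 1 - G5 h (1 / 16) (-1 / 4) (3 / 8) (-1 / 4) (1 / 16) x) +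
        (-(-((1 - x) * (1 + x) ^ 3))) * (G5 h (1 / 4) (-1 / 2) 0 (1 / 2) (-1 / 4) 1 - G5 h (1 / 4) (-1 / 2) 0 (1 / 2) (-1 / 4) x) +
        (-((1 - x) ^ 2 * (1 + x) ^ 2)) * (G5 h (3 / 8) 0 (-3 / 4) 0 (3 / 8) 1 - G5 h (3 / 8) 0 (-3 / 4) 0 (3 / 8) x) +
        (-(-((1 - x) ^ 3 * (1 + x)))) * (G5 h (1 / 4) (1 / 2) 0 (-1 / 2) (-1 / 4) 1 - G5 h (1 / 4) (1 / 2) 0 (-1 / 2) (-1 / 4) x) +
        ((1 - x) ^ 4) * (G5 h (1 / 16) (1 / 4) (3 / 8) (1 / 4) (1 / 16) x - G5 h (1 / 16) (1 / 4) (3 / 8) (1 / 4) (1 / 16) (-1)) := by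
      unfold G5
      ring
    rw [e]
    refine (lin5 (C0 := (1 + x) ^ 4)
      (C1 := (1 - x) * (1 + x) ^ 3)
      (C2 := (1 - x) ^ 2 * (1 + x) ^ 2)
      (C3 := (1 - x) ^ 3 * (1 + x))
      (C4 := (1 - x) ^ 4)
      (le_of_eq (by rw [abs_neg, abs_of_nonneg (by positivity)]))
      (le_of_eq (by rw [abs_neg, abs_neg, abs_of_nonneg (by positivity)]))
      (le_of_eq (by rw [abs_neg, abs_of_nonneg (by positivity)]))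
      (le_of_eq (by rw [abs_neg, abs_neg, abs_of_nonneg (by positivity)]))
      (le_of_eq (by rw [abs_of_nonneg (by positivity)]))
      k0 k1 k2 k3 k4).trans (le_of_eq ?_)
    ring

end Pool.Agent.HSmall
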