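import Mathlib

/-!
# Two-point Hermite bounds for small orders: the tools

`h i` is the `i`-th normalised derivative of a polynomial. For a polynomial weight `Q` of degree
`k - 1` the function `G` satisfies `G' = k h_k Q`.
-/

set_option autoImplicit false

namespace Pool.Agent.HSmall

open Set

/-- Comparison of increments. -/
theorem cmp {f g f' g' : ℝ → ℝ} (hf : ∀ t, HasDerivAt f (f' t) t)
    (hg : ∀ t, HasDerivAt g (g' t) t) {a b : ℝ} (hab : a ≤ b)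
    (h : ∀ t ∈ Icc a b, |f' t| ≤ g' t) : |f b - f a| ≤ g b - g a := by
  have hm : ∀ σ : ℝ, |σ| = 1 → f a * σ + g a ≤ f b * σ + g b := by
    intro σ hσ
    have hd : ∀ t, HasDerivAt (fun t => f t * σ + g t) (f' t * σ + g' t) t := fun t =>
      ((hf t).mul_const σ).add (hg t)
    have hmono : MonotoneOn (fun t => f t * σ + g t) (Icc a b) := by
      apply monotoneOn_of_deriv_nonneg (convex_Icc a b)
      · exact fun t _ => (hd t).continuousAt.continuousWithinAt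
      · exact fun t _ => (hd t).differentiableAt.differentiableWithinAt
      · intro t ht
        rw [interior_Icc] at ht
        rw [(hd t).deriv]
        have h1 := h t ⟨ht.1.le, ht.2.le⟩
        have h2 : |f' t * σ| ≤ g' t := by rw [abs_mul, hσ, mul_one]; exact h1
        linarith [(abs_le.1 h2).1]
    exact hmono (left_mem_Icc.2 hab) (right_mem_Icc.2 hab) hab
  have h1 := hm 1 (by simp)
  have h2 := hm (-1) (by simp)
  rw [abs_le]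
  constructor <;> linarith

section three

variable {h : ℕ → ℝ → ℝ}

/-- The primitive of `3 h_3 Q`, `Q = a0 + a1 t + a2 t²`. -/
noncomputable def G3 (h : ℕ → ℝ → ℝ) (a0 a1 a2 t : ℝ) : ℝ :=
  h 2 t * (a0 + a1 * t + a2 * t ^ 2) - h 1 t * ((a1 + 2 * a2 * t) / 2) + h 0 t * a2

theorem hasDerivAt_G3 (hd : ∀ (i : ℕ) (t : ℝ), HasDerivAt (h i) (((i : ℝ) + 1) * h (i + 1) t) t)
    (a0 a1 a2 t : ℝ) :
    HasDerivAt (G3 h a0 a1 a2) (3 * h 3 t * (a0 + a1 * t + a2 * t ^ 2)) t := by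
  have q0 : HasDerivAt (fun t : ℝ => a0 + a1 * t + a2 * t ^ 2) (a1 + 2 * a2 * t) t := by
    have := (((hasDerivAt_id t).const_mul a1).const_add a0).add
      ((hasDerivAt_pow 2 t).const_mul a2)
    refine this.congr_deriv ?_
    simp; ring
  have q1 : HasDerivAt (fun t : ℝ => (a1 + 2 * a2 * t) / 2) a2 t := by
    have := (((hasDerivAt_id t).const_mul (2 * a2)).const_add a1).div_const 2
    refine this.congr_deriv ?_
    simp
  have := (((hd 2 t).mul q0).sub ((hd 1 t).mul q1)).add ((hd 0 t).mul_const a2)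
  refine this.congr_deriv ?_
  push_cast
  norm_num
  ring

theorem hasDerivAt_A3 (a0 a1 a2 t : ℝ) :
    HasDerivAt (fun t : ℝ => a0 * t + a1 * t ^ 2 / 2 + a2 * t ^ 3 / 3) (a0 + a1 * t + a2 * t ^ 2)
      t := by
  have := (((hasDerivAt_id t).const_mul a0).add
    (((hasDerivAt_pow 2 t).const_mul a1).div_const 2)).add
    (((hasDerivAt_pow 3 t).const_mul a2).div_const 3)
  refine this.congr_deriv ?_
  simp; ring

/-- Bound of the increment of `G3`. -/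
theorem G3_le (hd : ∀ (i : ℕ) (t : ℝ), HasDerivAt (h i) (((i : ℝ) + 1) * h (i + 1) t) t) {M : ℝ}
    (hM : ∀ t ∈ Icc (-1:ℝ) 1, |h 3 t| ≤ M) {a0 a1 a2 : ℝ}
    (hQ : ∀ t ∈ Icc (-1:ℝ) 1, 0 ≤ a0 + a1 * t + a2 * t ^ 2) {a b : ℝ} (ha : -1 ≤ a) (hab : a ≤ b)
    (hb : b ≤ 1) :
    |G3 h a0 a1 a2 b - G3 h a0 a1 a2 a| ≤
      (3 * ((a0 * b + a1 * b ^ 2 / 2 + a2 * b ^ 3 / 3) -
        (a0 * a + a1 * a ^ 2 / 2 + a2 * a ^ 3 / 3))) * M := by
  have := cmp (fun t => hasDerivAt_G3 hd a0 a1 a2 t)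
    (fun t => (hasDerivAt_A3 a0 a1 a2 t).const_mul (3 * M)) hab (by
      intro t ht
      have ht' : t ∈ Icc (-1:ℝ) 1 := ⟨ha.trans ht.1, ht.2.trans hb⟩
      have h1 := hM t ht'
      have h2 := hQ t ht'
      rw [abs_mul, abs_mul, abs_of_nonneg h2]
      have h3 : |(3:ℝ)| = 3 := by norm_num
      rw [h3]
      exact mul_le_mul_of_nonneg_right (mul_le_mul_of_nonneg_left h1 (by norm_num)) h2)
  linarith

end three

section four

variable {h : ℕ → ℝ → ℝ}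

/-- The primitive of `4 h_4 Q`, `Q` cubic. -/
noncomputable def G4 (h : ℕ → ℝ → ℝ) (a0 a1 a2 a3 t : ℝ) : ℝ :=
  h 3 t * (a0 + a1 * t + a2 * t ^ 2 + a3 * t ^ 3) -
    h 2 t * ((a1 + 2 * a2 * t + 3 * a3 * t ^ 2) / 3) + h 1 t * ((a2 + 3 * a3 * t) / 3) -
    h 0 t * a3

theorem hasDerivAt_G4 (hd : ∀ (i : ℕ) (t : ℝ), HasDerivAt (h i) (((i : ℝ) + 1) * h (i + 1) t) t)
    (a0 a1 a2 a3 t : ℝ) :
    HasDerivAt (G4 h a0 a1 a2 a3) (4 * h 4 t * (a0 + a1 * t + a2 * t ^ 2 + a3 * t ^ 3)) t := by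
  have q0 : HasDerivAt (fun t : ℝ => a0 + a1 * t + a2 * t ^ 2 + a3 * t ^ 3)
      (a1 + 2 * a2 * t + 3 * a3 * t ^ 2) t := by
    have := ((((hasDerivAt_id t).const_mul a1).const_add a0).add
      ((hasDerivAt_pow 2 t).const_mul a2)).add ((hasDerivAt_pow 3 t).const_mul a3)
    refine this.congr_deriv ?_
    simp; ring
  have q1 : HasDerivAt (fun t : ℝ => (a1 + 2 * a2 * t + 3 * a3 * t ^ 2) / 3)
      ((2 * a2 + 6 * a3 * t) / 3) t := by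
    have := ((((hasDerivAt_id t).const_mul (2 * a2)).const_add a1).add
      ((hasDerivAt_pow 2 t).const_mul (3 * a3))).div_const 3
    refine this.congr_deriv ?_
    simp; ring
  have q2 : HasDerivAt (fun t : ℝ => (a2 + 3 * a3 * t) / 3) a3 t := by
    have := (((hasDerivAt_id t).const_mul (3 * a3)).const_add a2).div_const 3
    refine this.congr_deriv ?_
    simp
  have := ((((hd 3 t).mul q0).sub ((hd 2 t).mul q1)).add ((hd 1 t).mul q2)).sub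
    ((hd 0 t).mul_const a3)
  refine this.congr_deriv ?_
  push_cast
  norm_num
  ring

theorem hasDerivAt_A4 (a0 a1 a2 a3 t : ℝ) :
    HasDerivAt (fun t : ℝ => a0 * t + a1 * t ^ 2 / 2 + a2 * t ^ 3 / 3 + a3 * t ^ 4 / 4)
      (a0 + a1 * t + a2 * t ^ 2 + a3 * t ^ 3) t := by
  have := ((((hasDerivAt_id t).const_mul a0).add
    (((hasDerivAt_pow 2 t).const_mul a1).div_const 2)).add
    (((hasDerivAt_pow 3 t).const_mul a2).div_const 3)).add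
    (((hasDerivAt_pow 4 t).const_mul a3).div_const 4)
  refine this.congr_deriv ?_
  simp; ring

/-- Bound of the increment of `G4`. -/
theorem G4_le (hd : ∀ (i : ℕ) (t : ℝ), HasDerivAt (h i) (((i : ℝ) + 1) * h (i + 1) t) t) {M : ℝ}
    (hM : ∀ t ∈ Icc (-1:ℝ) 1, |h 4 t| ≤ M) {a0 a1 a2 a3 : ℝ}
    (hQ : ∀ t ∈ Icc (-1:ℝ) 1, 0 ≤ a0 + a1 * t + a2 * t ^ 2 + a3 * t ^ 3) {a b : ℝ} (ha : -1 ≤ a)
    (hab : a ≤ b) (hb : b ≤ 1) :
    |G4 h a0 a1 a2 a3 b - G4 h a0 a1 a2 a3 a| ≤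
      (4 * ((a0 * b + a1 * b ^ 2 / 2 + a2 * b ^ 3 / 3 + a3 * b ^ 4 / 4) -
        (a0 * a + a1 * a ^ 2 / 2 + a2 * a ^ 3 / 3 + a3 * a ^ 4 / 4))) * M := by
  have := cmp (fun t => hasDerivAt_G4 hd a0 a1 a2 a3 t)
    (fun t => (hasDerivAt_A4 a0 a1 a2 a3 t).const_mul (4 * M)) hab (by
      intro t ht
      have ht' : t ∈ Icc (-1:ℝ) 1 := ⟨ha.trans ht.1, ht.2.trans hb⟩
      have h1 := hM t ht'
      have h2 := hQ t ht'
      rw [abs_mul, abs_mul, abs_of_nonneg h2]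
      have h3 : |(4:ℝ)| = 4 := by norm_num
      rw [h3]
      exact mul_le_mul_of_nonneg_right (mul_le_mul_of_nonneg_left h1 (by norm_num)) h2)
  linarith

end four

section five

variable {h : ℕ → ℝ → ℝ}

/-- The primitive of `5 h_5 Q`, `Q` quartic. -/
noncomputable def G5 (h : ℕ → ℝ → ℝ) (a0 a1 a2 a3 a4 t : ℝ) : ℝ :=
  h 4 t * (a0 + a1 * t + a2 * t ^ 2 + a3 * t ^ 3 + a4 * t ^ 4) -
    h 3 t * ((a1 + 2 * a2 * t + 3 * a3 * t ^ 2 + 4 * a4 * t ^ 3) / 4) +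
    h 2 t * ((a2 + 3 * a3 * t + 6 * a4 * t ^ 2) / 6) - h 1 t * ((a3 + 4 * a4 * t) / 4) +
    h 0 t * a4

theorem hasDerivAt_G5 (hd : ∀ (i : ℕ) (t : ℝ), HasDerivAt (h i) (((i : ℝ) + 1) * h (i + 1) t) t)
    (a0 a1 a2 a3 a4 t : ℝ) :
    HasDerivAt (G5 h a0 a1 a2 a3 a4)
      (5 * h 5 t * (a0 + a1 * t + a2 * t ^ 2 + a3 * t ^ 3 + a4 * t ^ 4)) t := by
  have q0 : HasDerivAt (fun t : ℝ => a0 + a1 * t + a2 * t ^ 2 + a3 * t ^ 3 + a4 * t ^ 4)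
      (a1 + 2 * a2 * t + 3 * a3 * t ^ 2 + 4 * a4 * t ^ 3) t := by
    have := (((((hasDerivAt_id t).const_mul a1).const_add a0).add
      ((hasDerivAt_pow 2 t).const_mul a2)).add ((hasDerivAt_pow 3 t).const_mul a3)).add
      ((hasDerivAt_pow 4 t).const_mul a4)
    refine this.congr_deriv ?_
    simp; ring
  have q1 : HasDerivAt (fun t : ℝ => (a1 + 2 * a2 * t + 3 * a3 * t ^ 2 + 4 * a4 * t ^ 3) / 4)
      ((2 * a2 + 6 * a3 * t + 12 * a4 * t ^ 2) / 4) t := by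
    have := (((((hasDerivAt_id t).const_mul (2 * a2)).const_add a1).add
      ((hasDerivAt_pow 2 t).const_mul (3 * a3))).add
      ((hasDerivAt_pow 3 t).const_mul (4 * a4))).div_const 4
    refine this.congr_deriv ?_
    simp; ring
  have q2 : HasDerivAt (fun t : ℝ => (a2 + 3 * a3 * t + 6 * a4 * t ^ 2) / 6)
      ((3 * a3 + 12 * a4 * t) / 6) t := by
    have := ((((hasDerivAt_id t).const_mul (3 * a3)).const_add a2).add
      ((hasDerivAt_pow 2 t).const_mul (6 * a4))).div_const 6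
    refine this.congr_deriv ?_
    simp; ring
  have q3 : HasDerivAt (fun t : ℝ => (a3 + 4 * a4 * t) / 4) a4 t := by
    have := (((hasDerivAt_id t).const_mul (4 * a4)).const_add a3).div_const 4
    refine this.congr_deriv ?_
    simp
  have := (((((hd 4 t).mul q0).sub ((hd 3 t).mul q1)).add ((hd 2 t).mul q2)).sub
    ((hd 1 t).mul q3)).add ((hd 0 t).mul_const a4)
  refine this.congr_deriv ?_
  push_cast
  norm_num
  ring

theorem hasDerivAt_A5 (a0 a1 a2 a3 a4 t : ℝ) :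
    HasDerivAt (fun t : ℝ => a0 * t + a1 * t ^ 2 / 2 + a2 * t ^ 3 / 3 + a3 * t ^ 4 / 4 +
      a4 * t ^ 5 / 5) (a0 + a1 * t + a2 * t ^ 2 + a3 * t ^ 3 + a4 * t ^ 4) t := by
  have := (((((hasDerivAt_id t).const_mul a0).add
    (((hasDerivAt_pow 2 t).const_mul a1).div_const 2)).add
    (((hasDerivAt_pow 3 t).const_mul a2).div_const 3)).add
    (((hasDerivAt_pow 4 t).const_mul a3).div_const 4)).add
    (((hasDerivAt_pow 5 t).const_mul a4).div_const 5)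
  refine this.congr_deriv ?_
  simp; ring

/-- Bound of the increment of `G5`. -/
theorem G5_le (hd : ∀ (i : ℕ) (t : ℝ), HasDerivAt (h i) (((i : ℝ) + 1) * h (i + 1) t) t) {M : ℝ}
    (hM : ∀ t ∈ Icc (-1:ℝ) 1, |h 5 t| ≤ M) {a0 a1 a2 a3 a4 : ℝ}
    (hQ : ∀ t ∈ Icc (-1:ℝ) 1, 0 ≤ a0 + a1 * t + a2 * t ^ 2 + a3 * t ^ 3 + a4 * t ^ 4) {a b : ℝ}
    (ha : -1 ≤ a) (hab : a ≤ b) (hb : b ≤ 1) :
    |G5 h a0 a1 a2 a3 a4 b - G5 h a0 a1 a2 a3 a4 a| ≤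
      (5 * ((a0 * b + a1 * b ^ 2 / 2 + a2 * b ^ 3 / 3 + a3 * b ^ 4 / 4 + a4 * b ^ 5 / 5) -
        (a0 * a + a1 * a ^ 2 / 2 + a2 * a ^ 3 / 3 + a3 * a ^ 4 / 4 + a4 * a ^ 5 / 5))) * M := by
  have := cmp (fun t => hasDerivAt_G5 hd a0 a1 a2 a3 a4 t)
    (fun t => (hasDerivAt_A5 a0 a1 a2 a3 a4 t).const_mul (5 * M)) hab (by
      intro t ht
      have ht' : t ∈ Icc (-1:ℝ) 1 := ⟨ha.trans ht.1, ht.2.trans hb⟩
      have h1 := hM t ht'
      have h2 := hQ t ht'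
      rw [abs_mul, abs_mul, abs_of_nonneg h2]
      have h3 : |(5:ℝ)| = 5 := by norm_num
      rw [h3]
      exact mul_le_mul_of_nonneg_right (mul_le_mul_of_nonneg_left h1 (by norm_num)) h2)
  linarith

end five

/-- `|∑ c_i D_i| ≤ ∑ C_i O_i`. -/
theorem lin3 {c0 c1 c2 D0 D1 D2 C0 C1 C2 O0 O1 O2 : ℝ} (h0 : |c0| ≤ C0) (h1 : |c1| ≤ C1)
    (h2 : |c2| ≤ C2) (k0 : |D0| ≤ O0) (k1 : |D1| ≤ O1) (k2 : |D2| ≤ O2) :
    |c0 * D0 + c1 * D1 + c2 * D2| ≤ C0 * O0 + C1 * O1 + C2 * O2 := by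
  have e0 : |c0 * D0| ≤ C0 * O0 := by
    rw [abs_mul]; exact mul_le_mul h0 k0 (abs_nonneg _) ((abs_nonneg _).trans h0)
  have e1 : |c1 * D1| ≤ C1 * O1 := by
    rw [abs_mul]; exact mul_le_mul h1 k1 (abs_nonneg _) ((abs_nonneg _).trans h1)
  have e2 : |c2 * D2| ≤ C2 * O2 := by
    rw [abs_mul]; exact mul_le_mul h2 k2 (abs_nonneg _) ((abs_nonneg _).trans h2)
  have a1 := abs_add_le (c0 * D0 + c1 * D1) (c2 * D2)
  have a2 := abs_add_le (c0 * D0) (c1 * D1)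
  linarith

theorem lin4 {c0 c1 c2 c3 D0 D1 D2 D3 C0 C1 C2 C3 O0 O1 O2 O3 : ℝ} (h0 : |c0| ≤ C0)
    (h1 : |c1| ≤ C1) (h2 : |c2| ≤ C2) (h3 : |c3| ≤ C3) (k0 : |D0| ≤ O0) (k1 : |D1| ≤ O1)
    (k2 : |D2| ≤ O2) (k3 : |D3| ≤ O3) :
    |c0 * D0 + c1 * D1 + c2 * D2 + c3 * D3| ≤ C0 * O0 + C1 * O1 + C2 * O2 + C3 * O3 := by
  have e0 := lin3 h0 h1 h2 k0 k1 k2
  have e3 : |c3 * D3| ≤ C3 * O3 := by
    rw [abs_mul]; exact mul_le_mul h3 k3 (abs_nonneg _) ((abs_nonneg _).trans h3)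
  have a1 := abs_add_le (c0 * D0 + c1 * D1 + c2 * D2) (c3 * D3)
  linarith

theorem lin5 {c0 c1 c2 c3 c4 D0 D1 D2 D3 D4 C0 C1 C2 C3 C4 O0 O1 O2 O3 O4 : ℝ} (h0 : |c0| ≤ C0)
    (h1 : |c1| ≤ C1) (h2 : |c2| ≤ C2) (h3 : |c3| ≤ C3) (h4 : |c4| ≤ C4) (k0 : |D0| ≤ O0)
    (k1 : |D1| ≤ O1) (k2 : |D2| ≤ O2) (k3 : |D3| ≤ O3) (k4 : |D4| ≤ O4) :
    |c0 * D0 + c1 * D1 + c2 * D2 + c3 * D3 + c4 * D4| ≤
      C0 * O0 + C1 * O1 + C2 * O2 + C3 * O3 + C4 * O4 := by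
  have e0 := lin4 h0 h1 h2 h3 k0 k1 k2 k3
  have e3 : |c4 * D4| ≤ C4 * O4 := by
    rw [abs_mul]; exact mul_le_mul h4 k4 (abs_nonneg _) ((abs_nonneg _).trans h4)
  have a1 := abs_add_le (c0 * D0 + c1 * D1 + c2 * D2 + c3 * D3) (c4 * D4)
  linarith

end Pool.Agent.HSmall
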