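import Pool.Agent.HSmall.K3
import Pool.Agent.HSmall.EndS
import Pool.Agent.HSmall.Wrap

/-!
# The pointwise inequality of order 3, `x ∈ [0, 13/20]`
-/

set_option autoImplicit false

namespace Pool.Agent.HSmall

open Polynomial Set Complex Pool.Agent.HHalf Pool.Agent.HStar Pool.Agent.HFin

theorem zone3A {N : ℕ} {L : Fin N → ℂ} (hL : ∀ a, ‖L a‖ ≤ 1) (hN : 4 ≤ N) {a0 : Fin N} {x : ℝ}
    (hx0 : 0 ≤ x) (hx1 : x ≤ 13 / 20) (hR : (1 + x) / 2 ≤ (L a0).re)
    (htp : 71 / 20 ≤ ∑ a, (1 - (L a).re)) (htm : 3 ≤ ∑ a, (1 + (L a).re)) : PW L 3 x := by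
  have hw : 0 ≤ 13 / 20 - x := by linarith
  have hs : 0 ≤ 1 - x := by linarith
  have hx0' : 0 ≤ x := by linarith
  have hx1' : x < 1 := by linarith
  have hE := ends3 hL hN (s := 1 - x) (by linarith) (by linarith : 2 * (1 - (L a0).re) ≤ 1 - x)
  refine pw3 hN hL hx0' hx1' htp htm
    (b1 := ((3 / 2) + (-3 / 2) * x + (3 / 2) * x ^ 2 + (1 / 2) * x ^ 3) + ((27 / 100) + (-3 / 25) * x))
    (b2 := (1 + 2 * x + (-3) * x ^ 2) + ((1 / 5)))
    (b3 := ((3 / 2) + (-3 / 2) * x + (-2) * x ^ 2 + 2 * x ^ 3 + (1 / 2) * x ^ 4 + (-1 / 2) * x ^ 5) + ((3 / 25)))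
    (l2 := (63 / 100) + (-3 / 20) * x)
    (by
      have e2 : (0:ℝ) ≤ (14160 / 2197) * (13 / 20 - x) ^ 3 + (34056 / 2197) * x * (13 / 20 - x) ^ 2 + (30702 / 2197) * x ^ 2 * (13 / 20 - x) + (23809 / 4394) * x ^ 3 := by positivity
      exact e2.trans_eq (by ring))
    (by
      have e2 : (0:ℝ) ≤ (480 / 169) * (13 / 20 - x) ^ 2 + (1480 / 169) * x * (13 / 20 - x) + (493 / 169) * x ^ 2 := by positivity
      exact e2.trans_eq (by ring))
    (by
      have e2 : (0:ℝ) ≤ (5184000 / 371293) * (13 / 20 - x) ^ 5 + (22800000 / 371293) * x * (13 / 20 - x) ^ 4 + (36656000 / 371293) * x ^ 2 * (13 / 20 - x) ^ 3 + (26765600 / 371293) * x ^ 3 * (13 / 20 - x) ^ 2 + (9128810 / 371293) * x ^ 4 * (13 / 20 - x) + (2435127 / 742586) * x ^ 5 := by positivity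
      exact e2.trans_eq (by ring))
    (by
      have e2 : (0:ℝ) ≤ (63 / 65) * (13 / 20 - x) + (213 / 260) * x := by positivity
      exact e2.trans_eq (by ring))
    ?_ ?_ ?_ ?_ ?_ ?_ ?_ ?_
  · intro M hM
    have hM0 : 0 ≤ M := (abs_nonneg _).trans (hM 0 ⟨by norm_num, by norm_num⟩)
    have hk1 : hv L 3 1 ≤ M := (le_abs_self _).trans (hM 1 ⟨by norm_num, le_rfl⟩)
    have hD : (0:ℝ) < (12 + 25 * (1 - x)) := by linarith
    have P2 : (12 + 25 * (1 - x)) * hv L 1 1 ≤ (16 * (1 - x)) * M :=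
      hE.1.trans (mul_le_mul_of_nonneg_left hk1 (by linarith))
    have R2 : 0 ≤ hv L 1 1 := hv_one_nonneg hL 1
    have P3 : (12 + 25 * (1 - x)) * hv L 0 1 ≤ (4 * (1 - x)) * M :=
      hE.2.1.trans (mul_le_mul_of_nonneg_left hk1 (by linarith))
    have R3 : 0 ≤ hv L 0 1 := hv_one_nonneg hL 0
    have S3 : 0 ≤ hv L 0 (-1) := by simpa using hv_neg_one_nonneg hL 0
    have T3 : hv L 0 (-1) ≤ (1 / 7) * M := by
      have h5 := neg_zero (k := 3) (N0 := 4) hL hN (by norm_num) hM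
      rw [show Nat.choose (2 * 4) 3 = 56 by decide, abs_of_nonneg S3] at h5
      norm_num at h5
      linarith
    obtain ⟨k1, k2, k3⟩ := ker32 (h := hv L) (hseq_hv L) hM hx0 hx1'.le
    refine ⟨abs_comb k1 (ub hD ?_) (ub hD ?_),
      abs_comb k2 (ub hD ?_) (ub hD ?_),
      abs_comb0 k3 (hv_zero_nonneg L x) (ub hD ?_)⟩
    · have t0 : 0 ≤ ((117 / 175) + (-402 / 175) * x + 3 * x ^ 2) * M := mul_nonneg (by
        have e2 : (0:ℝ) ≤ (2880 / 1183) * (13 / 20 - x) ^ 3 + (2208 / 1183) * x * (13 / 20 - x) ^ 2 + (1236 / 1183) * x ^ 2 * (13 / 20 - x) + (1908 / 1183) * x ^ 3 := by positivity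
        exact e2.trans_eq (by ring)) hM0
      have t1 : 0 ≤ ((1 / 4)) * ((12 + 25 * (1 - x)) * hv L 0 1) :=
        mul_nonneg (by
          have e2 : (0:ℝ) ≤ (1 / 4) := by positivity
          exact e2.trans_eq (by ring)) (mul_nonneg hD.le R3)
      have t2 : 0 ≤ ((1 / 2)) * ((16 * (1 - x)) * M - (12 + 25 * (1 - x)) * hv L 1 1) :=
        mul_nonneg (by
          have e2 : (0:ℝ) ≤ (1 / 2) := by positivity
          exact e2.trans_eq (by ring)) (sub_nonneg.2 P2)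
      have t3 : 0 ≤ ((1 / 4)) * ((12 + 25 * (1 - x)) * ((1 / 7) * M - hv L 0 (-1))) :=
        mul_nonneg (by
          have e2 : (0:ℝ) ≤ (1 / 4) := by positivity
          exact e2.trans_eq (by ring)) (mul_nonneg hD.le (sub_nonneg.2 T3))
      refine (add_nonneg (add_nonneg (add_nonneg t0 t1) t2) t3).trans_eq ?_
      ring
    · have t0 : 0 ≤ ((899 / 100) + (-1019 / 100) * x + 3 * x ^ 2) * M := mul_nonneg (by
        have e2 : (0:ℝ) ≤ (3596 / 169) * (13 / 20 - x) ^ 2 + (22713 / 845) * x * (13 / 20 - x) + (7268 / 845) * x ^ 2 := by positivity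
        exact e2.trans_eq (by ring)) hM0
      have t1 : 0 ≤ ((1 / 4)) * ((4 * (1 - x)) * M - (12 + 25 * (1 - x)) * hv L 0 1) :=
        mul_nonneg (by
          have e2 : (0:ℝ) ≤ (1 / 4) := by positivity
          exact e2.trans_eq (by ring)) (sub_nonneg.2 P3)
      have t2 : 0 ≤ ((1 / 2)) * ((12 + 25 * (1 - x)) * hv L 1 1) :=
        mul_nonneg (by
          have e2 : (0:ℝ) ≤ (1 / 2) := by positivity
          exact e2.trans_eq (by ring)) (mul_nonneg hD.le R2)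
      have t3 : 0 ≤ ((1 / 4)) * ((12 + 25 * (1 - x)) * hv L 0 (-1)) :=
        mul_nonneg (by
          have e2 : (0:ℝ) ≤ (1 / 4) := by positivity
          exact e2.trans_eq (by ring)) (mul_nonneg hD.le S3)
      refine (add_nonneg (add_nonneg (add_nonneg t0 t1) t2) t3).trans_eq ?_
      ring
    · have t0 : 0 ≤ ((27 / 5) + (-17) * x + 14 * x ^ 2) * M := mul_nonneg (by
        have e2 : (0:ℝ) ≤ (43200 / 2197) * (13 / 20 - x) ^ 3 + (41200 / 2197) * x * (13 / 20 - x) ^ 2 + (120 / 2197) * x ^ 2 * (13 / 20 - x) + (2120 / 2197) * x ^ 3 := by positivity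
        exact e2.trans_eq (by ring)) hM0
      have t1 : 0 ≤ ((1 / 2) + (-1 / 2) * x) * ((4 * (1 - x)) * M - (12 + 25 * (1 - x)) * hv L 0 1) :=
        mul_nonneg (by
          have e2 : (0:ℝ) ≤ (10 / 13) * (13 / 20 - x) + (7 / 26) * x := by positivity
          exact e2.trans_eq (by ring)) (sub_nonneg.2 P3)
      have t2 : 0 ≤ (1 * x) * ((16 * (1 - x)) * M - (12 + 25 * (1 - x)) * hv L 1 1) :=
        mul_nonneg (by
          have e2 : (0:ℝ) ≤ 1 * x := by positivity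
          exact e2.trans_eq (by ring)) (sub_nonneg.2 P2)
      have t3 : 0 ≤ ((1 / 2) + (-1 / 2) * x) * ((12 + 25 * (1 - x)) * hv L 0 (-1)) :=
        mul_nonneg (by
          have e2 : (0:ℝ) ≤ (10 / 13) * (13 / 20 - x) + (7 / 26) * x := by positivity
          exact e2.trans_eq (by ring)) (mul_nonneg hD.le S3)
      refine (add_nonneg (add_nonneg (add_nonneg t0 t1) t2) t3).trans_eq ?_
      ring
    · have t0 : 0 ≤ ((333 / 70) + (-4 / 7) * x + (-25 / 14) * x ^ 2) * M := mul_nonneg (by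
        have e2 : (0:ℝ) ≤ (13320 / 1183) * (13 / 20 - x) ^ 2 + (25600 / 1183) * x * (13 / 20 - x) + (2905 / 338) * x ^ 2 := by positivity
        exact e2.trans_eq (by ring)) hM0
      have t1 : 0 ≤ ((1 / 2) + (-1 / 2) * x) * ((12 + 25 * (1 - x)) * hv L 0 1) :=
        mul_nonneg (by
          have e2 : (0:ℝ) ≤ (10 / 13) * (13 / 20 - x) + (7 / 26) * x := by positivity
          exact e2.trans_eq (by ring)) (mul_nonneg hD.le R3)
      have t2 : 0 ≤ (1 * x) * ((12 + 25 * (1 - x)) * hv L 1 1) :=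
        mul_nonneg (by
          have e2 : (0:ℝ) ≤ 1 * x := by positivity
          exact e2.trans_eq (by ring)) (mul_nonneg hD.le R2)
      have t3 : 0 ≤ ((1 / 2) + (-1 / 2) * x) * ((12 + 25 * (1 - x)) * ((1 / 7) * M - hv L 0 (-1))) :=
        mul_nonneg (by
          have e2 : (0:ℝ) ≤ (10 / 13) * (13 / 20 - x) + (7 / 26) * x := by positivity
          exact e2.trans_eq (by ring)) (mul_nonneg hD.le (sub_nonneg.2 T3))
      refine (add_nonneg (add_nonneg (add_nonneg t0 t1) t2) t3).trans_eq ?_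
      ring
    · have t0 : 0 ≤ ((83 / 700) + (43 / 28) * x + (-3 / 28) * x ^ 2 + (-3 / 28) * x ^ 3) * M := mul_nonneg (by
        have e2 : (0:ℝ) ≤ (6640 / 15379) * (13 / 20 - x) ^ 3 + (75820 / 15379) * x * (13 / 20 - x) ^ 2 + (18455 / 2197) * x ^ 2 * (13 / 20 - x) + (33347 / 8788) * x ^ 3 := by positivity
        exact e2.trans_eq (by ring)) hM0
      have t1 : 0 ≤ ((3 / 4) + (1 / 2) * x + (-1 / 4) * x ^ 2) * ((4 * (1 - x)) * M - (12 + 25 * (1 - x)) * hv L 0 1) :=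
        mul_nonneg (by
          have e2 : (0:ℝ) ≤ (300 / 169) * (13 / 20 - x) ^ 2 + (730 / 169) * x * (13 / 20 - x) + (1551 / 676) * x ^ 2 := by positivity
          exact e2.trans_eq (by ring)) (sub_nonneg.2 P3)
      have t2 : 0 ≤ ((1 / 2) + (-1 / 2) * x ^ 2) * ((12 + 25 * (1 - x)) * hv L 1 1) :=
        mul_nonneg (by
          have e2 : (0:ℝ) ≤ (200 / 169) * (13 / 20 - x) ^ 2 + (400 / 169) * x * (13 / 20 - x) + (231 / 338) * x ^ 2 := by positivity
          exact e2.trans_eq (by ring)) (mul_nonneg hD.le R2)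
      have t3 : 0 ≤ ((1 / 4) + (-1 / 2) * x + (1 / 4) * x ^ 2) * ((12 + 25 * (1 - x)) * ((1 / 7) * M - hv L 0 (-1))) :=
        mul_nonneg (by
          have e2 : (0:ℝ) ≤ (100 / 169) * (13 / 20 - x) ^ 2 + (70 / 169) * x * (13 / 20 - x) + (49 / 676) * x ^ 2 := by positivity
          exact e2.trans_eq (by ring)) (mul_nonneg hD.le (sub_nonneg.2 T3))
      refine (add_nonneg (add_nonneg (add_nonneg t0 t1) t2) t3).trans_eq ?_
      ring
  · have e2 : (0:ℝ) ≤ (78075 / 17576) * (13 / 20 - x) ^ 3 + (280479 / 17576) * x * (13 / 20 - x) ^ 2 + (28906 / 2197) * x ^ 2 * (13 / 20 - x) + (2817 / 4394) * x ^ 3 := by positivity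
    exact sub_nonneg.1 (e2.trans_eq (by ring))
  · have e2 : (0:ℝ) ≤ (9270 / 2197) * (13 / 20 - x) ^ 3 + (41603 / 2197) * x * (13 / 20 - x) ^ 2 + (347683 / 17576) * x ^ 2 * (13 / 20 - x) + (71443 / 17576) * x ^ 3 := by positivity
    exact sub_nonneg.1 (e2.trans_eq (by ring))
  · have e2 : (0:ℝ) ≤ (92475 / 17576) * (13 / 20 - x) ^ 3 + (510879 / 17576) * x * (13 / 20 - x) ^ 2 + (81106 / 2197) * x ^ 2 * (13 / 20 - x) + (53217 / 4394) * x ^ 3 := by positivity
    exact sub_nonneg.1 (e2.trans_eq (by ring))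
  · have e2 : (0:ℝ) ≤ (5270 / 2197) * (13 / 20 - x) ^ 3 + (53003 / 2197) * x * (13 / 20 - x) ^ 2 + (626083 / 17576) * x ^ 2 * (13 / 20 - x) + (226643 / 17576) * x ^ 3 := by positivity
    exact sub_nonneg.1 (e2.trans_eq (by ring))
  · have e2 : (0:ℝ) ≤ (5286 / 845) * (13 / 20 - x) ^ 2 + (1075 / 338) * x * (13 / 20 - x) + (2281 / 3380) * x ^ 2 := by positivity
    exact sub_nonneg.1 (e2.trans_eq (by ring))
  · have e2 : (0:ℝ) ≤ (60 / 13) * (13 / 20 - x) ^ 2 + (514 / 65) * x * (13 / 20 - x) + (1519 / 260) * x ^ 2 := by positivity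
    exact sub_nonneg.1 (e2.trans_eq (by ring))
  · have e2 : (0:ℝ) ≤ (864000 / 371293) * (13 / 20 - x) ^ 5 + (6504000 / 371293) * x * (13 / 20 - x) ^ 4 + (17524720 / 371293) * x ^ 2 * (13 / 20 - x) ^ 3 + (20828020 / 371293) * x ^ 3 * (13 / 20 - x) ^ 2 + (10492270 / 371293) * x ^ 4 * (13 / 20 - x) + (3469233 / 742586) * x ^ 5 := by positivity
    exact sub_nonneg.1 (e2.trans_eq (by ring))

end Pool.Agent.HSmall
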